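import Mathlib
set_option autoImplicit false

namespace Pool.Agent.H92R3

open Module IsLocalRing RingTheory.Sequence

section Local

variable {R : Type*} [CommRing R] [IsNoetherianRing R] [IsLocalRing R]

/-- the ideal contains a power of the maximal ideal -/
def Prim (J : Ideal R) : Prop := ∃ N : ℕ, maximalIdeal R ^ N ≤ J

theorem prim_iff (J : Ideal R) (hJ : J ≤ maximalIdeal R) : Prim J ↔ ringKrullDim (R ⧸ J) = 0 := by
  have hne : J ≠ ⊤ := fun h => (maximalIdeal.isMaximal R).ne_top (top_le_iff.1 (h ▸ hJ))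
  have : Nontrivial (R ⧸ J) := Ideal.Quotient.nontrivial_iff.2 hne
  have : IsLocalRing (R ⧸ J) := IsLocalRing.of_surjective' (Ideal.Quotient.mk J)
    Ideal.Quotient.mk_surjective
  have hmap : (maximalIdeal R).map (Ideal.Quotient.mk J) = maximalIdeal (R ⧸ J) := by
    apply IsLocalRing.eq_maximalIdeal
    have := Ideal.map_eq_top_or_isMaximal_of_surjective (Ideal.Quotient.mk J)
      Ideal.Quotient.mk_surjective (maximalIdeal.isMaximal R)
    rcases this with h | h
    · exfalso
      have h2 := Ideal.comap_map_of_surjective (Ideal.Quotient.mk J) Ideal.Quotient.mk_surjective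
        (maximalIdeal R)
      rw [h, Ideal.comap_top, ← RingHom.ker_eq_comap_bot, Ideal.mk_ker, sup_eq_left.2 hJ] at h2
      exact (maximalIdeal.isMaximal R).ne_top h2.symm
    · exact h
  rw [← ringKrullDimZero_iff_ringKrullDim_eq_zero, ← isArtinianRing_iff_krullDimLE_zero,
    isArtinianRing_iff_isNilpotent_maximalIdeal, ← hmap]
  constructor
  · rintro ⟨N, hN⟩
    refine ⟨N, ?_⟩
    rw [← Ideal.map_pow, Ideal.zero_eq_bot, Ideal.map_eq_bot_iff_le_ker, Ideal.mk_ker]
    exact hN
  · rintro ⟨N, hN⟩
    refine ⟨N, ?_⟩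
    rw [← Ideal.map_pow, Ideal.zero_eq_bot, Ideal.map_eq_bot_iff_le_ker, Ideal.mk_ker] at hN
    exact hN

theorem prim_of_finite {k : Type*} [Field k] [Algebra k R] (J : Ideal R)
    (hJ : J ≤ maximalIdeal R) [Module.Finite k (R ⧸ J)] : Prim J := by
  have hne : J ≠ ⊤ := fun h => (maximalIdeal.isMaximal R).ne_top (top_le_iff.1 (h ▸ hJ))
  have : Nontrivial (R ⧸ J) := Ideal.Quotient.nontrivial_iff.2 hne
  rw [prim_iff J hJ, ← ringKrullDimZero_iff_ringKrullDim_eq_zero, ← isArtinianRing_iff_krullDimLE_zero]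
  exact IsArtinianRing.of_finite k (R ⧸ J)

theorem dim_sup (K : Ideal R) (hK : K ≤ maximalIdeal R) (y : R) (hy : y ∈ maximalIdeal R)
    (hreg : ∀ r, y * r ∈ K → r ∈ K) :
    ringKrullDim (R ⧸ (K ⊔ Ideal.span {y})) + 1 = ringKrullDim (R ⧸ K) := by
  have hne : K ≠ ⊤ := fun h => (maximalIdeal.isMaximal R).ne_top (top_le_iff.1 (h ▸ hK))
  have : Nontrivial (R ⧸ K) := Ideal.Quotient.nontrivial_iff.2 hne
  have : IsLocalRing (R ⧸ K) := IsLocalRing.of_surjective' (Ideal.Quotient.mk K)
    Ideal.Quotient.mk_surjective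
  have e := DoubleQuot.quotQuotEquivQuotSup K (Ideal.span {y})
  rw [← ringKrullDim_eq_of_ringEquiv e, Ideal.map_span, Set.image_singleton]
  apply ringKrullDim_quotient_span_singleton_succ_eq_ringKrullDim_of_mem_nonZeroDivisors
  · rw [mem_nonZeroDivisors_iff_right]
    intro z hz
    obtain ⟨r, rfl⟩ := Ideal.Quotient.mk_surjective z
    rw [← map_mul, Ideal.Quotient.eq_zero_iff_mem] at hz
    rw [Ideal.Quotient.eq_zero_iff_mem]
    exact hreg r (by rwa [mul_comm])
  · rw [IsLocalRing.mem_maximalIdeal, mem_nonunits_iff]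
    intro hu
    obtain ⟨z, hz⟩ := hu.exists_right_inv
    obtain ⟨r, rfl⟩ := Ideal.Quotient.mk_surjective z
    rw [← map_mul, ← map_one (Ideal.Quotient.mk K), Ideal.Quotient.eq] at hz
    have h1 : y * r ∈ maximalIdeal R := Ideal.mul_mem_right _ _ hy
    have h2 := Ideal.sub_mem _ h1 (hK hz)
    rw [sub_sub_cancel] at h2
    exact (maximalIdeal.isMaximal R).ne_top ((Ideal.eq_top_iff_one _).2 h2)

theorem prim_exchange (K : Ideal R) (hK : K ≤ maximalIdeal R) (y v : R) (hy : y ∈ maximalIdeal R)
    (hv : v ∈ maximalIdeal R)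
    (hyr : ∀ r, y * r ∈ K → r ∈ K) (hvr : ∀ r, v * r ∈ K → r ∈ K)
    (h : Prim (K ⊔ Ideal.span {y})) : Prim (K ⊔ Ideal.span {v}) := by
  have l1 : K ⊔ Ideal.span {y} ≤ maximalIdeal R :=
    sup_le hK ((Ideal.span_singleton_le_iff_mem _).2 hy)
  have l2 : K ⊔ Ideal.span {v} ≤ maximalIdeal R :=
    sup_le hK ((Ideal.span_singleton_le_iff_mem _).2 hv)
  rw [prim_iff _ l1] at h
  rw [prim_iff _ l2]
  have e1 := dim_sup K hK y hy hyr
  have e2 := dim_sup K hK v hv hvr
  rw [h] at e1
  rw [← e1] at e2
  have hne : K ⊔ Ideal.span {v} ≠ ⊤ := fun h => (maximalIdeal.isMaximal R).ne_top (top_le_iff.1 (h ▸ l2))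
  have : Nontrivial (R ⧸ (K ⊔ Ideal.span {v})) := Ideal.Quotient.nontrivial_iff.2 hne
  have h0 := ringKrullDim_nonneg_of_nontrivial (R := R ⧸ (K ⊔ Ideal.span {v}))
  generalize ringKrullDim (R ⧸ (K ⊔ Ideal.span {v})) = d at e2 h0
  induction d with
  | bot => simp at h0
  | coe d =>
    have : d + 1 = 0 + 1 := by
      have := e2
      norm_cast at this ⊢
    have : d = 0 := by
      induction d using ENat.recTopCoe with
      | top => simp at this
      | coe m =>
        norm_cast at this ⊢
        omega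
    rw [this]
    rfl

theorem exists_perturb {k : Type*} [Field k] [Infinite k] [Algebra k R] (K : Ideal R) (y w : R)
    (L : ℕ) (hy : ∀ r, y * r ∈ K → r ∈ K) :
    ∃ c : k, ∀ r, (w + algebraMap k R c * y ^ L) * r ∈ K → r ∈ K := by
  have hfin : (associatedPrimes R (R ⧸ K)).Finite := associatedPrimes.finite R (R ⧸ K)
  have key : ∀ a : R, (∀ P ∈ associatedPrimes R (R ⧸ K), a ∉ P) → ∀ r, a * r ∈ K → r ∈ K := by
    intro a ha r hr
    by_contra hcon
    have : a ∈ ⋃ p ∈ associatedPrimes R (R ⧸ K), (p : Set R) := by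
      rw [biUnion_associatedPrimes_eq_zero_divisors]
      refine ⟨Ideal.Quotient.mk K r, ?_, ?_⟩
      · rwa [Ne, Ideal.Quotient.eq_zero_iff_mem]
      · rw [← Ideal.Quotient.mk_eq_mk, ← Submodule.Quotient.mk_smul, Submodule.Quotient.mk_eq_zero]
        exact hr
    simp only [Set.mem_iUnion] at this
    obtain ⟨P, hP, haP⟩ := this
    exact ha P hP haP
  have key2 : ∀ P ∈ associatedPrimes R (R ⧸ K), y ∉ P := by
    intro P hP hyP
    have : y ∈ ⋃ p ∈ associatedPrimes R (R ⧸ K), (p : Set R) := by
      simp only [Set.mem_iUnion]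
      exact ⟨P, hP, hyP⟩
    rw [biUnion_associatedPrimes_eq_zero_divisors] at this
    obtain ⟨x, hx, hx2⟩ := this
    obtain ⟨r, rfl⟩ := Ideal.Quotient.mk_surjective x
    rw [← Ideal.Quotient.mk_eq_mk, ← Submodule.Quotient.mk_smul, Submodule.Quotient.mk_eq_zero] at hx2
    rw [Ne, Ideal.Quotient.eq_zero_iff_mem] at hx
    exact hx (hy r hx2)
  have hbad : (⋃ P ∈ associatedPrimes R (R ⧸ K), {c : k | w + algebraMap k R c * y ^ L ∈ P}).Finite := by
    apply Set.Finite.biUnion hfin
    intro P hP
    apply Set.Subsingleton.finite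
    intro c hc c' hc'
    by_contra hne
    have h1 : algebraMap k R (c - c') * y ^ L ∈ P := by
      have := Ideal.sub_mem _ hc hc'
      have e : w + algebraMap k R c * y ^ L - (w + algebraMap k R c' * y ^ L) =
        algebraMap k R (c - c') * y ^ L := by rw [map_sub]; ring
      rwa [e] at this
    have hPp : P.IsPrime := hP.isPrime
    rcases hPp.mem_or_mem h1 with h2 | h2
    · have hu : IsUnit (algebraMap k R (c - c')) := (sub_ne_zero.2 hne).isUnit.map _
      exact hPp.ne_top (Ideal.eq_top_of_isUnit_mem _ h2 hu)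
    · exact key2 P hP (hPp.mem_of_pow_mem _ h2)
  obtain ⟨c, hc⟩ := hbad.exists_notMem
  refine ⟨c, key _ ?_⟩
  intro P hP h
  apply hc
  simp only [Set.mem_iUnion]
  exact ⟨P, hP, h⟩

/-- regular families -/
def Good {n : ℕ} (u : Fin n → R) : Prop := IsWeaklyRegular R ((List.finRange n).map u)

/-- ideal generated by the elements other than the `i`-th -/
def oth {n : ℕ} (u : Fin n → R) (i : Fin n) : Ideal R := Ideal.span (u '' {j | j ≠ i})

omit [IsNoetherianRing R] [IsLocalRing R] in
theorem oth_sup {n : ℕ} (u : Fin n → R) (i : Fin n) :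
    oth u i ⊔ Ideal.span {u i} = Ideal.span (Set.range u) := by
  unfold oth
  rw [← Ideal.span_union, ← Set.image_singleton, ← Set.image_union, ← Set.image_univ]
  congr 2
  ext j
  simp only [Set.mem_union, Set.mem_ofPred_eq, Set.mem_singleton_iff, Set.mem_univ, iff_true]
  exact (em (j = i)).symm

omit [IsNoetherianRing R] [IsLocalRing R] in
theorem oth_update {n : ℕ} (u : Fin n → R) (i : Fin n) (v : R) :
    oth (Function.update u i v) i = oth u i := by
  unfold oth
  congr 1
  apply Set.image_congr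
  intro j hj
  exact Function.update_of_ne hj _ _

omit [IsNoetherianRing R] [IsLocalRing R] in
theorem oth_eq_ofList {n : ℕ} (u : Fin n → R) (i : Fin n) :
    Ideal.ofList (((List.finRange n).filter (fun j => decide (j ≠ i))).map u) = oth u i := by
  unfold oth Ideal.ofList
  congr 1
  ext x
  simp [List.mem_map, List.mem_filter]

omit [IsNoetherianRing R] [IsLocalRing R] in
theorem append_iff (rs : List R) (a : R) : IsWeaklyRegular R (rs ++ [a]) ↔
    IsWeaklyRegular R rs ∧ ∀ r, a * r ∈ Ideal.ofList rs → r ∈ Ideal.ofList rs := by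
  rw [isWeaklyRegular_append_iff, isWeaklyRegular_singleton_iff]
  refine and_congr_right' ?_
  rw [isSMulRegular_iff_right_eq_zero_of_smul]
  have h0 : (Ideal.ofList rs • ⊤ : Submodule R R) = Ideal.ofList rs := by
    rw [smul_eq_mul, Ideal.mul_top]
  constructor
  · intro h r hr
    have h1 := h (Submodule.Quotient.mk r) (by
      rw [← Submodule.Quotient.mk_smul, Submodule.Quotient.mk_eq_zero, h0]; exact hr)
    rwa [Submodule.Quotient.mk_eq_zero, h0] at h1
  · intro h m hm
    obtain ⟨r, rfl⟩ := Submodule.Quotient.mk_surjective _ m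
    rw [← Submodule.Quotient.mk_smul, Submodule.Quotient.mk_eq_zero, h0] at hm
    rw [Submodule.Quotient.mk_eq_zero, h0]
    exact h r hm

theorem perm_finRange {n : ℕ} (i : Fin n) :
    List.Perm (List.finRange n) ((List.finRange n).filter (fun j => decide (j ≠ i)) ++ [i]) := by
  rw [List.perm_iff_count]
  intro j
  rw [List.count_append]
  have h1 : List.count j (List.finRange n) = 1 :=
    List.count_eq_one_of_mem (List.nodup_finRange n) (List.mem_finRange j)
  by_cases hj : j = i
  · subst hj
    rw [h1]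
    have : List.count j ((List.finRange n).filter (fun j' => decide (j' ≠ j))) = 0 := by
      rw [List.count_eq_zero]
      simp
    rw [this]; simp
  · rw [List.count_filter (by simpa using hj), h1]
    have : List.count j [i] = 0 := by
      rw [List.count_eq_zero]; simpa using hj
    rw [this]

theorem good_iff {n : ℕ} (u : Fin n → R) (hu : ∀ j, u j ∈ maximalIdeal R) (i : Fin n) :
    Good u ↔ IsWeaklyRegular R (((List.finRange n).filter (fun j => decide (j ≠ i))).map u) ∧
      ∀ r, u i * r ∈ oth u i → r ∈ oth u i := by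
  have h1 : List.Perm ((List.finRange n).map u)
      (((List.finRange n).filter (fun j => decide (j ≠ i))).map u ++ [u i]) := by
    have := (perm_finRange i).map u
    simpa using this
  rw [← oth_eq_ofList, ← append_iff]
  constructor
  · intro h
    exact IsLocalRing.isWeaklyRegular_of_perm_of_subset_maximalIdeal h h1 (by
      intro r hr
      obtain ⟨j, -, rfl⟩ := List.mem_map.1 hr
      exact hu j)
  · intro h
    refine IsLocalRing.isWeaklyRegular_of_perm_of_subset_maximalIdeal h h1.symm (by
      intro r hr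
      rw [List.mem_append] at hr
      rcases hr with hr | hr
      · obtain ⟨j, -, rfl⟩ := List.mem_map.1 hr
        exact hu j
      · rw [List.mem_singleton] at hr
        rw [hr]; exact hu i)

theorem good_update {n : ℕ} (u : Fin n → R) (hu : ∀ j, u j ∈ maximalIdeal R) (i : Fin n) (v : R)
    (hv : v ∈ maximalIdeal R) (hg : Good u) (hvr : ∀ r, v * r ∈ oth u i → r ∈ oth u i) :
    Good (Function.update u i v) := by
  have hu' : ∀ j, Function.update u i v j ∈ maximalIdeal R := by
    intro j
    by_cases hj : j = i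
    · subst hj; simpa using hv
    · rw [Function.update_of_ne hj]; exact hu j
  rw [good_iff _ hu' i, oth_update, Function.update_self]
  refine ⟨?_, hvr⟩
  have h1 := ((good_iff u hu i).1 hg).1
  have : ((List.finRange n).filter (fun j => decide (j ≠ i))).map (Function.update u i v) =
      ((List.finRange n).filter (fun j => decide (j ≠ i))).map u := by
    apply List.map_congr_left
    intro j hj
    have : j ≠ i := by simpa using (List.mem_filter.1 hj).2
    exact Function.update_of_ne this _ _
  rw [this]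
  exact h1

theorem good_reg {n : ℕ} (u : Fin n → R) (hu : ∀ j, u j ∈ maximalIdeal R) (i : Fin n)
    (hg : Good u) : ∀ r, u i * r ∈ oth u i → r ∈ oth u i := ((good_iff u hu i).1 hg).2

end Local

end Pool.Agent.H92R3
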