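import Mathlib

set_option autoImplicit false
set_option linter.unusedVariables false

namespace Pool.Agent.H92R3.Canc

open Finset

noncomputable section

abbrev Lam := AddMonoidAlgebra ℤ ℝ

/-- functions `X → A` with the action of the group algebra through `e`. -/
def Fn {X : Type*} [AddCommGroup X] (_e : ℝ →+ X) (A : Type*) := X → A

variable {X A : Type*} [AddCommGroup X] [AddCommGroup A]

instance (e : ℝ →+ X) : AddCommGroup (Fn e A) := inferInstanceAs (AddCommGroup (X → A))

/-- translation operator -/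
def tr (e : ℝ →+ X) (s : ℝ) : Module.End ℤ (Fn e A) where
  toFun f := fun y => f (y - e s)
  map_add' f g := rfl
  map_smul' c f := rfl

def trHom (e : ℝ →+ X) : Multiplicative ℝ →* Module.End ℤ (Fn e A) where
  toFun s := tr e s.toAdd
  map_one' := by
    ext f
    change (fun y => f (y - e 0)) = f
    simp
  map_mul' a b := by
    ext f
    change (fun y => f (y - e (a.toAdd + b.toAdd))) = (fun y => f (y - e a.toAdd - e b.toAdd))
    simp [sub_sub]

def actHom (e : ℝ →+ X) : Lam →ₐ[ℤ] Module.End ℤ (Fn e A) := AddMonoidAlgebra.lift ℤ _ ℝ (trHom e)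

instance (e : ℝ →+ X) : Module Lam (Fn e A) := Module.compHom (Fn e A) (actHom (A := A) e).toRingHom

theorem smul_def' (e : ℝ →+ X) (c : Lam) (f : Fn e A) : c • f = actHom e c f := rfl

theorem smul_apply (e : ℝ →+ X) (c : Lam) (f : Fn e A) (y : X) :
    (c • f) y = c.coeff.sum fun s z => z • f (y - e s) := by
  rw [smul_def', actHom, AddMonoidAlgebra.lift_apply]
  simp only [Finsupp.sum]
  rw [LinearMap.sum_apply]
  rw [show ∀ (g : ℝ → Fn e A), (∑ s ∈ c.coeff.support, g s) y = ∑ s ∈ c.coeff.support, g s y from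
    fun g => Finset.sum_apply (M := fun _ => A) y c.coeff.support g]
  rfl

/-- the group element `t^s` -/
def tt (s : ℝ) : Lam := AddMonoidAlgebra.single s 1

theorem tt_mul (a b : ℝ) : tt a * tt b = tt (a + b) := by
  simp [tt, AddMonoidAlgebra.single_mul_single]

theorem tt_zero : tt 0 = 1 := rfl

theorem tt_smul (e : ℝ →+ X) (s : ℝ) (f : Fn e A) : tt s • f = fun y => f (y - e s) := by
  rw [smul_def', actHom, tt, AddMonoidAlgebra.lift_single, one_smul]
  rfl

theorem tt_smul_apply (e : ℝ →+ X) (s : ℝ) (f : Fn e A) (y : X) : (tt s • f) y = f (y - e s) := by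
  rw [tt_smul]

/-! ### The numbers `x` with `2x + x⁴ = 1` -/

theorem exists_x : ∃ x : ℝ, 0.47 < x ∧ x < 0.476 ∧ 2 * x + x ^ 4 = 1 := by
  have hc : ContinuousOn (fun x : ℝ => 2 * x + x ^ 4) (Set.Icc 0.47 0.476) := by fun_prop
  have := intermediate_value_Ioo (by norm_num : (0.47 : ℝ) ≤ 0.476) hc
  obtain ⟨x, hx, hx2⟩ := this (show (1 : ℝ) ∈ _ by constructor <;> norm_num)
  exact ⟨x, hx.1, hx.2, hx2⟩

def xx : ℝ := Classical.choose exists_x

theorem xx_gt : 0.47 < xx := (Classical.choose_spec exists_x).1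
theorem xx_lt : xx < 0.476 := (Classical.choose_spec exists_x).2.1
theorem xx_eq : 2 * xx + xx ^ 4 = 1 := (Classical.choose_spec exists_x).2.2
theorem xx_pos : 0 < xx := lt_trans (by norm_num) xx_gt

def mu (m : ℕ) : ℝ := xx ^ m

theorem mu_pos (m : ℕ) : 0 < mu m := pow_pos xx_pos m
theorem mu_rec (m : ℕ) : mu m = 2 * mu (m + 1) + mu (m + 4) := by
  unfold mu
  have := xx_eq
  calc xx ^ m = xx ^ m * (2 * xx + xx ^ 4) := by rw [this, mul_one]
    _ = _ := by ring
theorem mu_anti (m : ℕ) : mu (m + 1) ≤ mu m := by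
  have := mu_rec m
  have h1 := mu_pos (m + 1)
  have h4 := mu_pos (m + 4)
  linarith
theorem mu_half (m : ℕ) : 2 * mu (m + 1) ≤ mu m := by
  have := mu_rec m
  have h4 := mu_pos (m + 4)
  linarith
theorem mu_lt_three (m : ℕ) : mu m ≤ 3 * mu (m + 1) := by
  have := mu_rec m
  have h4 := mu_anti (m + 1)
  have h5 := mu_anti (m + 2)
  have h6 := mu_anti (m + 3)
  linarith

/-- the coefficients -/
def cc : ℕ → Fin 4 → Lam
  | 0 => fun i => if i = 0 then 1 else 0
  | 1 => fun i => if i = 1 then 1 else 0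
  | 2 => fun i => if i = 2 then 1 else 0
  | 3 => fun i => if i = 3 then 1 else 0
  | (m + 4) => fun i => - ((tt (- mu (m + 1)) + tt (- (2 * mu (m + 1)))) * cc (m + 1) i)
      + tt (- (2 * mu (m + 1))) * cc m i

def tm (m : ℕ) : Lam := tt (mu m)

theorem cc_rec (m : ℕ) (i : Fin 4) : cc (m + 4) i =
    - ((tt (- mu (m + 1)) + tt (- (2 * mu (m + 1)))) * cc (m + 1) i) + tt (- (2 * mu (m + 1))) * cc m i := by
  rw [cc]

theorem tm_rec (m : ℕ) : tm m = tm (m + 1) * tm (m + 1) * tm (m + 4) := by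
  unfold tm
  rw [tt_mul, tt_mul, mu_rec m]
  congr 1
  ring

theorem tinv (m : ℕ) : tt (- mu m) * tm m = 1 := by
  unfold tm
  rw [tt_mul, neg_add_cancel, tt_zero]

theorem tinv2 (m : ℕ) : tt (- (2 * mu m)) = tt (- mu m) * tt (- mu m) := by
  rw [tt_mul]
  congr 1
  ring

theorem one_sub_tm (m : ℕ) : 1 - tm m = ∑ i : Fin 4, (1 - tm i) * cc m i := by
  induction m using Nat.strong_induction_on with
  | _ m ih =>
    rcases m with _ | _ | _ | _ | m
    · simp [cc]
    · simp [cc]
    · simp [cc]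
    · simp [cc]
    · have h0 := ih m (by omega)
      have h1 := ih (m + 1) (by omega)
      have hr := tm_rec m
      have hi := tinv (m + 1)
      simp only [cc_rec, tinv2]
      set t := tm (m + 1)
      set s := tt (- mu (m + 1))
      set t4 := tm (m + 4)
      have e1 : ∑ i : Fin 4, (1 - tm i) * (-((s + s * s) * cc (m + 1) i) + s * s * cc m i)
          = - (s + s * s) * (∑ i : Fin 4, (1 - tm i) * cc (m + 1) i) + s * s * ∑ i : Fin 4, (1 - tm i) * cc m i := by
        rw [Finset.mul_sum, Finset.mul_sum, ← Finset.sum_add_distrib]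
        apply Finset.sum_congr rfl
        intro i _
        ring
      rw [e1, ← h0, ← h1, hr]
      linear_combination (-1 - s + t4 * (s * t + 1)) * hi

theorem supp_smul (e : ℝ →+ X) (c : Lam) (f : Fn e A) (y : X) (h : (c • f) y ≠ 0) :
    ∃ b ∈ c.coeff.support, f (y - e b) ≠ 0 := by
  rw [smul_apply, Finsupp.sum] at h
  by_contra hc
  push Not at hc
  apply h
  apply Finset.sum_eq_zero
  intro b hb
  rw [hc b hb, smul_zero]

end

end Pool.Agent.H92R3.Canc
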