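import Pool.Agent.H92R3.CxA

set_option autoImplicit false
set_option linter.unusedVariables false

namespace Pool.Agent.H92R3.Canc

open Finset

noncomputable section

/-- support of an element of the group algebra -/
def sp (c : Lam) : Finset ℝ := c.coeff.support

theorem sp_add (a b : Lam) : sp (a + b) ⊆ sp a ∪ sp b := by
  classical
  unfold sp
  rw [AddMonoidAlgebra.coeff_add]
  exact Finsupp.support_add

theorem sp_neg (a : Lam) : sp (- a) = sp a := by
  unfold sp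
  rw [AddMonoidAlgebra.coeff_neg]
  exact Finsupp.support_neg _

theorem sp_tt_mul (s : ℝ) (a : Lam) : sp (tt s * a) ⊆ (sp a).image (s + ·) := by
  unfold sp tt
  exact AddMonoidAlgebra.support_coeff_single_mul_subset a 1 s

theorem sp_one : sp 1 ⊆ {0} := by
  unfold sp
  rw [← tt_zero, tt, AddMonoidAlgebra.coeff_single]
  exact Finsupp.support_single_subset

theorem sp_zero : sp 0 = ∅ := by
  unfold sp
  simp

theorem sp_rec (m : ℕ) (i : Fin 4) : sp (cc (m + 4) i) ⊆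
    (sp (cc (m + 1) i)).image (- mu (m + 1) + ·) ∪ (sp (cc (m + 1) i)).image (- (2 * mu (m + 1)) + ·)
      ∪ (sp (cc m i)).image (- (2 * mu (m + 1)) + ·) := by
  rw [cc_rec, add_mul]
  refine (sp_add _ _).trans (Finset.union_subset_union ?_ (sp_tt_mul _ _))
  rw [sp_neg]
  exact (sp_add _ _).trans (Finset.union_subset_union (sp_tt_mul _ _) (sp_tt_mul _ _))

theorem card_cc (m : ℕ) (i : Fin 4) : ((sp (cc m i)).card : ℝ) ≤ (7 / 5) ^ m := by
  have h1 : ∀ m : ℕ, (1 : ℝ) ≤ (7 / 5) ^ m := fun m => one_le_pow₀ (by norm_num)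
  have hsmall : ∀ (p : Prop) [Decidable p], ((sp (if p then 1 else 0)).card : ℝ) ≤ 1 := by
    intro p _
    split_ifs
    · exact_mod_cast (Finset.card_le_card sp_one).trans (by simp)
    · rw [sp_zero]; simp
  induction m using Nat.strong_induction_on with
  | _ m ih =>
    rcases m with _ | _ | _ | _ | m
    · exact (hsmall _).trans (h1 _)
    · exact (hsmall _).trans (h1 _)
    · exact (hsmall _).trans (h1 _)
    · exact (hsmall _).trans (h1 _)
    · have h0 := ih m (by omega)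
      have h2 := ih (m + 1) (by omega)
      have h3 := Finset.card_le_card (sp_rec m i)
      have h4 : (sp (cc (m + 4) i)).card ≤ (sp (cc (m + 1) i)).card + (sp (cc (m + 1) i)).card
          + (sp (cc m i)).card := by
        refine h3.trans ((Finset.card_union_le _ _).trans (Nat.add_le_add ((Finset.card_union_le _ _).trans
          (Nat.add_le_add Finset.card_image_le Finset.card_image_le)) Finset.card_image_le))
      have h5 : ((sp (cc (m + 4) i)).card : ℝ) ≤ (sp (cc (m + 1) i)).card + (sp (cc (m + 1) i)).card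
          + (sp (cc m i)).card := by exact_mod_cast h4
      have h6 : (0 : ℝ) < (7 / 5) ^ m := by positivity
      have e1 : ((7 : ℝ) / 5) ^ (m + 1) = (7 / 5) ^ m * (7 / 5) := by ring
      have e2 : ((7 : ℝ) / 5) ^ (m + 4) = (7 / 5) ^ m * (7 / 5) ^ 4 := by ring
      change ((sp (cc (m + 4) i)).card : ℝ) ≤ (7 / 5) ^ (m + 4)
      rw [e2]
      rw [e1] at h2
      nlinarith

/-- the relevant shifts at stage `m` -/
def BB (m : ℕ) : Finset ℝ :=
  {0} ∪ (Finset.univ : Finset (Fin 4)).biUnion fun j => (Finset.univ : Finset (Fin 4)).biUnion fun i =>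
    sp (cc (m + j) i)

theorem mem_BB {m : ℕ} {b : ℝ} : b ∈ BB m ↔ b = 0 ∨ ∃ j : Fin 4, ∃ i : Fin 4, b ∈ sp (cc (m + j) i) := by
  simp [BB]

theorem zero_mem_BB (m : ℕ) : (0 : ℝ) ∈ BB m := mem_BB.2 (Or.inl rfl)

theorem cc_mem_BB (m j : ℕ) (hj : j < 4) (i : Fin 4) {b : ℝ} (hb : b ∈ sp (cc (m + j) i)) : b ∈ BB m :=
  mem_BB.2 (Or.inr ⟨⟨j, hj⟩, i, hb⟩)

theorem BB_succ (m : ℕ) {b : ℝ} (hb : b ∈ BB (m + 1)) : ∃ b0 ∈ BB m, b0 - mu m ≤ b ∧ b ≤ b0 := by
  have hm := mu_half m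
  have hp := mu_pos m
  have hp1 := mu_pos (m + 1)
  rcases mem_BB.1 hb with rfl | ⟨j, i, hb⟩
  · exact ⟨0, zero_mem_BB m, by linarith, le_rfl⟩
  · by_cases hj : (j : ℕ) < 3
    · refine ⟨b, cc_mem_BB m (j + 1) (by omega) i ?_, by linarith, le_rfl⟩
      rwa [show m + ((j : ℕ) + 1) = m + 1 + j by ring]
    · have hj3 : (j : ℕ) = 3 := by omega
      rw [hj3] at hb
      have := sp_rec m i hb
      simp only [Finset.mem_union, Finset.mem_image] at this
      rcases this with (⟨c, hc, rfl⟩ | ⟨c, hc, rfl⟩) | ⟨c, hc, rfl⟩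
      · exact ⟨c, cc_mem_BB m 1 (by omega) i hc, by linarith, by linarith⟩
      · exact ⟨c, cc_mem_BB m 1 (by omega) i hc, by linarith, by linarith⟩
      · exact ⟨c, cc_mem_BB m 0 (by omega) i hc, by linarith, by linarith⟩

theorem card_BB (m : ℕ) : ((BB m).card : ℝ) ≤ 49 * (7 / 5) ^ m := by
  have h1 : ∀ m : ℕ, (1 : ℝ) ≤ (7 / 5) ^ m := fun m => one_le_pow₀ (by norm_num)
  have h2 : (BB m).card ≤ 1 + ∑ j : Fin 4, ∑ i : Fin 4, (sp (cc (m + j) i)).card := by
    refine (Finset.card_union_le _ _).trans (Nat.add_le_add (by simp) ?_)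
    refine Finset.card_biUnion_le.trans (Finset.sum_le_sum fun j _ => Finset.card_biUnion_le)
  have h3 : ((BB m).card : ℝ) ≤ 1 + ∑ j : Fin 4, ∑ i : Fin 4, ((sp (cc (m + j) i)).card : ℝ) := by
    exact_mod_cast h2
  have h4 : ∑ j : Fin 4, ∑ i : Fin 4, ((sp (cc (m + j) i)).card : ℝ)
      ≤ ∑ j : Fin 4, ∑ i : Fin 4, (7 / 5 : ℝ) ^ (m + 3) := by
    refine Finset.sum_le_sum fun j _ => Finset.sum_le_sum fun i _ => (card_cc _ _).trans ?_
    exact pow_le_pow_right₀ (by norm_num) (by omega)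
  have h5 := h1 m
  have e : (7 / 5 : ℝ) ^ (m + 3) = (7 / 5) ^ m * (7 / 5) ^ 3 := by ring
  simp only [Finset.sum_const, Finset.card_univ, Fintype.card_fin, e, nsmul_eq_mul] at h4
  push_cast at h4
  nlinarith

open MeasureTheory

def DD (m : ℕ) : Set ℝ := ⋃ b ∈ BB m, ⋃ b' ∈ BB m, Set.Icc (b + b' - 4 * mu m) (b + b' + 4 * mu m)

theorem mem_DD {m : ℕ} {y : ℝ} : y ∈ DD m ↔ ∃ b ∈ BB m, ∃ b' ∈ BB m, b + b' - 4 * mu m ≤ y ∧
    y ≤ b + b' + 4 * mu m := by
  simp only [DD, Set.mem_iUnion, Set.mem_Icc, exists_prop]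

theorem isClosed_DD (m : ℕ) : IsClosed (DD m) :=
  Set.Finite.isClosed_biUnion (Finset.finite_toSet _) fun b _ =>
    Set.Finite.isClosed_biUnion (Finset.finite_toSet _) fun b' _ => isClosed_Icc

theorem DD_succ (m : ℕ) : DD (m + 1) ⊆ DD m := by
  intro y hy
  obtain ⟨b, hb, b', hb', h1, h2⟩ := mem_DD.1 hy
  obtain ⟨c, hc, h3, h4⟩ := BB_succ m hb
  obtain ⟨c', hc', h5, h6⟩ := BB_succ m hb'
  have hm := mu_half m
  have hp := mu_pos m
  have hp1 := mu_pos (m + 1)
  exact mem_DD.2 ⟨c, hc, c', hc', by linarith, by linarith⟩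

theorem DD_anti : Antitone DD := antitone_nat_of_succ_le DD_succ

theorem DD_bdd : Bornology.IsBounded (DD 0) :=
  (Bornology.isBounded_biUnion_finset _).2 fun b _ =>
    (Bornology.isBounded_biUnion_finset _).2 fun b' _ => Metric.isBounded_Icc _ _

theorem vol_DD (m : ℕ) : volume (DD m) ≤ ENNReal.ofReal (49 ^ 2 * 8 * (0.94) ^ m) := by
  have h1 : volume (DD m) ≤ ∑ b ∈ BB m, ∑ b' ∈ BB m, ENNReal.ofReal (8 * mu m) := by
    refine (measure_biUnion_finset_le _ _).trans (Finset.sum_le_sum fun b _ => ?_)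
    refine (measure_biUnion_finset_le _ _).trans (Finset.sum_le_sum fun b' _ => ?_)
    rw [Real.volume_Icc]
    apply ENNReal.ofReal_le_ofReal
    linarith
  refine h1.trans ?_
  rw [Finset.sum_const, Finset.sum_const, smul_smul, nsmul_eq_mul]
  rw [← ENNReal.ofReal_natCast, ← ENNReal.ofReal_mul (by positivity)]
  apply ENNReal.ofReal_le_ofReal
  push_cast
  have h2 := card_BB m
  have h3 : (0 : ℝ) ≤ (BB m).card := by positivity
  have h4 : ((BB m).card : ℝ) * (BB m).card ≤ (49 * (7 / 5) ^ m) * (49 * (7 / 5) ^ m) :=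
    mul_le_mul h2 h2 h3 (by positivity)
  have h5 : mu m * ((7 / 5) ^ m * (7 / 5) ^ m) ≤ (0.94) ^ m := by
    rw [mu, ← mul_pow, ← mul_pow]
    have hx := xx_lt
    have hx0 := xx_pos
    apply pow_le_pow_left₀ (by positivity)
    norm_num at *
    linarith
  have h6 : 0 < mu m := mu_pos m
  calc ((BB m).card : ℝ) * (BB m).card * (8 * mu m) ≤ (49 * (7 / 5) ^ m) * (49 * (7 / 5) ^ m) * (8 * mu m) :=
        mul_le_mul_of_nonneg_right h4 (by positivity)
    _ = 49 ^ 2 * 8 * (mu m * ((7 / 5) ^ m * (7 / 5) ^ m)) := by ring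
    _ ≤ _ := mul_le_mul_of_nonneg_left h5 (by positivity)

theorem vol_DDinf : volume (⋂ m, DD m) = 0 := by
  have h1 : ∀ m, volume (⋂ m, DD m) ≤ ENNReal.ofReal (49 ^ 2 * 8 * (0.94) ^ m) := fun m =>
    (measure_mono (Set.iInter_subset _ m)).trans (vol_DD m)
  have h2 : Filter.Tendsto (fun m : ℕ => ENNReal.ofReal (49 ^ 2 * 8 * (0.94) ^ m)) Filter.atTop (nhds 0) := by
    rw [← ENNReal.ofReal_zero]
    apply ENNReal.tendsto_ofReal
    have := (tendsto_pow_atTop_nhds_zero_of_lt_one (by norm_num : (0 : ℝ) ≤ 0.94) (by norm_num)).const_mul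
      (49 ^ 2 * 8 : ℝ)
    simpa using this
  exact le_antisymm (ge_of_tendsto' h2 h1) zero_le

end

end Pool.Agent.H92R3.Canc
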