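import Pool.Agent.H92R3.CxB

set_option autoImplicit false
set_option linter.unusedVariables false

namespace Pool.Agent.H92R3.Canc

open Finset

noncomputable section

variable {X A : Type*} [AddCommGroup X] [AddCommGroup A]

/-- abstract class of functions -/
structure JC (e : ℝ →+ X) (ht : X →+ ℝ) (J : (X → A) → Prop) : Prop where
  zero : J 0
  add : ∀ f g, J f → J g → J (f + g)
  neg : ∀ f, J f → J (-f)
  tr : ∀ s f, J f → J (fun y => f (y - e s))
  cut : ∀ a f, J f → J (fun y => if a ≤ ht y then f y else 0)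
  lim : ∀ (η : ℕ → X → A), (∀ m, J (η m)) → (∀ m y, η m y ≠ 0 → ht y ∈ DD m) →
     ∃ θ, J θ ∧ (∀ m y, ht y ∉ DD m → θ y = ∑ i ∈ range m, η i y) ∧
      ∀ y, (∀ m, ht y ∈ DD m) → θ y = 0

section

variable {e : ℝ →+ X} {ht : X →+ ℝ} {J : (X → A) → Prop}

theorem JC.sum (hJ : JC e ht J) {ι : Type*} (s : Finset ι) (f : ι → X → A) (h : ∀ i ∈ s, J (f i)) :
    J (∑ i ∈ s, f i) := by
  classical
  induction s using Finset.induction_on with
  | empty => simpa using hJ.zero
  | insert a s ha ih =>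
    rw [Finset.sum_insert ha]
    exact hJ.add _ _ (h a (Finset.mem_insert_self _ _)) (ih fun i hi => h i (Finset.mem_insert_of_mem hi))

theorem JC.sub (hJ : JC e ht J) (f g : X → A) (hf : J f) (hg : J g) : J (f - g) := by
  rw [sub_eq_add_neg]
  exact hJ.add _ _ hf (hJ.neg _ hg)

theorem JC.nsmul (hJ : JC e ht J) (n : ℕ) (f : X → A) (hf : J f) : J (n • f) := by
  induction n with
  | zero => simpa using hJ.zero
  | succ n ih => rw [succ_nsmul]; exact hJ.add _ _ ih hf

theorem JC.zsmul (hJ : JC e ht J) (n : ℤ) (f : X → A) (hf : J f) : J (n • f) := by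
  rcases n with n | n
  · simpa using hJ.nsmul n f hf
  · rw [negSucc_zsmul]; exact hJ.neg _ (hJ.nsmul _ f hf)

theorem JC.smul (hJ : JC e ht J) (c : Lam) (f : Fn e A) (hf : J f) : J (c • f : Fn e A) := by
  have : (c • f : Fn e A) = ∑ s ∈ c.coeff.support, (c.coeff s) • (fun y : X => f (y - e s)) := by
    funext y
    rw [smul_apply, Finsupp.sum, Finset.sum_apply]
    rfl
  rw [this]
  exact hJ.sum _ _ fun s _ => hJ.zsmul _ _ (hJ.tr s f hf)

theorem JC.addF (hJ : JC e ht J) (f g : Fn e A) (hf : J f) (hg : J g) : J (f + g : Fn e A) :=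
  hJ.add _ _ hf hg

theorem JC.subF (hJ : JC e ht J) (f g : Fn e A) (hf : J f) (hg : J g) : J (f - g : Fn e A) :=
  hJ.sub _ _ hf hg

end

/-! ### folding -/

def RR (e : ℝ →+ X) (ht : X →+ ℝ) (K : ℕ) (μ : ℝ) (f : Fn e A) : Fn e A := fun y =>
  if 0 ≤ ht y ∧ ht y < μ then ∑ l ∈ range (K + 1), f (y + e (l * μ)) else 0

def PP (e : ℝ →+ X) (ht : X →+ ℝ) (K : ℕ) (μ : ℝ) (f : Fn e A) : Fn e A := fun y =>
  if 0 ≤ ht y then - ∑ l ∈ range K, f (y + e ((l + 1) * μ)) else 0

section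

variable {e : ℝ →+ X} {ht : X →+ ℝ} {J : (X → A) → Prop}

theorem Fn.add_apply (f g : Fn e A) (y : X) : (f + g) y = f y + g y := rfl
theorem Fn.sub_apply (f g : Fn e A) (y : X) : (f - g) y = f y - g y := rfl
theorem Fn.neg_apply (f : Fn e A) (y : X) : (-f) y = - f y := rfl
theorem Fn.zero_apply (y : X) : (0 : Fn e A) y = 0 := rfl
theorem Fn.sum_apply {ι : Type*} (s : Finset ι) (f : ι → Fn e A) (y : X) :
    (∑ i ∈ s, f i) y = ∑ i ∈ s, f i y := Finset.sum_apply (M := fun _ => A) y s f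

theorem one_sub_smul_apply (s : ℝ) (f : Fn e A) (y : X) :
    (((1 : Lam) - tt s) • f) y = f y - f (y - e s) := by
  rw [sub_smul, one_smul, Fn.sub_apply, tt_smul_apply]

theorem fold_eq (hht : ∀ s, ht (e s) = s) (K : ℕ) {μ : ℝ} (hμ : 0 < μ) (f : Fn e A)
    (hf : ∀ y, f y ≠ 0 → 0 ≤ ht y ∧ ht y < (K + 1) * μ) :
    f = ((1 : Lam) - tt μ) • PP e ht K μ f + RR e ht K μ f := by
  funext y
  rw [Fn.add_apply, one_sub_smul_apply]
  have hty : ht (y - e μ) = ht y - μ := by rw [map_sub, hht]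
  simp only [PP, RR, hty]
  have e1 : ∀ l : ℕ, f (y - e μ + e (((l : ℝ) + 1) * μ)) = f (y + e (l * μ)) := by
    intro l
    congr 1
    rw [sub_add_eq_add_sub, add_sub_assoc, ← map_sub]
    congr 2
    ring
  simp only [e1]
  have e2 : ∑ l ∈ range (K + 1), f (y + e (l * μ)) = ∑ l ∈ range K, f (y + e (((l : ℝ) + 1) * μ)) + f y := by
    rw [Finset.sum_range_succ']
    simp
  by_cases h0 : 0 ≤ ht y
  · by_cases h1 : ht y < μ
    · rw [if_pos h0, if_neg (by linarith), if_pos ⟨h0, h1⟩, e2]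
      abel
    · rw [if_pos h0, if_pos (by linarith), if_neg (by tauto)]
      have h2 : f (y + e (K * μ)) = 0 := by
        by_contra h
        have := (hf _ h).2
        rw [map_add, hht] at this
        push Not at h1
        nlinarith
      have e3 := e2
      rw [Finset.sum_range_succ, h2, add_zero] at e3
      rw [e3]
      abel
  · rw [if_neg h0, if_neg (by linarith), if_neg (by tauto)]
    have : f y = 0 := by
      by_contra h
      exact h0 (hf _ h).1
    rw [this]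
    abel

theorem RR_supp (K : ℕ) (μ : ℝ) (f : Fn e A) (y : X) (h : RR e ht K μ f y ≠ 0) : 0 ≤ ht y ∧ ht y < μ := by
  unfold RR at h
  by_contra hc
  rw [if_neg hc] at h
  exact h rfl

theorem PP_supp (hht : ∀ s, ht (e s) = s) (K : ℕ) {μ : ℝ} (hμ : 0 < μ) (f : Fn e A) {b : ℝ}
    (hf : ∀ y, f y ≠ 0 → 0 ≤ ht y ∧ ht y < b)
    (y : X) (h : PP e ht K μ f y ≠ 0) : 0 ≤ ht y ∧ ht y < b := by
  unfold PP at h
  by_cases h0 : 0 ≤ ht y
  · refine ⟨h0, ?_⟩
    rw [if_pos h0, neg_ne_zero] at h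
    obtain ⟨l, _, hl⟩ := Finset.exists_ne_zero_of_sum_ne_zero h
    have := (hf _ hl).2
    rw [map_add, hht] at this
    have h3 : 0 ≤ ((l : ℝ) + 1) * μ := by positivity
    linarith
  · rw [if_neg h0] at h
    exact absurd rfl h

theorem JC.RR (hJ : JC e ht J) (K : ℕ) {μ : ℝ} (hμ : 0 < μ) (f : Fn e A) (hf : J f) : J (RR e ht K μ f) := by
  set g : X → A := ∑ l ∈ range (K + 1), fun y => f (y + e (l * μ)) with hg
  have hgJ : J g := by
    refine hJ.sum _ _ fun l _ => ?_
    have := hJ.tr (-(l * μ)) f hf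
    simpa using this
  have : Canc.RR e ht K μ f = (fun y => if 0 ≤ ht y then g y else 0) - (fun y => if μ ≤ ht y then g y else 0) := by
    funext y
    simp only [Canc.RR, Pi.sub_apply]
    have hgy : g y = ∑ l ∈ range (K + 1), f (y + e (l * μ)) := by rw [hg, Finset.sum_apply]
    by_cases h0 : 0 ≤ ht y
    · by_cases h1 : ht y < μ
      · rw [if_pos ⟨h0, h1⟩, if_pos h0, if_neg (by linarith), hgy, sub_zero]
      · rw [if_neg (by tauto), if_pos h0, if_pos (by linarith), sub_self]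
    · rw [if_neg (by tauto), if_neg h0, if_neg (by linarith), sub_self]
  rw [this]
  exact hJ.sub _ _ (hJ.cut _ _ hgJ) (hJ.cut _ _ hgJ)

theorem JC.PP (hJ : JC e ht J) (K : ℕ) (μ : ℝ) (f : Fn e A) (hf : J f) : J (PP e ht K μ f) := by
  set g : X → A := - ∑ l ∈ range K, fun y => f (y + e ((l + 1) * μ)) with hg
  have hgJ : J g := by
    refine hJ.neg _ (hJ.sum _ _ fun l _ => ?_)
    have := hJ.tr (-((l + 1) * μ)) f hf
    simpa using this
  have : Canc.PP e ht K μ f = (fun y => if 0 ≤ ht y then g y else 0) := by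
    funext y
    simp only [Canc.PP]
    have hgy : g y = - ∑ l ∈ range K, f (y + e ((l + 1) * μ)) := by
      rw [hg, Pi.neg_apply, Finset.sum_apply]
    rw [hgy]
  rw [this]
  exact hJ.cut _ _ hgJ

theorem in_DD {m : ℕ} {y : X} {b b' : ℝ} (hb : b ∈ BB m) (hb' : b' ∈ BB m)
    (h1 : - (4 * mu m) ≤ ht y - b - b') (h2 : ht y - b - b' ≤ 4 * mu m) : ht y ∈ DD m :=
  mem_DD.2 ⟨b, hb, b', hb', by linarith, by linarith⟩

/-- **divisibility**. -/
theorem H0 (hht : ∀ s, ht (e s) = s) (hJ : JC e ht J) (f : Fn e A) (hf : J f) (N : ℕ)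
    (hs : ∀ y, f y ≠ 0 → 0 ≤ ht y ∧ ht y < N + 1) :
    ∃ θ : Fin 4 → X → A, (∀ i, J (θ i)) ∧ ∀ m y, ht y ∉ DD m → (∀ i : Fin 4, ht y - mu i ∉ DD m) →
      f y = ∑ i, (θ i y - θ i (y - e (mu i))) := by
  have hmu0 : mu 0 = 1 := by simp [mu]
  set f0 : Fn e A := RR e ht N (mu 0) f with hf0
  have e0 : f = ((1 : Lam) - tm 0) • PP e ht N (mu 0) f + f0 :=
    fold_eq hht N (mu_pos 0) f (by simpa [hmu0] using hs)
  let F : ℕ → Fn e A := fun m => Nat.rec f0 (fun m g => RR e ht 2 (mu (m + 1)) g) m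
  have F0 : F 0 = f0 := rfl
  have Fs : ∀ m, F (m + 1) = RR e ht 2 (mu (m + 1)) (F m) := fun m => rfl
  have hsupp : ∀ m y, F m y ≠ 0 → 0 ≤ ht y ∧ ht y < mu m := by
    intro m
    rcases m with _ | m
    · exact fun y h => RR_supp _ _ _ y h
    · exact fun y h => RR_supp _ _ _ y h
  have hFJ : ∀ m, J (F m) := by
    intro m
    induction m with
    | zero => exact hJ.RR N (mu_pos 0) f hf
    | succ m ih => exact hJ.RR 2 (mu_pos (m + 1)) _ ih
  let G : ℕ → Fn e A := fun m => PP e ht 2 (mu (m + 1)) (F m)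
  have hstep : ∀ m, F m = ((1 : Lam) - tm (m + 1)) • G m + F (m + 1) := by
    intro m
    refine fold_eq hht 2 (mu_pos (m + 1)) (F m) fun y hy => ?_
    have h1 := hsupp m y hy
    refine ⟨h1.1, h1.2.trans_le ?_⟩
    have := mu_lt_three m
    norm_num
    linarith
  let η : Fin 4 → ℕ → Fn e A := fun i m => cc (m + 1) i • G m
  have hη : ∀ m, F m = ∑ i : Fin 4, ((1 : Lam) - tm i) • η i m + F (m + 1) := by
    intro m
    conv_lhs => rw [hstep m, one_sub_tm, Finset.sum_smul]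
    simp only [mul_smul]
    rfl
  have hlim : ∀ i, ∃ θ, J θ ∧ (∀ m y, ht y ∉ DD m → θ y = ∑ j ∈ range m, η i j y) ∧
      ∀ y, (∀ m, ht y ∈ DD m) → θ y = 0 := by
    intro i
    refine hJ.lim (η i) (fun m => hJ.smul _ _ (hJ.PP _ _ _ (hFJ m))) fun m y hy => ?_
    obtain ⟨b, hb, hb2⟩ := supp_smul e _ _ y hy
    have h1 := PP_supp hht 2 (mu_pos (m + 1)) (F m) (hsupp m) _ hb2
    rw [map_sub, hht] at h1
    have hp := mu_pos m
    exact in_DD (cc_mem_BB m 1 (by omega) i hb) (zero_mem_BB m) (by linarith) (by linarith)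
  choose θ hθJ hθ _ using hlim
  have htele : ∀ m, f0 = ∑ i : Fin 4, ((1 : Lam) - tm i) • (∑ j ∈ range m, η i j) + F m := by
    intro m
    induction m with
    | zero => simp [F0]
    | succ m ih =>
      rw [ih, hη m]
      simp only [Finset.sum_range_succ, smul_add, Finset.sum_add_distrib]
      abel
  let P0 : X → A := PP e ht N (mu 0) f
  refine ⟨fun i => θ i + if i = 0 then P0 else 0, fun i => ?_, fun m y hy1 hy2 => ?_⟩
  · refine hJ.add _ _ (hθJ i) ?_
    split_ifs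
    · exact hJ.PP _ _ _ hf
    · exact hJ.zero
  · have hF : F m y = 0 := by
      by_contra h
      have h1 := hsupp m y h
      have hp := mu_pos m
      exact hy1 (in_DD (zero_mem_BB m) (zero_mem_BB m) (by linarith) (by linarith))
    have h3 : f y = (((1 : Lam) - tm 0) • PP e ht N (mu 0) f) y + f0 y := by
      conv_lhs => rw [e0]
      rfl
    have h4 : f0 y = ∑ i : Fin 4, (((1 : Lam) - tm i) • (∑ j ∈ range m, η i j)) y + F m y := by
      conv_lhs => rw [htele m]
      rw [Fn.add_apply, Fn.sum_apply]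
    have h5 : ∀ i : Fin 4, (((1 : Lam) - tm i) • (∑ j ∈ range m, η i j)) y = θ i y - θ i (y - e (mu i)) := by
      intro i
      rw [tm, one_sub_smul_apply, Fn.sum_apply, Fn.sum_apply, hθ i m y hy1, hθ i m (y - e (mu i))]
      rw [map_sub, hht]
      exact hy2 i
    rw [h3, h4, hF, add_zero, tm, one_sub_smul_apply]
    simp only [h5, Fin.sum_univ_four]
    change P0 y - P0 (y - e (mu 0)) + _ = _
    simp
    abel

end

end

end Pool.Agent.H92R3.Canc
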