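import Pool.Agent.H92R3.CxC

set_option autoImplicit false
set_option linter.unusedVariables false

namespace Pool.Agent.H92R3.Canc

open Finset

noncomputable section

variable {X A : Type*} [AddCommGroup X] [AddCommGroup A]

section

variable {e : ℝ →+ X} {ht : X →+ ℝ} {J : (X → A) → Prop}

/-- Lemma S. -/
theorem lemS (hht : ∀ s, ht (e s) = s) {μ a R : ℝ} (hμ : 0 < μ) (g : Fn e A)
    (hR : ∀ y, g y ≠ 0 → |ht y| ≤ R)
    (h : ∀ y, (((1 : Lam) - tt μ) • g) y ≠ 0 → 0 ≤ ht y ∧ ht y < a + μ) (y : X) (hy : g y ≠ 0) :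
    0 ≤ ht y ∧ ht y < a := by
  constructor
  · by_contra hc
    push Not at hc
    have key : ∀ n : ℕ, g (y - e (n * μ)) ≠ 0 := by
      intro n
      induction n with
      | zero => simpa using hy
      | succ n ih =>
        have h0 : ht (y - e (n * μ)) < 0 := by
          rw [map_sub, hht]
          have : 0 ≤ (n : ℝ) * μ := by positivity
          linarith
        have h1 : (((1 : Lam) - tt μ) • g) (y - e (n * μ)) = 0 := by
          by_contra hh
          linarith [(h _ hh).1]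
        rw [one_sub_smul_apply, sub_eq_zero] at h1
        rw [h1] at ih
        rw [sub_sub, ← map_add] at ih
        convert ih using 4
        push_cast
        ring
    obtain ⟨n, hn⟩ := exists_nat_gt (R / μ)
    have h2 := hR _ (key n)
    rw [map_sub, hht] at h2
    rw [div_lt_iff₀ hμ] at hn
    have := (abs_le.1 h2).1
    linarith
  · by_contra hc
    push Not at hc
    have key : ∀ n : ℕ, g (y + e (n * μ)) ≠ 0 := by
      intro n
      induction n with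
      | zero => simpa using hy
      | succ n ih =>
        have h0 : a + μ ≤ ht (y + e ((n + 1) * μ)) := by
          rw [map_add, hht]
          have : 0 ≤ (n : ℝ) * μ := by positivity
          linarith
        have h1 : (((1 : Lam) - tt μ) • g) (y + e ((n + 1) * μ)) = 0 := by
          by_contra hh
          linarith [(h _ hh).2]
        rw [one_sub_smul_apply, sub_eq_zero] at h1
        rw [add_sub_assoc, ← map_sub, show ((n : ℝ) + 1) * μ - μ = n * μ by ring] at h1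
        push_cast
        rw [h1]
        exact ih
    obtain ⟨n, hn⟩ := exists_nat_gt ((R - ht y) / μ)
    have h2 := hR _ (key n)
    rw [map_add, hht] at h2
    rw [div_lt_iff₀ hμ] at hn
    have := (abs_le.1 h2).2
    linarith

/-- functions with bounded `ht`-support -/
def HB (ht : X →+ ℝ) (f : X → A) : Prop := ∃ R : ℝ, ∀ y, f y ≠ 0 → |ht y| ≤ R

theorem HB.add {f g : X → A} (hf : HB ht f) (hg : HB ht g) : HB ht (f + g) := by
  obtain ⟨R, hR⟩ := hf
  obtain ⟨S, hS⟩ := hg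
  refine ⟨max R S, fun y hy => ?_⟩
  by_cases h : f y = 0
  · have : g y ≠ 0 := by
      intro h2
      apply hy
      simp [h, h2]
    exact (hS y this).trans (le_max_right _ _)
  · exact (hR y h).trans (le_max_left _ _)

theorem HB.smul (hht : ∀ s, ht (e s) = s) (c : Lam) {f : Fn e A} (hf : HB ht f) :
    HB ht (c • f : Fn e A) := by
  obtain ⟨R, hR⟩ := hf
  refine ⟨R + ∑ b ∈ c.coeff.support, |b|, fun y hy => ?_⟩
  obtain ⟨b, hb, hb2⟩ := supp_smul e _ _ y hy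
  have h1 := hR _ hb2
  rw [map_sub, hht] at h1
  have h2 : |b| ≤ ∑ b ∈ c.coeff.support, |b| := Finset.single_le_sum (f := fun b => |b|)
    (fun i _ => abs_nonneg i) hb
  calc |ht y| = |(ht y - b) + b| := by ring_nf
    _ ≤ |ht y - b| + |b| := abs_add_le _ _
    _ ≤ _ := by linarith

theorem HB.of (f : X → A) {b : ℝ} (h : ∀ y, f y ≠ 0 → 0 ≤ ht y ∧ ht y < b) : HB ht f :=
  ⟨b, fun y hy => by rw [abs_of_nonneg (h y hy).1]; exact (h y hy).2.le⟩

structure St (e : ℝ →+ X) (A : Type*) where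
  a : Fn e A
  b : Fn e A
  c : Fn e A
  d : Fn e A

/-- one step of the hierarchy -/
def step (ht : X →+ ℝ) (m : ℕ) (s : St e A) : St e A where
  a := s.b + ((1 : Lam) - tm m) • PP e ht 2 (mu (m + 1)) s.a
      + ((1 : Lam) - tm (m + 2)) • PP e ht 2 (mu (m + 1)) s.c
      + ((1 : Lam) - tm (m + 3)) • PP e ht 2 (mu (m + 1)) s.d
      + (tm (m + 4) * (1 + tm (m + 1))) • RR e ht 2 (mu (m + 1)) s.a
  b := RR e ht 2 (mu (m + 1)) s.c
  c := RR e ht 2 (mu (m + 1)) s.d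
  d := RR e ht 2 (mu (m + 1)) s.a

structure Inv (ht : X →+ ℝ) (J : (X → A) → Prop) (m : ℕ) (s : St e A) : Prop where
  sa : ∀ y, s.a y ≠ 0 → 0 ≤ ht y ∧ ht y < mu m
  sb : ∀ y, s.b y ≠ 0 → 0 ≤ ht y ∧ ht y < mu m
  sc : ∀ y, s.c y ≠ 0 → 0 ≤ ht y ∧ ht y < mu m
  sd : ∀ y, s.d y ≠ 0 → 0 ≤ ht y ∧ ht y < mu m
  ja : J s.a
  jb : J s.b
  jc : J s.c
  jd : J s.d
  cyc : ((1 : Lam) - tm m) • s.a + ((1 : Lam) - tm (m + 1)) • s.b + ((1 : Lam) - tm (m + 2)) • s.c
    + ((1 : Lam) - tm (m + 3)) • s.d = 0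

def UU (m : ℕ) (s : St e A) (i : Fin 4) : Fn e A :=
  cc m i • s.a + cc (m + 1) i • s.b + cc (m + 2) i • s.c + cc (m + 3) i • s.d

def W (ht : X →+ ℝ) (m : ℕ) (s : St e A) (i j : Fin 4) : Fn e A :=
  (cc m i * cc (m + 1) j - cc (m + 1) i * cc m j) •
      (PP e ht 2 (mu (m + 1)) s.a
        - (tt (- mu (m + 1)) + tt (- (2 * mu (m + 1)))) • RR e ht 2 (mu (m + 1)) s.a)
    + (cc (m + 2) i * cc (m + 1) j - cc (m + 1) i * cc (m + 2) j) • PP e ht 2 (mu (m + 1)) s.c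
    + (cc (m + 3) i * cc (m + 1) j - cc (m + 1) i * cc (m + 3) j) • PP e ht 2 (mu (m + 1)) s.d

theorem fold_stage (hht : ∀ s, ht (e s) = s) (m : ℕ) (f : Fn e A)
    (hf : ∀ y, f y ≠ 0 → 0 ≤ ht y ∧ ht y < mu m) :
    f = ((1 : Lam) - tm (m + 1)) • PP e ht 2 (mu (m + 1)) f + RR e ht 2 (mu (m + 1)) f := by
  refine fold_eq hht 2 (mu_pos (m + 1)) f fun y hy => ?_
  have h1 := hf y hy
  refine ⟨h1.1, h1.2.trans_le ?_⟩
  have := mu_lt_three m
  norm_num
  linarith

theorem step_cyc (hht : ∀ s, ht (e s) = s) (m : ℕ) (s : St e A) (h : Inv ht J m s) :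
    ((1 : Lam) - tm (m + 1)) • (step ht m s).a + ((1 : Lam) - tm (m + 2)) • (step ht m s).b
    + ((1 : Lam) - tm (m + 3)) • (step ht m s).c + ((1 : Lam) - tm (m + 4)) • (step ht m s).d = 0 := by
  have ha := fold_stage hht m s.a h.sa
  have hc := fold_stage hht m s.c h.sc
  have hd := fold_stage hht m s.d h.sd
  have hcyc := h.cyc
  have hr := tm_rec m
  simp only [step]
  set Pa := PP e ht 2 (mu (m + 1)) s.a
  set Pc := PP e ht 2 (mu (m + 1)) s.c
  set Pd := PP e ht 2 (mu (m + 1)) s.d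
  set Ra := RR e ht 2 (mu (m + 1)) s.a
  set Rc := RR e ht 2 (mu (m + 1)) s.c
  set Rd := RR e ht 2 (mu (m + 1)) s.d
  rw [ha, hc, hd, hr] at hcyc
  rw [hr, ← hcyc]
  module

theorem step_inv (hht : ∀ s, ht (e s) = s) (hJ : JC e ht J) (m : ℕ) (s : St e A) (h : Inv ht J m s) :
    Inv ht J (m + 1) (step ht m s) := by
  have hcyc := step_cyc hht m s h
  have hJa : J (step ht m s).a := by
    refine hJ.addF _ _ (hJ.addF _ _ (hJ.addF _ _ (hJ.addF _ _ h.jb ?_) ?_) ?_) ?_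
    · exact hJ.smul _ _ (hJ.PP _ _ _ h.ja)
    · exact hJ.smul _ _ (hJ.PP _ _ _ h.jc)
    · exact hJ.smul _ _ (hJ.PP _ _ _ h.jd)
    · exact hJ.smul _ _ (hJ.RR _ (mu_pos _) _ h.ja)
  have hHB : HB ht (step ht m s).a := by
    have b1 : HB ht s.b := HB.of _ h.sb
    have b2 : HB ht (PP e ht 2 (mu (m + 1)) s.a) := HB.of _ (PP_supp hht 2 (mu_pos _) _ h.sa)
    have b3 : HB ht (PP e ht 2 (mu (m + 1)) s.c) := HB.of _ (PP_supp hht 2 (mu_pos _) _ h.sc)
    have b4 : HB ht (PP e ht 2 (mu (m + 1)) s.d) := HB.of _ (PP_supp hht 2 (mu_pos _) _ h.sd)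
    have b5 : HB ht (RR e ht 2 (mu (m + 1)) s.a) := HB.of _ (RR_supp 2 _ _)
    exact ((((b1.add (b2.smul hht _)).add (b3.smul hht _)).add (b4.smul hht _)).add (b5.smul hht _))
  have sb : ∀ y, (step ht m s).b y ≠ 0 → 0 ≤ ht y ∧ ht y < mu (m + 1) := RR_supp 2 _ _
  have sc : ∀ y, (step ht m s).c y ≠ 0 → 0 ≤ ht y ∧ ht y < mu (m + 1) := RR_supp 2 _ _
  have sd : ∀ y, (step ht m s).d y ≠ 0 → 0 ≤ ht y ∧ ht y < mu (m + 1) := RR_supp 2 _ _
  refine ⟨?_, sb, sc, sd, hJa, hJ.RR _ (mu_pos _) _ h.jc, hJ.RR _ (mu_pos _) _ h.jd,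
    hJ.RR _ (mu_pos _) _ h.ja, hcyc⟩
  obtain ⟨R, hR⟩ := hHB
  refine lemS hht (mu_pos (m + 1)) _ hR ?_
  intro y hy
  have h1 : (((1 : Lam) - tm (m + 1)) • (step ht m s).a) y
      + (((1 : Lam) - tm (m + 2)) • (step ht m s).b) y + (((1 : Lam) - tm (m + 3)) • (step ht m s).c) y
      + (((1 : Lam) - tm (m + 4)) • (step ht m s).d) y = 0 := congrFun hcyc y
  have hp1 := mu_pos (m + 1)
  have hp2 := mu_pos (m + 2)
  have hp3 := mu_pos (m + 3)
  have hp4 := mu_pos (m + 4)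
  have ha2 : mu (m + 2) ≤ mu (m + 1) := mu_anti (m + 1)
  have ha3 : mu (m + 3) ≤ mu (m + 2) := mu_anti (m + 2)
  have ha4 : mu (m + 4) ≤ mu (m + 3) := mu_anti (m + 3)
  have gen : ∀ (k : ℕ) (g : Fn e A), 0 < mu k → mu k ≤ mu (m + 1) →
      (∀ y, g y ≠ 0 → 0 ≤ ht y ∧ ht y < mu (m + 1)) →
      ¬ (0 ≤ ht y ∧ ht y < mu (m + 1) + mu (m + 1)) → (((1 : Lam) - tm k) • g) y = 0 := by
    intro k g hk hk2 hg hn
    rw [tm, one_sub_smul_apply]
    have z1 : g y = 0 := by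
      by_contra h2
      have := hg _ h2
      exact hn ⟨this.1, by linarith⟩
    have z2 : g (y - e (mu k)) = 0 := by
      by_contra h2
      have := hg _ h2
      rw [map_sub, hht] at this
      exact hn ⟨by linarith, by linarith⟩
    rw [z1, z2, sub_zero]
  by_contra hn
  rw [gen (m + 2) _ hp2 ha2 sb hn, gen (m + 3) _ hp3 (ha3.trans ha2) sc hn,
    gen (m + 4) _ hp4 (ha4.trans (ha3.trans ha2)) sd hn, add_zero, add_zero, add_zero] at h1
  exact hy h1

theorem alt_sum (p q : ℕ) (i : Fin 4) :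
    ∑ j : Fin 4, ((1 : Lam) - tm j) * (cc p i * cc q j - cc q i * cc p j)
      = cc p i * (1 - tm q) - cc q i * (1 - tm p) := by
  rw [one_sub_tm q, one_sub_tm p, Finset.mul_sum, Finset.mul_sum, ← Finset.sum_sub_distrib]
  apply Finset.sum_congr rfl
  intro j _
  ring

theorem UU_diff (hht : ∀ s, ht (e s) = s) (m : ℕ) (s : St e A) (h : Inv ht J m s) (i : Fin 4) :
    UU m s i = ∑ j : Fin 4, ((1 : Lam) - tm j) • W ht m s i j + UU (m + 1) (step ht m s) i := by
  have ha := fold_stage hht m s.a h.sa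
  have hc := fold_stage hht m s.c h.sc
  have hd := fold_stage hht m s.d h.sd
  have hr := tm_rec m
  have hi := tinv (m + 1)
  have hW : ∑ j : Fin 4, ((1 : Lam) - tm j) • W ht m s i j =
      (cc m i * (1 - tm (m + 1)) - cc (m + 1) i * (1 - tm m)) •
      (PP e ht 2 (mu (m + 1)) s.a
        - (tt (- mu (m + 1)) + tt (- (2 * mu (m + 1)))) • RR e ht 2 (mu (m + 1)) s.a)
    + (cc (m + 2) i * (1 - tm (m + 1)) - cc (m + 1) i * (1 - tm (m + 2))) • PP e ht 2 (mu (m + 1)) s.c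
    + (cc (m + 3) i * (1 - tm (m + 1)) - cc (m + 1) i * (1 - tm (m + 3))) • PP e ht 2 (mu (m + 1)) s.d := by
    rw [← alt_sum m, ← alt_sum (m + 2), ← alt_sum (m + 3), Finset.sum_smul, Finset.sum_smul, Finset.sum_smul,
      ← Finset.sum_add_distrib, ← Finset.sum_add_distrib]
    apply Finset.sum_congr rfl
    intro j _
    simp only [W, smul_add, mul_smul]
  rw [hW]
  simp only [UU, step, tinv2]
  rw [show m + 1 + 1 = m + 2 from rfl, show m + 1 + 2 = m + 3 from rfl, show m + 1 + 3 = m + 4 from rfl,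
    cc_rec m i, tinv2]
  set Pa := PP e ht 2 (mu (m + 1)) s.a
  set Pc := PP e ht 2 (mu (m + 1)) s.c
  set Pd := PP e ht 2 (mu (m + 1)) s.d
  set Ra := RR e ht 2 (mu (m + 1)) s.a
  set Rc := RR e ht 2 (mu (m + 1)) s.c
  set Rd := RR e ht 2 (mu (m + 1)) s.d
  rw [ha, hc, hd, hr]
  set t := tm (m + 1)
  set s1 := tt (- mu (m + 1))
  set t4 := tm (m + 4)
  set c0 := cc m i
  set c1 := cc (m + 1) i
  have key : c0 - (c1 * (t4 * (1 + t)) + (-((s1 + s1 * s1) * c1) + s1 * s1 * c0))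
      + (c0 * (1 - t) - c1 * (1 - t * t * t4)) * (s1 + s1 * s1) = 0 := by
    linear_combination (- c0 * (1 + s1) + c1 * t4 * (t + (s1 * t + 1))) * hi
  linear_combination (norm := module) key • Ra

end

end

end Pool.Agent.H92R3.Canc
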