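import Pool.Agent.H92R3.CxD

set_option autoImplicit false
set_option linter.unusedVariables false

namespace Pool.Agent.H92R3.Canc

open Finset

noncomputable section

variable {X A : Type*} [AddCommGroup X] [AddCommGroup A]

section

variable {e : ℝ →+ X} {ht : X →+ ℝ} {J : (X → A) → Prop}

theorem W_J (hJ : JC e ht J) (m : ℕ) (s : St e A) (h : Inv ht J m s) (i j : Fin 4) : J (W ht m s i j) := by
  refine hJ.addF _ _ (hJ.addF _ _ ?_ ?_) ?_
  · exact hJ.smul _ _ (hJ.subF _ _ (hJ.PP _ _ _ h.ja) (hJ.smul _ _ (hJ.RR _ (mu_pos _) _ h.ja)))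
  · exact hJ.smul _ _ (hJ.PP _ _ _ h.jc)
  · exact hJ.smul _ _ (hJ.PP _ _ _ h.jd)

theorem W_alt (m : ℕ) (s : St e A) (i j : Fin 4) : W ht m s i j = - W ht m s j i := by
  simp only [W]
  module

theorem supp_prod_diff (m p q : ℕ) (hp : p < 4) (hq : q < 4) (i j : Fin 4) (g : Fn e A)
    (hht : ∀ s, ht (e s) = s) (hg : ∀ y, g y ≠ 0 → - (4 * mu m) ≤ ht y ∧ ht y ≤ 4 * mu m) (y : X)
    (hy : ((cc (m + p) i * cc (m + q) j - cc (m + q) i * cc (m + p) j) • g) y ≠ 0) : ht y ∈ DD m := by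
  rw [sub_smul, Fn.sub_apply, mul_smul, mul_smul] at hy
  by_cases h : (cc (m + p) i • cc (m + q) j • g) y = 0
  · rw [h, zero_sub, neg_ne_zero] at hy
    obtain ⟨b, hb, hb2⟩ := supp_smul e _ _ y hy
    obtain ⟨b', hb', hb3⟩ := supp_smul e _ _ _ hb2
    have := hg _ hb3
    rw [map_sub, map_sub, hht, hht] at this
    exact in_DD (cc_mem_BB m q hq i hb) (cc_mem_BB m p hp j hb') this.1 this.2
  · obtain ⟨b, hb, hb2⟩ := supp_smul e _ _ y h
    obtain ⟨b', hb', hb3⟩ := supp_smul e _ _ _ hb2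
    have := hg _ hb3
    rw [map_sub, map_sub, hht, hht] at this
    exact in_DD (cc_mem_BB m p hp i hb) (cc_mem_BB m q hq j hb') this.1 this.2

theorem W_supp (hht : ∀ s, ht (e s) = s) (m : ℕ) (s : St e A) (h : Inv ht J m s) (i j : Fin 4) (y : X)
    (hy : W ht m s i j y ≠ 0) : ht y ∈ DD m := by
  have hp := mu_pos m
  have hp1 := mu_pos (m + 1)
  have hh := mu_half m
  have hA : ∀ y, (PP e ht 2 (mu (m + 1)) s.a
        - (tt (- mu (m + 1)) + tt (- (2 * mu (m + 1)))) • RR e ht 2 (mu (m + 1)) s.a) y ≠ 0 →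
        - (4 * mu m) ≤ ht y ∧ ht y ≤ 4 * mu m := by
    intro y hy
    rw [Fn.sub_apply, add_smul, Fn.add_apply, tt_smul_apply, tt_smul_apply] at hy
    by_cases h1 : PP e ht 2 (mu (m + 1)) s.a y = 0
    · by_cases h2 : RR e ht 2 (mu (m + 1)) s.a (y - e (- mu (m + 1))) = 0
      · by_cases h3 : RR e ht 2 (mu (m + 1)) s.a (y - e (- (2 * mu (m + 1)))) = 0
        · rw [h1, h2, h3] at hy
          simp at hy
        · have := RR_supp 2 _ _ _ h3
          rw [map_sub, hht] at this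
          constructor <;> linarith
      · have := RR_supp 2 _ _ _ h2
        rw [map_sub, hht] at this
        constructor <;> linarith
    · have := PP_supp hht 2 (mu_pos _) _ h.sa _ h1
      constructor <;> linarith
  have hP : ∀ (g : Fn e A), (∀ y, g y ≠ 0 → 0 ≤ ht y ∧ ht y < mu m) → ∀ y, PP e ht 2 (mu (m + 1)) g y ≠ 0 →
        - (4 * mu m) ≤ ht y ∧ ht y ≤ 4 * mu m := by
    intro g hg y hy
    have := PP_supp hht 2 (mu_pos _) _ hg _ hy
    constructor <;> linarith
  by_contra hn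
  apply hy
  simp only [W, Fn.add_apply]
  have z1 := fun h' => hn (supp_prod_diff m 0 1 (by omega) (by omega) i j _ hht hA y h')
  rw [Nat.add_zero] at z1
  have z2 := fun h' => hn (supp_prod_diff m 2 1 (by omega) (by omega) i j _ hht (hP _ h.sc) y h')
  have z3 := fun h' => hn (supp_prod_diff m 3 1 (by omega) (by omega) i j _ hht (hP _ h.sd) y h')
  rw [not_not.1 z1, not_not.1 z2, not_not.1 z3, add_zero, add_zero]

theorem UU_supp (hht : ∀ s, ht (e s) = s) (m : ℕ) (s : St e A) (h : Inv ht J m s) (i : Fin 4) (y : X)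
    (hy : UU m s i y ≠ 0) : ht y ∈ DD m := by
  have hp := mu_pos m
  have gen : ∀ p : ℕ, p < 4 → ∀ (g : Fn e A), (∀ y, g y ≠ 0 → 0 ≤ ht y ∧ ht y < mu m) → ht y ∉ DD m →
      (cc (m + p) i • g) y = 0 := by
    intro p hp4 g hg hn
    by_contra h2
    obtain ⟨b, hb, hb2⟩ := supp_smul e _ _ y h2
    have := hg _ hb2
    rw [map_sub, hht] at this
    exact hn (in_DD (cc_mem_BB m p hp4 i hb) (zero_mem_BB m) (by linarith) (by linarith))
  by_contra hn
  apply hy
  simp only [UU, Fn.add_apply]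
  rw [gen 1 (by omega) _ h.sb hn, gen 2 (by omega) _ h.sc hn, gen 3 (by omega) _ h.sd hn]
  have := gen 0 (by omega) _ h.sa hn
  simp only [add_zero] at this ⊢
  exact this

/-- **vanishing of `H₁`** -/
theorem H1 (hht : ∀ s, ht (e s) = s) (hJ : JC e ht J) (u : Fin 4 → Fn e A) (hu : ∀ i, J (u i)) (N : ℕ)
    (hs : ∀ i y, u i y ≠ 0 → 0 ≤ ht y ∧ ht y < N + 1)
    (hc : ∑ i : Fin 4, ((1 : Lam) - tm i) • u i = 0) :
    ∃ w : Fin 4 → Fin 4 → X → A, (∀ i j, J (w i j)) ∧ (∀ i y, w i i y = 0) ∧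
      (∀ i j y, w i j y = - w j i y) ∧ ∀ i m y, ht y ∉ DD m → (∀ j : Fin 4, ht y - mu j ∉ DD m) →
      u i y = ∑ j, (w i j y - w i j (y - e (mu j))) := by
  have hmu0 : mu 0 = 1 := by simp [mu]
  have hP0 : ∀ i, u i = ((1 : Lam) - tm 0) • PP e ht N (mu 0) (u i) + RR e ht N (mu 0) (u i) := fun i =>
    fold_eq hht N (mu_pos 0) _ (by simpa [hmu0] using hs i)
  let s0 : St e A :=
    { a := u 0 + ((1 : Lam) - tm 1) • PP e ht N (mu 0) (u 1) + ((1 : Lam) - tm 2) • PP e ht N (mu 0) (u 2)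
        + ((1 : Lam) - tm 3) • PP e ht N (mu 0) (u 3)
      b := RR e ht N (mu 0) (u 1)
      c := RR e ht N (mu 0) (u 2)
      d := RR e ht N (mu 0) (u 3) }
  rw [Fin.sum_univ_four] at hc
  simp only [Fin.val_zero, Fin.val_one, Fin.val_two] at hc
  rw [show ((3 : Fin 4) : ℕ) = 3 from rfl] at hc
  have hcyc0 : ((1 : Lam) - tm 0) • s0.a + ((1 : Lam) - tm 1) • s0.b + ((1 : Lam) - tm 2) • s0.c
    + ((1 : Lam) - tm 3) • s0.d = 0 := by
    rw [hP0 1, hP0 2, hP0 3] at hc
    rw [← hc]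
    module
  have hsb : ∀ y, s0.b y ≠ 0 → 0 ≤ ht y ∧ ht y < mu 0 := RR_supp N _ _
  have hsc : ∀ y, s0.c y ≠ 0 → 0 ≤ ht y ∧ ht y < mu 0 := RR_supp N _ _
  have hsd : ∀ y, s0.d y ≠ 0 → 0 ≤ ht y ∧ ht y < mu 0 := RR_supp N _ _
  have hI0 : Inv ht J 0 s0 := by
    refine ⟨?_, hsb, hsc, hsd, ?_, hJ.RR _ (mu_pos _) _ (hu 1), hJ.RR _ (mu_pos _) _ (hu 2),
      hJ.RR _ (mu_pos _) _ (hu 3), hcyc0⟩
    · have hB : HB ht s0.a := by
        have bb : ∀ i, HB ht (u i) := fun i => HB.of _ (hs i)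
        have bp : ∀ i, HB ht (PP e ht N (mu 0) (u i)) := fun i => HB.of _ (PP_supp hht N (mu_pos _) _ (hs i))
        exact (((bb 0).add ((bp 1).smul hht _)).add ((bp 2).smul hht _)).add ((bp 3).smul hht _)
      obtain ⟨R, hR⟩ := hB
      refine lemS hht (mu_pos 0) _ hR ?_
      intro y hy
      have h1 : (((1 : Lam) - tm 0) • s0.a) y
          + (((1 : Lam) - tm 1) • s0.b) y + (((1 : Lam) - tm 2) • s0.c) y
          + (((1 : Lam) - tm 3) • s0.d) y = 0 := congrFun hcyc0 y
      have hp1 := mu_pos 1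
      have hp2 := mu_pos 2
      have hp3 := mu_pos 3
      have ha1 : mu 1 ≤ mu 0 := mu_anti 0
      have ha2 : mu 2 ≤ mu 1 := mu_anti 1
      have ha3 : mu 3 ≤ mu 2 := mu_anti 2
      have gen : ∀ (k : ℕ) (g : Fn e A), 0 < mu k → mu k ≤ mu 0 →
          (∀ y, g y ≠ 0 → 0 ≤ ht y ∧ ht y < mu 0) →
          ¬ (0 ≤ ht y ∧ ht y < mu 0 + mu 0) → (((1 : Lam) - tm k) • g) y = 0 := by
        intro k g hk hk2 hg hn
        rw [tm, one_sub_smul_apply]
        have z1 : g y = 0 := by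
          by_contra h2
          have := hg _ h2
          exact hn ⟨this.1, by linarith⟩
        have z2 : g (y - e (mu k)) = 0 := by
          by_contra h2
          have := hg _ h2
          rw [map_sub, hht] at this
          exact hn ⟨by linarith, by linarith⟩
        rw [z1, z2, sub_zero]
      by_contra hn
      rw [gen 1 _ hp1 ha1 hsb hn, gen 2 _ hp2 (ha2.trans ha1) hsc hn,
        gen 3 _ hp3 (ha3.trans (ha2.trans ha1)) hsd hn, add_zero, add_zero, add_zero] at h1
      exact hy h1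
    · refine hJ.addF _ _ (hJ.addF _ _ (hJ.addF _ _ (hu 0) ?_) ?_) ?_
      · exact hJ.smul _ _ (hJ.PP _ _ _ (hu 1))
      · exact hJ.smul _ _ (hJ.PP _ _ _ (hu 2))
      · exact hJ.smul _ _ (hJ.PP _ _ _ (hu 3))
  let S : ℕ → St e A := fun m => Nat.rec s0 (fun m s => step ht m s) m
  have hS : ∀ m, Inv ht J m (S m) := by
    intro m
    induction m with
    | zero => exact hI0
    | succ m ih => exact step_inv hht hJ m _ ih
  have hlim : ∀ i j, ∃ θ, J θ ∧ (∀ m y, ht y ∉ DD m → θ y = ∑ l ∈ range m, W ht l (S l) i j y) ∧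
      ∀ y, (∀ m, ht y ∈ DD m) → θ y = 0 := fun i j =>
    hJ.lim (fun l => W ht l (S l) i j) (fun m => W_J hJ m _ (hS m) i j)
      fun m y hy => W_supp hht m _ (hS m) i j y hy
  choose θ hθJ hθ hθ0 using hlim
  have htele : ∀ m i, UU 0 s0 i = ∑ j : Fin 4, ((1 : Lam) - tm j) • (∑ l ∈ range m, W ht l (S l) i j)
      + UU m (S m) i := by
    intro m i
    induction m with
    | zero => simp [S]
    | succ m ih =>
      rw [ih, UU_diff hht m _ (hS m)]
      simp only [Finset.sum_range_succ, smul_add, Finset.sum_add_distrib]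
      abel
  let P : Fin 4 → Fn e A := fun i => PP e ht N (mu 0) (u i)
  let w0 : Fin 4 → Fin 4 → Fn e A := fun i j =>
    if i = 0 then (if j = 0 then 0 else - P j) else (if j = 0 then P i else 0)
  have hw0 : ∀ i, u i = UU 0 s0 i + ∑ j : Fin 4, ((1 : Lam) - tm j) • w0 i j := by
    intro i
    fin_cases i
    · simp [Fin.sum_univ_four, UU, cc, w0, s0, P]
      abel
    · simp [UU, cc, w0, s0, P]
      exact (hP0 1).trans (add_comm _ _)
    · simp [UU, cc, w0, s0, P]
      exact (hP0 2).trans (add_comm _ _)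
    · simp [UU, cc, w0, s0, P]
      exact (hP0 3).trans (add_comm _ _)
  refine ⟨fun i j => (show Fn e A from θ i j) + w0 i j, fun i j => ?_, fun i y => ?_, fun i j y => ?_, fun i m y hy1 hy2 => ?_⟩
  · refine hJ.addF _ _ (hθJ i j) ?_
    simp only [w0]
    split_ifs
    · exact hJ.zero
    · exact hJ.neg _ (hJ.PP _ _ _ (hu j))
    · exact hJ.PP _ _ _ (hu i)
    · exact hJ.zero
  · have h1 : w0 i i y = 0 := by
      simp only [w0]
      split_ifs <;> rfl
    have h2 : θ i i y = 0 := by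
      by_cases hy : ∀ m, ht y ∈ DD m
      · exact hθ0 i i y hy
      · push Not at hy
        obtain ⟨m, hm⟩ := hy
        rw [hθ i i m y hm]
        apply Finset.sum_eq_zero
        intro l _
        have : W ht l (S l) i i = 0 := by
          simp only [W]
          module
        rw [this]
        rfl
    change θ i i y + w0 i i y = 0
    rw [h1, h2, add_zero]
  · have h1 : w0 i j y = - w0 j i y := by
      simp only [w0]
      split_ifs
      · simp [Fn.zero_apply]
      · rfl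
      · simp [Fn.neg_apply]
      · simp [Fn.zero_apply]
    have h2 : θ i j y = - θ j i y := by
      by_cases hy : ∀ m, ht y ∈ DD m
      · rw [hθ0 i j y hy, hθ0 j i y hy, neg_zero]
      · push Not at hy
        obtain ⟨m, hm⟩ := hy
        rw [hθ i j m y hm, hθ j i m y hm, ← Finset.sum_neg_distrib]
        apply Finset.sum_congr rfl
        intro l _
        rw [W_alt]
        rfl
    change θ i j y + w0 i j y = - (θ j i y + w0 j i y)
    rw [h1, h2]
    abel
  · have hF : UU m (S m) i y = 0 := by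
      by_contra h
      exact hy1 (UU_supp hht m _ (hS m) i y h)
    have h3 : u i y = UU 0 s0 i y + ∑ j : Fin 4, (((1 : Lam) - tm j) • w0 i j) y := by
      conv_lhs => rw [hw0 i]
      rw [Fn.add_apply, Fn.sum_apply]
    have h4 : UU 0 s0 i y = ∑ j : Fin 4, (((1 : Lam) - tm j) • (∑ l ∈ range m, W ht l (S l) i j)) y
        + UU m (S m) i y := by
      conv_lhs => rw [htele m i]
      rw [Fn.add_apply, Fn.sum_apply]
    have h5 : ∀ j : Fin 4, (((1 : Lam) - tm j) • (∑ l ∈ range m, W ht l (S l) i j)) y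
        = θ i j y - θ i j (y - e (mu j)) := by
      intro j
      rw [tm, one_sub_smul_apply, Fn.sum_apply, Fn.sum_apply, hθ i j m y hy1, hθ i j m (y - e (mu j))]
      rw [map_sub, hht]
      exact hy2 j
    have h6 : ∀ j : Fin 4, (((1 : Lam) - tm j) • w0 i j) y = w0 i j y - w0 i j (y - e (mu j)) := by
      intro j
      rw [tm, one_sub_smul_apply]
    rw [h3, h4, hF, add_zero]
    simp only [h5, h6]
    rw [← Finset.sum_add_distrib]
    apply Finset.sum_congr rfl
    intro j _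
    change _ = θ i j y + w0 i j y - (θ i j (y - e (mu j)) + w0 i j (y - e (mu j)))
    abel

end

end

end Pool.Agent.H92R3.Canc
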