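import Mathlib

set_option autoImplicit false
set_option linter.unusedVariables false

namespace Pool.Agent.H92R3.Canc

open MeasureTheory Set Filter Topology

abbrev E (n : ℕ) := EuclideanSpace ℝ (Fin n)

variable {n : ℕ}

theorem mp_iso (g : E n ≃ᵢ E n) : MeasurePreserving g volume volume := by
  have h1 : (g : E n → E n) = (fun x => x + g 0) ∘ (g.toRealAffineIsometryEquiv.linearIsometryEquiv) := by
    funext x
    have := g.toRealAffineIsometryEquiv.map_vadd 0 x
    simp at this
    simpa using this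
  rw [h1]
  exact (measurePreserving_add_right volume (g 0)).comp (LinearIsometryEquiv.measurePreserving _)

theorem ae_iso (g : E n ≃ᵢ E n) {p : E n → Prop} (h : ∀ᵐ x, p x) : ∀ᵐ x, p (g x) :=
  (mp_iso g).quasiMeasurePreserving.ae h

theorem ae_tr (v : E n) {p : E n → Prop} (h : ∀ᵐ x, p x) : ∀ᵐ x, p (x - v) := by
  have := ae_iso (IsometryEquiv.subRight v) h
  exact this

theorem null_coord (j : Fin n) {S : Set ℝ} (h : volume S = 0) : volume {x : E n | x j ∈ S} = 0 := by
  have h1 : Measure.QuasiMeasurePreserving (fun x : E n => x j) volume volume :=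
    (Measure.quasiMeasurePreserving_eval (fun _ : Fin n => (volume : Measure ℝ)) j).comp
      (PiLp.volume_preserving_ofLp (Fin n)).quasiMeasurePreserving
  exact h1.preimage_null h

/-- points where `f` is not locally constant -/
def disc {T : Type*} (f : E n → T) : Set (E n) := {x | ¬ ∀ᶠ y in 𝓝 x, f y = f x}

def ND {T : Type*} (f : E n → T) : Prop := volume (disc f) = 0

theorem not_disc {T : Type*} {f : E n → T} {x : E n} : x ∉ disc f ↔ ∀ᶠ y in 𝓝 x, f y = f x := by
  simp [disc]

theorem isClosed_disc {T : Type*} (f : E n → T) : IsClosed (disc f) := by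
  rw [← isOpen_compl_iff, isOpen_iff_eventually]
  intro x hx
  rw [mem_compl_iff, not_disc] at hx
  have h2 := eventually_eventually_nhds.2 hx
  filter_upwards [h2, hx] with y h3 h4
  rw [mem_compl_iff, not_disc]
  filter_upwards [h3] with z hz
  rw [hz, h4]

theorem ND.ae {T : Type*} {f : E n → T} (h : ND f) : ∀ᵐ x, ∀ᶠ y in 𝓝 x, f y = f x := by
  have : volume (disc f) = 0 := h
  rw [ae_iff]
  exact this

theorem ND.map {T U : Type*} {f : E n → T} (h : ND f) (φ : T → U) : ND (fun x => φ (f x)) := by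
  refine measure_mono_null (fun x hx => ?_) h
  by_contra hc
  apply hx
  filter_upwards [not_disc.1 hc] with y hy
  rw [hy]

theorem ND.pi {ι : Type*} [Finite ι] {T : Type*} {f : ι → E n → T} (h : ∀ i, ND (f i)) :
    ND (fun x i => f i x) := by
  have := Fintype.ofFinite ι
  have h1 : volume (⋃ i, disc (f i)) = 0 := measure_iUnion_null fun i => h i
  refine measure_mono_null (fun x hx => ?_) h1
  by_contra hc
  apply hx
  simp only [mem_iUnion, not_exists] at hc
  have : ∀ i, ∀ᶠ y in 𝓝 x, f i y = f i x := fun i => not_disc.1 (hc i)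
  filter_upwards [eventually_all.2 this] with y hy
  funext i
  exact hy i

theorem ND.prod {T U : Type*} {f : E n → T} {g : E n → U} (hf : ND f) (hg : ND g) :
    ND (fun x => (f x, g x)) := by
  refine measure_mono_null (fun x hx => ?_) (measure_union_null hf hg)
  by_contra hc
  apply hx
  rw [mem_union, not_or] at hc
  filter_upwards [not_disc.1 hc.1, not_disc.1 hc.2] with y h1 h2
  rw [h1, h2]

theorem ND.const {T : Type*} (c : T) : ND (fun _ : E n => c) := by
  have : disc (fun _ : E n => c) = ∅ := by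
    ext x
    simp [disc]
  rw [ND, this, measure_empty]

theorem ND.iso {T : Type*} {f : E n → T} (h : ND f) (g : E n ≃ᵢ E n) : ND (fun x => f (g x)) := by
  have h1 : volume (g ⁻¹' disc f) = 0 := (mp_iso g).quasiMeasurePreserving.preimage_null h
  refine measure_mono_null (fun x hx => ?_) h1
  by_contra hc
  apply hx
  have h2 := not_disc.1 hc
  exact g.continuous.continuousAt.eventually h2

theorem ND.set {S : Set (E n)} (h : volume (frontier S) = 0) : ND (fun x => x ∈ S) := by
  refine measure_mono_null (fun x hx => ?_) h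
  by_contra hc
  apply hx
  by_cases hxS : x ∈ S
  · have : x ∈ interior S := by
      by_contra h2
      exact hc ⟨subset_closure hxS, h2⟩
    filter_upwards [mem_interior_iff_mem_nhds.1 this] with y hy
    simp [hy, hxS]
  · have : x ∉ closure S := fun h2 => hc ⟨h2, fun h3 => hxS (interior_subset h3)⟩
    have h4 : (closure S)ᶜ ∈ 𝓝 x := isClosed_closure.isOpen_compl.mem_nhds this
    filter_upwards [h4] with y hy
    have : y ∉ S := fun h => hy (subset_closure h)
    simp [this, hxS]

/-! ### J-functions -/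

def JD {A : Type*} [Zero A] (f : E n → A) : Prop :=
  (∃ R : ℝ, ∀ x, f x ≠ 0 → ‖x‖ ≤ R) ∧ (range f).Finite ∧ ND f

def J {A : Type*} [Zero A] (f : E n → A) : Prop := ∃ f' : E n → A, JD f' ∧ f =ᵐ[volume] f'

theorem JD.toJ {A : Type*} [Zero A] {f : E n → A} (h : JD f) : J f := ⟨f, h, EventuallyEq.rfl⟩

theorem J.congr {A : Type*} [Zero A] {f g : E n → A} (h : J f) (hg : g =ᵐ[volume] f) : J g := by
  obtain ⟨f', h1, h2⟩ := h
  exact ⟨f', h1, hg.trans h2⟩

theorem JD.map {A B : Type*} [Zero A] [Zero B] {f : E n → A} (h : JD f) (φ : A → B) (h0 : φ 0 = 0) :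
    JD (fun x => φ (f x)) := by
  obtain ⟨⟨R, hR⟩, h2, h3⟩ := h
  refine ⟨⟨R, fun x hx => hR x ?_⟩, ?_, h3.map φ⟩
  · rintro h
    exact hx (by simp only [h, h0])
  · have : range (fun x => φ (f x)) = φ '' range f := by
      rw [← range_comp]; rfl
    rw [this]
    exact h2.image φ

theorem J.map {A B : Type*} [Zero A] [Zero B] {f : E n → A} (h : J f) (φ : A → B) (h0 : φ 0 = 0) :
    J (fun x => φ (f x)) := by
  obtain ⟨f', h1, h2⟩ := h
  refine ⟨_, h1.map φ h0, ?_⟩
  filter_upwards [h2] with x hx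
  rw [hx]

theorem JD.pi {ι : Type*} [Finite ι] {A : Type*} [Zero A] {f : ι → E n → A} (h : ∀ i, JD (f i)) :
    JD (fun x i => f i x) := by
  have := Fintype.ofFinite ι
  have hR : ∀ i, ∃ R : ℝ, ∀ x, f i x ≠ 0 → ‖x‖ ≤ R := fun i => (h i).1
  choose R hR using hR
  refine ⟨⟨∑ i, |R i|, fun x hx => ?_⟩, ?_, ND.pi fun i => (h i).2.2⟩
  · obtain ⟨i, hi⟩ := Function.ne_iff.1 hx
    exact ((hR i x hi).trans (le_abs_self _)).trans
      (Finset.single_le_sum (f := fun i => |R i|) (fun i _ => abs_nonneg _) (Finset.mem_univ i))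
  · have h1 : (Set.pi univ fun i => range (f i)).Finite := Set.Finite.pi fun i => (h i).2.1
    refine h1.subset ?_
    rintro _ ⟨x, rfl⟩ i _
    exact ⟨x, rfl⟩

theorem J.pi {ι : Type*} [Finite ι] {A : Type*} [Zero A] {f : ι → E n → A} (h : ∀ i, J (f i)) :
    J (fun x i => f i x) := by
  have := Fintype.ofFinite ι
  choose f' h1 h2 using h
  refine ⟨_, JD.pi h1, ?_⟩
  filter_upwards [eventually_countable_forall.2 h2] with x hx
  funext i
  exact hx i

theorem J.map₂ {A B C : Type*} [Zero A] [Zero B] [Zero C] {f : E n → A} {g : E n → B}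
    (hf : J f) (hg : J g) (φ : A → B → C) (h0 : φ 0 0 = 0) : J (fun x => φ (f x) (g x)) := by
  obtain ⟨f', ⟨⟨R, hR⟩, f2, f3⟩, h2⟩ := hf
  obtain ⟨g', ⟨⟨S, hS⟩, g2, g3⟩, k2⟩ := hg
  refine ⟨fun x => φ (f' x) (g' x), ⟨⟨max R S, fun x hx => ?_⟩, ?_, ?_⟩, ?_⟩
  · by_cases h : f' x = 0
    · have : g' x ≠ 0 := by
        intro h2
        apply hx
        simp only [h, h2, h0]
      exact (hS x this).trans (le_max_right _ _)
    · exact (hR x h).trans (le_max_left _ _)
  · refine (Set.Finite.image2 φ f2 g2).subset ?_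
    rintro _ ⟨x, rfl⟩
    exact ⟨_, ⟨x, rfl⟩, _, ⟨x, rfl⟩, rfl⟩
  · exact (f3.prod g3).map fun p => φ p.1 p.2
  · filter_upwards [h2, k2] with x a b
    rw [a, b]

theorem J.zero {A : Type*} [Zero A] : J (0 : E n → A) := by
  refine JD.toJ ⟨⟨0, fun x hx => absurd rfl hx⟩, ?_, ND.const 0⟩
  exact (Set.finite_singleton (0 : A)).subset (by rintro _ ⟨x, rfl⟩; rfl)

theorem J.add {A : Type*} [AddCommGroup A] {f g : E n → A} (hf : J f) (hg : J g) : J (f + g) :=
  hf.map₂ hg (fun a b => a + b) (add_zero 0)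

theorem J.sub {A : Type*} [AddCommGroup A] {f g : E n → A} (hf : J f) (hg : J g) : J (f - g) :=
  hf.map₂ hg (fun a b => a - b) (sub_zero 0)

theorem J.neg {A : Type*} [AddCommGroup A] {f : E n → A} (hf : J f) : J (-f) :=
  hf.map (fun a => - a) neg_zero

theorem J.sum {A : Type*} [AddCommGroup A] {ι : Type*} (s : Finset ι) {f : ι → E n → A}
    (h : ∀ i ∈ s, J (f i)) : J (∑ i ∈ s, f i) := by
  classical
  induction s using Finset.induction_on with
  | empty => simpa using J.zero
  | insert a s ha ih =>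
    rw [Finset.sum_insert ha]
    exact (h a (Finset.mem_insert_self _ _)).add (ih fun i hi => h i (Finset.mem_insert_of_mem hi))

theorem norm_iso_le (g : E n ≃ᵢ E n) (x : E n) : ‖x‖ ≤ ‖g x‖ + ‖g 0‖ := by
  have h1 : dist (g x) (g 0) = dist x 0 := g.dist_eq x 0
  rw [dist_zero_right, dist_eq_norm] at h1
  rw [← h1]
  exact norm_sub_le _ _

theorem JD.iso {A : Type*} [Zero A] {f : E n → A} (h : JD f) (g : E n ≃ᵢ E n) : JD (fun x => f (g x)) := by
  obtain ⟨⟨R, hR⟩, h2, h3⟩ := h
  refine ⟨⟨R + ‖g 0‖, fun x hx => ?_⟩, ?_, h3.iso g⟩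
  · have := hR _ hx
    have := norm_iso_le g x
    linarith
  · refine h2.subset ?_
    rintro _ ⟨x, rfl⟩
    exact ⟨g x, rfl⟩

theorem J.iso {A : Type*} [Zero A] {f : E n → A} (h : J f) (g : E n ≃ᵢ E n) : J (fun x => f (g x)) := by
  obtain ⟨f', h1, h2⟩ := h
  exact ⟨_, h1.iso g, ae_iso g h2⟩

theorem J.tr {A : Type*} [Zero A] {f : E n → A} (h : J f) (v : E n) : J (fun x => f (x - v)) :=
  h.iso (IsometryEquiv.subRight v)

theorem J.tr' {A : Type*} [Zero A] {f : E n → A} (h : J f) (v : E n) : J (fun x => f (x + v)) :=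
  h.iso (IsometryEquiv.addRight v)

open Classical in
theorem J.cut {A : Type*} [Zero A] {f : E n → A} (h : J f) {S : Set (E n)} (hS : volume (frontier S) = 0) :
    J (fun x => if x ∈ S then f x else 0) := by
  obtain ⟨f', ⟨⟨R, hR⟩, f2, f3⟩, h2⟩ := h
  refine ⟨fun x => if x ∈ S then f' x else 0, ⟨⟨R, fun x hx => hR x ?_⟩, ?_, ?_⟩, ?_⟩
  · rintro h
    apply hx
    simp [h]
  · refine ((f2.insert 0)).subset ?_
    rintro _ ⟨x, rfl⟩
    by_cases hx : x ∈ S
    · simp only [hx, if_true]
      exact Or.inr ⟨x, rfl⟩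
    · simp only [hx, if_false]
      exact Or.inl rfl
  · have := ((ND.set hS).prod f3).map fun p => if p.1 then p.2 else 0
    exact this
  · filter_upwards [h2] with x a
    rw [a]

/-- Normalised representative. -/
theorem J.norm {A : Type*} [Zero A] {f : E n → A} (h : J f) :
    ∃ f' : E n → A, JD f' ∧ f =ᵐ[volume] f' ∧
      ∀ F : Set (E n), IsClosed F → (∀ x ∉ F, f x = 0) → ∀ x ∉ F, f' x = 0 := by
  classical
  obtain ⟨f1, ⟨⟨R, hR⟩, f2, f3⟩, h2⟩ := h
  have hae : (fun x => if x ∈ disc f1 then 0 else f1 x) =ᵐ[volume] f1 := by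
    have := f3.ae
    filter_upwards [this] with x hx
    rw [if_neg (not_disc.2 hx)]
  have hopen : ∀ x, x ∉ disc f1 → ∀ᶠ y in 𝓝 x, y ∉ disc f1 := fun x hx =>
    (isClosed_disc f1).isOpen_compl.mem_nhds hx
  refine ⟨fun x => if x ∈ disc f1 then 0 else f1 x, ⟨⟨R, fun x hx => ?_⟩, ?_, ?_⟩, h2.trans hae.symm, ?_⟩
  · by_cases h : x ∈ disc f1
    · simp [h] at hx
    · simp only [h, if_false] at hx
      exact hR x hx
  · refine ((f2.insert 0)).subset ?_
    rintro _ ⟨x, rfl⟩
    by_cases hx : x ∈ disc f1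
    · simp only [hx, if_true]
      exact Or.inl rfl
    · simp only [hx, if_false]
      exact Or.inr ⟨x, rfl⟩
  · refine measure_mono_null (fun x hx => ?_) f3
    by_contra hc
    apply hx
    filter_upwards [hopen x hc, not_disc.1 hc] with y h1 h2
    simp only [h1, hc, if_false, h2]
  · intro F hF hz x hx
    by_cases h : x ∈ disc f1
    · simp [h]
    · simp only [h, if_false]
      by_contra hne
      have hU : {y | f1 y = f1 x ∧ y ∉ F} ∈ 𝓝 x := by
        filter_upwards [not_disc.1 h, hF.isOpen_compl.mem_nhds hx] with y a b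
        exact ⟨a, b⟩
      have hpos : 0 < volume {y | f1 y = f1 x ∧ y ∉ F} := MeasureTheory.Measure.measure_pos_of_mem_nhds volume hU
      have hnull : volume {y | f1 y = f1 x ∧ y ∉ F} = 0 := by
        have h3 : volume {y | ¬ f y = f1 y} = 0 := h2
        refine measure_mono_null (fun y hy => ?_) h3
        intro h4
        rw [hz y hy.2, hy.1] at h4
        exact hne h4.symm
      exact hpos.ne' hnull

end Pool.Agent.H92R3.Canc
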