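import Pool.Agent.H92R3.CxE
import Pool.Agent.H92R3.CxF

set_option autoImplicit false
set_option linter.unusedVariables false

namespace Pool.Agent.H92R3.Canc

open MeasureTheory Set Filter Topology

noncomputable section

variable {n : ℕ}

def ee (j0 : Fin n) : ℝ →+ E n where
  toFun s := EuclideanSpace.single j0 s
  map_zero' := by simp
  map_add' a b := by
    ext i
    by_cases h : i = j0
    · subst h; simp
    · simp [h]

def hh (j0 : Fin n) : E n →+ ℝ where
  toFun x := x j0
  map_zero' := rfl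
  map_add' a b := rfl

theorem hh_ee (j0 : Fin n) (s : ℝ) : hh j0 (ee j0 s) = s := by
  change (EuclideanSpace.single j0 s : E n) j0 = s
  simp

theorem hh_apply (j0 : Fin n) (x : E n) : hh j0 x = x j0 := rfl

theorem continuous_hh (j0 : Fin n) : Continuous (hh j0) := by
  change Continuous fun x : E n => x j0
  fun_prop

theorem continuous_ee (j0 : Fin n) : Continuous (ee j0) := by
  have : (ee j0 : ℝ → E n) = fun s => s • EuclideanSpace.single j0 1 := by
    funext s
    ext i
    by_cases h : i = j0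
    · subst h; simp [ee]
    · simp [ee, h]
  rw [this]
  fun_prop

theorem norm_ee (j0 : Fin n) (s : ℝ) : ‖ee j0 s‖ = |s| := by
  simp [ee]

theorem proj_shift (j0 : Fin n) (y : E n) (s : ℝ) :
    (y - ee j0 s) - ee j0 (hh j0 (y - ee j0 s)) = y - ee j0 (hh j0 y) := by
  rw [map_sub, map_sub, hh_ee]
  abel

def JK {A : Type*} [Zero A] (j0 : Fin n) (R : ℝ) (f : E n → A) : Prop :=
  J f ∧ ∀ y, f y ≠ 0 → ‖y - ee j0 (hh j0 y)‖ ≤ R

theorem JC_JK {A : Type*} [AddCommGroup A] [Finite A] (j0 : Fin n) (R : ℝ) :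
    JC (ee j0) (hh j0) (JK (A := A) j0 R) where
  zero := ⟨J.zero, fun y hy => absurd rfl hy⟩
  add f g hf hg := by
    refine ⟨hf.1.add hg.1, fun y hy => ?_⟩
    by_cases h : f y = 0
    · refine hg.2 y fun h2 => hy ?_
      simp [h, h2]
    · exact hf.2 y h
  neg f hf := ⟨hf.1.neg, fun y hy => hf.2 y fun h => hy (by simp [h])⟩
  tr s f hf := by
    refine ⟨hf.1.tr _, fun y hy => ?_⟩
    have := hf.2 _ hy
    rwa [proj_shift] at this
  cut a f hf := by
    classical
    have h1 : volume (frontier {x : E n | a ≤ hh j0 x}) = 0 := by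
      refine measure_mono_null (frontier_le_subset_eq continuous_const (continuous_hh j0)) ?_
      have := null_coord (n := n) j0 (S := {a}) (by simp)
      refine measure_mono_null (fun x hx => ?_) this
      simp only [mem_ofPred_eq, hh_apply] at hx
      simp [hx]
    refine ⟨?_, fun y hy => ?_⟩
    · have := hf.1.cut h1
      simp only [mem_ofPred_eq] at this
      convert this
    · by_cases h : a ≤ hh j0 y
      · simp only [h, if_true] at hy
        exact hf.2 y hy
      · simp [h] at hy
  lim η hη hsupp := by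
    classical
    have hN : ∀ m, ∃ f' : E n → A, JD f' ∧ η m =ᵐ[volume] f' ∧
      ∀ F : Set (E n), IsClosed F → (∀ x ∉ F, η m x = 0) → ∀ x ∉ F, f' x = 0 := fun m => (hη m).1.norm
    choose η' hJD hae hF using hN
    let Θ : (ℕ → E n → A) → E n → A := fun ζ y =>
      if h : ∃ m, hh j0 y ∉ DD m then ∑ i ∈ Finset.range (Nat.find h), ζ i y else 0
    have hΘ0 : ∀ ζ y, (∀ m, hh j0 y ∈ DD m) → Θ ζ y = 0 := by
      intro ζ y hy
      simp only [Θ]
      rw [dif_neg]
      push Not
      exact hy
    have hΘ : ∀ ζ : ℕ → E n → A, (∀ m y, ζ m y ≠ 0 → hh j0 y ∈ DD m) → ∀ m y, hh j0 y ∉ DD m →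
        Θ ζ y = ∑ i ∈ Finset.range m, ζ i y := by
      intro ζ hζ m y hy
      have hex : ∃ m, hh j0 y ∉ DD m := ⟨m, hy⟩
      simp only [Θ]
      rw [dif_pos hex]
      apply Finset.sum_subset
      · exact Finset.range_mono (Nat.find_le hy)
      · intro i hi hni
        rw [Finset.mem_range, not_lt] at hni
        by_contra h
        exact Nat.find_spec hex (DD_anti hni (hζ i y h))
    have hsupp' : ∀ m y, η' m y ≠ 0 → hh j0 y ∈ DD m := by
      intro m y hy
      by_contra hc
      exact hy (hF m {y | hh j0 y ∈ DD m} ((isClosed_DD m).preimage (continuous_hh j0))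
        (fun x hx => by
          by_contra h
          exact hx (hsupp m x h)) y hc)
    have hK' : ∀ m y, η' m y ≠ 0 → ‖y - ee j0 (hh j0 y)‖ ≤ R := by
      intro m y hy
      by_contra hc
      refine hy (hF m {y | ‖y - ee j0 (hh j0 y)‖ ≤ R} ?_ (fun x hx => ?_) y hc)
      · refine isClosed_le ?_ continuous_const
        exact (continuous_id.sub ((continuous_ee j0).comp (continuous_hh j0))).norm
      · by_contra h
        exact hx ((hη m).2 x h)
    have hex_ne : ∀ ζ y, Θ ζ y ≠ 0 → ∃ i, ζ i y ≠ 0 := by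
      intro ζ y h
      simp only [Θ] at h
      by_cases hh' : ∃ m, hh j0 y ∉ DD m
      · rw [dif_pos hh'] at h
        obtain ⟨i, _, hi⟩ := Finset.exists_ne_zero_of_sum_ne_zero h
        exact ⟨i, hi⟩
      · rw [dif_neg hh'] at h
        exact absurd rfl h
    have hJDΘ : JD (Θ η') := by
      obtain ⟨C, hC⟩ := DD_bdd.exists_norm_le
      refine ⟨⟨R + C, fun y hy => ?_⟩, Set.toFinite _, ?_⟩
      · obtain ⟨i, hi⟩ := hex_ne _ _ hy
        have h1 := hK' i y hi
        have h2 := hC _ (DD_anti (Nat.zero_le i) (hsupp' i y hi))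
        calc ‖y‖ = ‖(y - ee j0 (hh j0 y)) + ee j0 (hh j0 y)‖ := by rw [sub_add_cancel]
          _ ≤ ‖y - ee j0 (hh j0 y)‖ + ‖ee j0 (hh j0 y)‖ := norm_add_le _ _
          _ ≤ R + C := add_le_add h1 (by rw [norm_ee]; exact h2)
      · have hnull : volume ({y : E n | y j0 ∈ ⋂ m, DD m} ∪ ⋃ m, disc (η' m)) = 0 :=
          measure_union_null (null_coord j0 vol_DDinf) (measure_iUnion_null fun m => (hJD m).2.2)
        refine measure_mono_null (fun y hy => ?_) hnull
        by_contra hc
        rw [mem_union, not_or] at hc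
        obtain ⟨hc1, hc2⟩ := hc
        simp only [mem_ofPred_eq, mem_iInter, not_forall] at hc1
        obtain ⟨m, hm⟩ := hc1
        simp only [mem_iUnion, not_exists] at hc2
        apply hy
        have h1 : ∀ᶠ z in 𝓝 y, hh j0 z ∉ DD m :=
          ((isClosed_DD m).preimage (continuous_hh j0)).isOpen_compl.mem_nhds hm
        have h2 : ∀ᶠ z in 𝓝 y, ∀ i ∈ Finset.range m, η' i z = η' i y :=
          (Finset.eventually_all _).2 fun i _ => not_disc.1 (hc2 i)
        filter_upwards [h1, h2] with z a b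
        rw [hΘ η' hsupp' m z a, hΘ η' hsupp' m y hm]
        exact Finset.sum_congr rfl b
    refine ⟨Θ η, ⟨⟨Θ η', hJDΘ, ?_⟩, fun y hy => ?_⟩, hΘ η hsupp, hΘ0 η⟩
    · filter_upwards [eventually_countable_forall.2 hae] with y hy
      simp only [Θ, hy]
    · obtain ⟨i, hi⟩ := hex_ne _ _ hy
      exact (hη i).2 y hi

end

end Pool.Agent.H92R3.Canc
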