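import Pool.Agent.H92R3.CxG

set_option autoImplicit false
set_option linter.unusedVariables false

namespace Pool.Agent.H92R3.Canc

open MeasureTheory Set Filter Topology

noncomputable section

variable {n : ℕ}

theorem good_ae (j0 : Fin n) : ∀ᵐ y : E n, ∃ m, hh j0 y ∉ DD m ∧ ∀ i : Fin 4, hh j0 y - mu i ∉ DD m := by
  have h0 : ∀ᵐ y : E n, y j0 ∉ ⋂ m, DD m := by
    rw [ae_iff]
    simp only [not_not]
    exact null_coord j0 vol_DDinf
  have h1 : ∀ i : Fin 4, ∀ᵐ y : E n, (y - ee j0 (mu i)) j0 ∉ ⋂ m, DD m := fun i =>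
    ae_tr _ h0
  filter_upwards [h0, eventually_countable_forall.2 h1] with y a b
  have a' : ∃ m, hh j0 y ∉ DD m := by
    simpa [hh_apply] using a
  have b' : ∀ i : Fin 4, ∃ m, hh j0 y - mu i ∉ DD m := by
    intro i
    have := b i
    rw [← hh_apply, map_sub, hh_ee] at this
    simpa using this
  obtain ⟨m0, hm0⟩ := a'
  choose m1 hm1 using b'
  refine ⟨m0 + ∑ i, m1 i, fun h => hm0 (DD_anti (Nat.le_add_right _ _) h), fun i h => hm1 i (DD_anti ?_ h)⟩
  exact (Finset.single_le_sum (f := m1) (fun i _ => Nat.zero_le _) (Finset.mem_univ i)).trans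
    (Nat.le_add_left _ _)

theorem abs_hh_le (j0 : Fin n) (y : E n) : |hh j0 y| ≤ ‖y‖ := by
  rw [hh_apply, ← Real.norm_eq_abs]
  exact PiLp.norm_apply_le y j0

theorem proj_le (j0 : Fin n) (y : E n) : ‖y - ee j0 (hh j0 y)‖ ≤ 2 * ‖y‖ := by
  have h1 := norm_sub_le y (ee j0 (hh j0 y))
  rw [norm_ee] at h1
  have := abs_hh_le j0 y
  linarith

theorem H0c {A : Type*} [AddCommGroup A] [Finite A] (j0 : Fin n) (f : E n → A) (hf : J f) :
    ∃ θ : Fin 4 → E n → A, (∀ i, J (θ i)) ∧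
      ∀ᵐ x, f x = ∑ i, (θ i x - θ i (x - ee j0 (mu i))) := by
  obtain ⟨f', hf', hae⟩ := hf
  obtain ⟨⟨R, hR⟩, -, -⟩ := id hf'
  obtain ⟨L, hL⟩ := exists_nat_gt R
  have hsup : ∀ y, f' (y - ee j0 L) ≠ 0 → 0 ≤ hh j0 y ∧ hh j0 y < (2 * L : ℕ) + 1 := by
    intro y hy
    have h1 := (abs_hh_le j0 _).trans (hR _ hy)
    rw [map_sub, hh_ee, abs_le] at h1
    push_cast
    constructor <;> linarith
  have hJK : JK j0 (2 * R) (fun y => f' (y - ee j0 L)) := by
    refine ⟨hf'.toJ.tr _, fun y hy => ?_⟩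
    have h1 := proj_le j0 (y - ee j0 L)
    rw [proj_shift] at h1
    have := hR _ hy
    linarith
  obtain ⟨θ, hθ, h⟩ := H0 (hh_ee j0) (JC_JK j0 (2 * R)) (fun y => f' (y - ee j0 L)) hJK (2 * L) hsup
  refine ⟨fun i x => θ i (x + ee j0 L), fun i => (hθ i).1.tr' _, ?_⟩
  have hgood : ∀ᵐ x : E n, ∃ m, hh j0 (x + ee j0 L) ∉ DD m ∧ ∀ i : Fin 4, hh j0 (x + ee j0 L) - mu i ∉ DD m :=
    ae_iso (IsometryEquiv.addRight (ee j0 L)) (good_ae j0)
  filter_upwards [hae, hgood] with x hx hg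
  obtain ⟨m, h1, h2⟩ := hg
  have := h m _ h1 h2
  rw [add_sub_cancel_right] at this
  rw [hx, this]
  apply Finset.sum_congr rfl
  intro i _
  rw [sub_add_eq_add_sub]

theorem H1c {A : Type*} [AddCommGroup A] [Finite A] (j0 : Fin n) (u : Fin 4 → E n → A) (hu : ∀ i, J (u i))
    (hc : ∀ᵐ x, ∑ i, (u i x - u i (x - ee j0 (mu i))) = 0) :
    ∃ w : Fin 4 → Fin 4 → E n → A, (∀ i j, J (w i j)) ∧ (∀ i x, w i i x = 0) ∧
      (∀ i j x, w i j x = - w j i x) ∧
      ∀ᵐ x, ∀ i, u i x = ∑ j, (w i j x - w i j (x - ee j0 (mu j))) := by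
  classical
  choose u' hu' hae using hu
  have hR : ∀ i, ∃ R : ℝ, ∀ x, u' i x ≠ 0 → ‖x‖ ≤ R := fun i => (hu' i).1
  choose R0 hR0 using hR
  set R : ℝ := ∑ i, |R0 i| with hRdef
  have hR : ∀ i x, u' i x ≠ 0 → ‖x‖ ≤ R := fun i x hx => ((hR0 i x hx).trans (le_abs_self _)).trans
      (Finset.single_le_sum (f := fun i => |R0 i|) (fun i _ => abs_nonneg _) (Finset.mem_univ i))
  have hc' : ∀ᵐ x, ∑ i, (u' i x - u' i (x - ee j0 (mu i))) = 0 := by
    have h1 : ∀ i : Fin 4, ∀ᵐ x, u i (x - ee j0 (mu i)) = u' i (x - ee j0 (mu i)) := fun i => ae_tr _ (hae i)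
    filter_upwards [hc, eventually_countable_forall.2 hae, eventually_countable_forall.2 h1] with x a b c
    rw [← a]
    apply Finset.sum_congr rfl
    intro i _
    rw [b, c]
  -- the invariant null set
  have hN : ∀ᵐ x : E n, ∀ c : Fin 4 → ℤ,
      ∑ i, (u' i (x + ee j0 (∑ l, c l * mu l)) - u' i (x + ee j0 (∑ l, c l * mu l) - ee j0 (mu i))) = 0 :=
    eventually_countable_forall.2 fun c => ae_iso (IsometryEquiv.addRight (ee j0 (∑ l, c l * mu l))) hc'
  let Gd : E n → Prop := fun x => ∀ c : Fin 4 → ℤ,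
      ∑ i, (u' i (x + ee j0 (∑ l, c l * mu l)) - u' i (x + ee j0 (∑ l, c l * mu l) - ee j0 (mu i))) = 0
  have hinv : ∀ x (i : Fin 4), Gd (x - ee j0 (mu i)) ↔ Gd x := by
    intro x i
    have key : ∀ (x : E n) (i : Fin 4) (ε : ℤ), Gd x → Gd (x + ee j0 (ε * mu i)) := by
      intro x i ε hx c
      let c' : Fin 4 → ℤ := c + Pi.single i ε
      have h1 := hx c'
      have h2 : x + ee j0 (∑ l, c' l * mu l) = x + ee j0 (ε * mu i) + ee j0 (∑ l, c l * mu l) := by
        rw [add_assoc, ← map_add]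
        congr 2
        simp only [c', Pi.add_apply, Int.cast_add, add_mul, Finset.sum_add_distrib]
        rw [add_comm]
        congr 1
        rw [Finset.sum_eq_single i]
        · simp
        · intro b _ hb
          simp [Pi.single_eq_of_ne hb]
        · simp
      rw [h2] at h1
      exact h1
    constructor
    · intro h
      have := key _ i 1 h
      simpa using this
    · intro h
      have := key _ i (-1) h
      simpa [sub_eq_add_neg] using this
  let v : Fin 4 → E n → A := fun i x => if Gd x then u' i x else 0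
  have hvae : ∀ i, v i =ᵐ[volume] u' i := by
    intro i
    filter_upwards [hN] with x hx
    simp only [v]
    rw [if_pos hx]
  have hvcyc : ∀ x, ∑ i, (v i x - v i (x - ee j0 (mu i))) = 0 := by
    intro x
    by_cases hx : Gd x
    · have h2 := hx 0
      simp only [Pi.zero_apply, Int.cast_zero, zero_mul, Finset.sum_const_zero, map_zero, add_zero] at h2
      rw [← h2]
      apply Finset.sum_congr rfl
      intro i _
      simp only [v]
      rw [if_pos hx, if_pos ((hinv x i).2 hx)]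
    · apply Finset.sum_eq_zero
      intro i _
      simp only [v]
      rw [if_neg hx, if_neg (fun h => hx ((hinv x i).1 h)), sub_zero]
  have hvR : ∀ i x, v i x ≠ 0 → ‖x‖ ≤ R := by
    intro i x hx
    refine hR i x fun h => hx ?_
    simp only [v, h, ite_self]
  obtain ⟨L, hL⟩ := exists_nat_gt R
  have hsup : ∀ i y, v i (y - ee j0 L) ≠ 0 → 0 ≤ hh j0 y ∧ hh j0 y < (2 * L : ℕ) + 1 := by
    intro i y hy
    have h1 := (abs_hh_le j0 _).trans (hvR _ _ hy)
    rw [map_sub, hh_ee, abs_le] at h1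
    push_cast
    constructor <;> linarith
  have hJK : ∀ i, JK j0 (2 * R) (fun y => v i (y - ee j0 L)) := by
    intro i
    refine ⟨((hu' i).toJ.congr (hvae i)).tr _, fun y hy => ?_⟩
    have h1 := proj_le j0 (y - ee j0 L)
    rw [proj_shift] at h1
    have := hvR _ _ hy
    linarith
  obtain ⟨w, hw, hw0, hwa, h⟩ := H1 (hh_ee j0) (JC_JK j0 (2 * R)) (fun i y => v i (y - ee j0 L)) hJK (2 * L)
    hsup (by
      funext y
      rw [Fn.sum_apply]
      rw [Fn.zero_apply]
      rw [← hvcyc (y - ee j0 L)]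
      apply Finset.sum_congr rfl
      intro i _
      refine (one_sub_smul_apply (e := ee j0) (mu i) (fun y => v i (y - ee j0 L)) y).trans ?_
      simp only [sub_right_comm])
  refine ⟨fun i j x => w i j (x + ee j0 L), fun i j => (hw i j).1.tr' _, fun i x => hw0 i _,
    fun i j x => hwa i j _, ?_⟩
  have hgood : ∀ᵐ x : E n, ∃ m, hh j0 (x + ee j0 L) ∉ DD m ∧ ∀ i : Fin 4, hh j0 (x + ee j0 L) - mu i ∉ DD m :=
    ae_iso (IsometryEquiv.addRight (ee j0 L)) (good_ae j0)
  filter_upwards [eventually_countable_forall.2 hae, eventually_countable_forall.2 hvae, hgood] with x hx hv hg i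
  obtain ⟨m, h1, h2⟩ := hg
  have := h i m _ h1 h2
  rw [add_sub_cancel_right] at this
  rw [hx, ← hv, this]
  apply Finset.sum_congr rfl
  intro j _
  rw [sub_add_eq_add_sub]

end

end Pool.Agent.H92R3.Canc
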