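import Pool.Agent.H92R3.CxH

set_option autoImplicit false
set_option linter.unusedVariables false

namespace Pool.Agent.H92R3.Canc

open MeasureTheory Set Filter Topology

noncomputable section

variable {n : ℕ}

/-- coboundaries for the translation action -/
def Cob (f : E n → ℤ) : Prop := ∃ (ι : Type) (_ : Fintype ι) (h : ι → E n → ℤ) (v : ι → E n),
  (∀ i, J (h i)) ∧ ∀ᵐ x, f x = ∑ i, (h i x - h i (x - v i))

theorem Cob.congr {f g : E n → ℤ} (h : Cob f) (hg : ∀ᵐ x, g x = f x) : Cob g := by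
  obtain ⟨ι, _, u, v, h1, h2⟩ := h
  refine ⟨ι, inferInstance, u, v, h1, ?_⟩
  filter_upwards [h2, hg] with x a b
  rw [b, a]

theorem Cob.zero : Cob (0 : E n → ℤ) :=
  ⟨Empty, inferInstance, fun i => i.elim, fun i => i.elim, fun i => i.elim, by simp⟩

theorem Cob.add {f g : E n → ℤ} (hf : Cob f) (hg : Cob g) : Cob (fun x => f x + g x) := by
  obtain ⟨ι, _, u, v, h1, h2⟩ := hf
  obtain ⟨κ, _, u', v', h1', h2'⟩ := hg
  refine ⟨ι ⊕ κ, inferInstance, Sum.elim u u', Sum.elim v v', ?_, ?_⟩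
  · rintro (i | i)
    · exact h1 i
    · exact h1' i
  · filter_upwards [h2, h2'] with x a b
    rw [Fintype.sum_sum_type, a, b]
    rfl

theorem Cob.neg {f : E n → ℤ} (hf : Cob f) : Cob (fun x => - f x) := by
  obtain ⟨ι, _, u, v, h1, h2⟩ := hf
  refine ⟨ι, inferInstance, fun i => - u i, v, fun i => (h1 i).neg, ?_⟩
  filter_upwards [h2] with x a
  rw [a, ← Finset.sum_neg_distrib]
  apply Finset.sum_congr rfl
  intro i _
  simp only [Pi.neg_apply]
  ring

theorem Cob.sub {f g : E n → ℤ} (hf : Cob f) (hg : Cob g) : Cob (fun x => f x - g x) := by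
  refine (hf.add hg.neg).congr (Eventually.of_forall fun x => ?_)
  ring

theorem Cob.sum {ι : Type*} (s : Finset ι) {f : ι → E n → ℤ} (h : ∀ i ∈ s, Cob (f i)) :
    Cob (fun x => ∑ i ∈ s, f i x) := by
  classical
  induction s using Finset.induction_on with
  | empty =>
    simp only [Finset.sum_empty]
    exact Cob.zero
  | insert a s ha ih =>
    simp only [Finset.sum_insert ha]
    exact (h a (Finset.mem_insert_self _ _)).add (ih fun i hi => h i (Finset.mem_insert_of_mem hi))

theorem Cob.gen {h : E n → ℤ} (hh : J h) (v : E n) : Cob (fun x => h x - h (x - v)) :=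
  ⟨Unit, inferInstance, fun _ => h, fun _ => v, fun _ => hh, by simp⟩

theorem iso_sub (g : E n ≃ᵢ E n) (v : E n) : ∃ v', ∀ x, g (x - v') = g x - v := by
  refine ⟨g.toRealAffineIsometryEquiv.linearIsometryEquiv.symm v, fun x => ?_⟩
  have := g.toRealAffineIsometryEquiv.map_vadd x (-(g.toRealAffineIsometryEquiv.linearIsometryEquiv.symm v))
  simp only [map_neg, LinearIsometryEquiv.apply_symm_apply, vadd_eq_add] at this
  have h2 : g (-(g.toRealAffineIsometryEquiv.linearIsometryEquiv.symm v) + x) = - v + g x := this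
  rw [neg_add_eq_sub, neg_add_eq_sub] at h2
  exact h2

theorem Cob.iso {f : E n → ℤ} (hf : Cob f) (g : E n ≃ᵢ E n) : Cob (fun x => f (g x)) := by
  obtain ⟨ι, _, u, v, h1, h2⟩ := hf
  choose v' hv' using fun i => iso_sub g (v i)
  refine ⟨ι, inferInstance, fun i x => u i (g x), v', fun i => (h1 i).iso g, ?_⟩
  filter_upwards [ae_iso g h2] with x a
  rw [a]
  apply Finset.sum_congr rfl
  intro i _
  rw [hv']

theorem castZ {k : ℕ} [NeZero k] (a : ZMod k) : (((a.val : ℤ)) : ZMod k) = a := by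
  rw [Int.cast_natCast, ZMod.natCast_zmod_val]

/-- **divisibility** -/
theorem T1 (j0 : Fin n) (k : ℕ) [NeZero k] (f : E n → ℤ) (hf : J f) :
    ∃ (Θ : Fin 4 → E n → ℤ) (w : E n → ℤ), (∀ i, J (Θ i)) ∧ J w ∧
      ∀ᵐ x, f x = ∑ i, (Θ i x - Θ i (x - ee j0 (mu i))) + k * w x := by
  have hfin : Finite (ZMod k) := inferInstance
  obtain ⟨θ, h1, h2⟩ := H0c (A := ZMod k) j0 (fun x => (f x : ZMod k)) (hf.map (fun a : ℤ => (a : ZMod k)) (by simp))
  have hΘ : ∀ i, J (fun x => ((θ i x).val : ℤ)) := fun i => (h1 i).map (fun a : ZMod k => (a.val : ℤ)) (by simp)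
  have hd : J (fun x => f x - ∑ i : Fin 4, (((θ i x).val : ℤ) - ((θ i (x - ee j0 (mu i))).val : ℤ))) := by
    have h3 : J (∑ i : Fin 4, ((fun x => ((θ i x).val : ℤ)) - (fun x => ((θ i (x - ee j0 (mu i))).val : ℤ)))) :=
      J.sum _ fun i _ => (hΘ i).sub ((hΘ i).tr _)
    exact (hf.sub h3).congr (Eventually.of_forall fun x => by simp [Finset.sum_apply])
  refine ⟨fun i x => ((θ i x).val : ℤ), fun x => (f x - ∑ i : Fin 4, (((θ i x).val : ℤ)
      - ((θ i (x - ee j0 (mu i))).val : ℤ))) / k, hΘ, hd.map (fun a : ℤ => a / k) (by simp), ?_⟩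
  filter_upwards [h2] with x hx
  have hdvd : (k : ℤ) ∣ f x - ∑ i : Fin 4, (((θ i x).val : ℤ) - ((θ i (x - ee j0 (mu i))).val : ℤ)) := by
    rw [← ZMod.intCast_zmod_eq_zero_iff_dvd, Int.cast_sub, Int.cast_sum, hx, sub_eq_zero]
    apply Finset.sum_congr rfl
    intro i _
    rw [Int.cast_sub, castZ, castZ]
  rw [Int.mul_ediv_cancel' hdvd]
  ring

theorem alt_double (j0 : Fin n) (W : Fin 4 → Fin 4 → E n → ℤ) (hW : ∀ i j x, W i j x = - W j i x) (x : E n) :
    ∑ i, ∑ j, (W i j x - W i j (x - ee j0 (mu j)) - (W i j (x - ee j0 (mu i))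
      - W i j (x - ee j0 (mu i) - ee j0 (mu j)))) = 0 := by
  have h1 : ∑ i, ∑ j, (W i j x - W i j (x - ee j0 (mu j)) - (W i j (x - ee j0 (mu i))
      - W i j (x - ee j0 (mu i) - ee j0 (mu j)))) = - ∑ i, ∑ j, (W i j x - W i j (x - ee j0 (mu j)) - (W i j (x - ee j0 (mu i))
      - W i j (x - ee j0 (mu i) - ee j0 (mu j)))) := by
    conv_lhs => rw [Finset.sum_comm]
    rw [← Finset.sum_neg_distrib]
    apply Finset.sum_congr rfl
    intro i _
    rw [← Finset.sum_neg_distrib]
    apply Finset.sum_congr rfl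
    intro j _
    rw [hW j i x, hW j i (x - ee j0 (mu i)), hW j i (x - ee j0 (mu j)), hW j i (x - ee j0 (mu j) - ee j0 (mu i)),
      sub_right_comm x (ee j0 (mu j))]
    ring
  omega

/-- **torsion-freeness** -/
theorem T2 (j0 : Fin n) (k : ℕ) [NeZero k] (F : E n → ℤ) (hF : J F) (h : Cob (fun x => k * F x)) : Cob F := by
  have hfin : Finite (ZMod k) := inferInstance
  obtain ⟨ι, _, hj, v, hJ, hae⟩ := h
  choose g h' hg hh' hgae using fun i => T1 j0 k (hj i) (hJ i)
  -- the cycle
  let z : Fin 4 → E n → ℤ := fun i => ∑ j, ((fun x => g j i x) - fun x => g j i (x - v j))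
  have hz : ∀ i x, z i x = ∑ j, (g j i x - g j i (x - v j)) := by
    intro i x
    simp only [z, Finset.sum_apply, Pi.sub_apply]
  have hzJ : ∀ i, J (z i) := fun i => J.sum _ fun j _ => (hg j i).sub ((hg j i).tr _)
  let Hs : E n → ℤ := fun x => ∑ j, (h' j x - h' j (x - v j))
  have hzc : ∀ᵐ x, ∑ i, (z i x - z i (x - ee j0 (mu i))) = k * (F x - Hs x) := by
    have a1 : ∀ᵐ x, ∀ j, hj j (x - v j) = ∑ i, (g j i (x - v j) - g j i (x - v j - ee j0 (mu i))) + k * h' j (x - v j) :=
      eventually_countable_forall.2 fun j => ae_tr (v j) (hgae j)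
    have a2 : ∀ᵐ x, ∀ j, hj j x = ∑ i, (g j i x - g j i (x - ee j0 (mu i))) + k * h' j x :=
      eventually_countable_forall.2 fun j => hgae j
    filter_upwards [hae, a1, a2] with x b0 b1 b2
    simp only [hz, Hs]
    rw [mul_sub, b0, Finset.mul_sum]
    simp only [b1, b2]
    rw [← Finset.sum_sub_distrib]
    simp only [← Finset.sum_sub_distrib]
    rw [Finset.sum_comm]
    apply Finset.sum_congr rfl
    intro j _
    have e1 : ∀ i : Fin 4, x - ee j0 (mu i) - v j = x - v j - ee j0 (mu i) := fun i => sub_right_comm _ _ _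
    simp only [e1]
    simp only [Finset.sum_sub_distrib]
    ring
  obtain ⟨w, hw, hw0, hwa, hwae⟩ := H1c (A := ZMod k) j0 (fun i x => (z i x : ZMod k))
    (fun i => (hzJ i).map (fun a : ℤ => (a : ZMod k)) (by simp)) (by
      filter_upwards [hzc] with x hx
      have : ((∑ i, (z i x - z i (x - ee j0 (mu i))) : ℤ) : ZMod k) = 0 := by
        rw [hx]; push_cast; simp
      rw [← this]
      push_cast
      rfl)
  let W : Fin 4 → Fin 4 → E n → ℤ := fun i j x =>
    if i < j then ((w i j x).val : ℤ) else if j < i then - ((w j i x).val : ℤ) else 0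
  have hWJ : ∀ i j, J (W i j) := by
    intro i j
    simp only [W]
    by_cases h1 : i < j
    · simp only [h1, if_true]
      exact (hw i j).map (fun a : ZMod k => (a.val : ℤ)) (by simp)
    · by_cases h2 : j < i
      · simp only [h1, h2, if_true, if_false]
        exact (hw j i).map (fun a : ZMod k => - (a.val : ℤ)) (by simp)
      · simp only [h1, h2, if_false]
        exact J.zero
  have hWa : ∀ i j x, W i j x = - W j i x := by
    intro i j x
    simp only [W]
    rcases lt_trichotomy i j with h1 | h1 | h1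
    · simp [h1, not_lt.2 h1.le]
    · subst h1; simp
    · simp [h1, not_lt.2 h1.le]
  have hWc : ∀ i j x, (W i j x : ZMod k) = w i j x := by
    intro i j x
    simp only [W]
    rcases lt_trichotomy i j with h1 | h1 | h1
    · simp [h1]
    · subst h1; simp [hw0]
    · simp [h1, not_lt.2 h1.le]
      rw [hwa i j]
  let Z : Fin 4 → E n → ℤ := fun i x => z i x - ∑ j, (W i j x - W i j (x - ee j0 (mu j)))
  have hZJ : ∀ i, J (Z i) := by
    intro i
    have h3 : J (z i - ∑ j, ((fun x => W i j x) - fun x => W i j (x - ee j0 (mu j)))) :=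
      (hzJ i).sub (J.sum _ fun j _ => (hWJ i j).sub ((hWJ i j).tr _))
    exact h3.congr (Eventually.of_forall fun x => by simp [Z, Finset.sum_apply])
  have hZ : ∀ᵐ x, ∀ i, Z i x = k * (Z i x / k) := by
    filter_upwards [hwae] with x hx i
    have : (k : ℤ) ∣ Z i x := by
      rw [← ZMod.intCast_zmod_eq_zero_iff_dvd]
      simp only [Z]
      rw [Int.cast_sub, hx i, Int.cast_sum, sub_eq_zero]
      apply Finset.sum_congr rfl
      intro j _
      rw [Int.cast_sub, hWc, hWc]
    rw [Int.mul_ediv_cancel' this]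
  have hfinal : ∀ᵐ x, F x = ∑ i : Fin 4, (Z i x / k - Z i (x - ee j0 (mu i)) / k) + ∑ j, (h' j x - h' j (x - v j)) := by
    have hZ' : ∀ᵐ x, ∀ i : Fin 4, ∀ i', Z i' (x - ee j0 (mu i)) = k * (Z i' (x - ee j0 (mu i)) / k) :=
      eventually_countable_forall.2 fun i => ae_tr _ hZ
    filter_upwards [hzc, hZ, hZ'] with x b1 b2 b3
    have hk : (k : ℤ) ≠ 0 := by
      exact_mod_cast NeZero.ne k
    apply mul_left_cancel₀ hk
    have e1 : ∀ i y, z i y = Z i y + ∑ j, (W i j y - W i j (y - ee j0 (mu j))) := by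
      intro i y
      simp only [Z]
      ring
    have e2 : ∑ i, (z i x - z i (x - ee j0 (mu i))) = ∑ i, (Z i x - Z i (x - ee j0 (mu i))) := by
      have := alt_double j0 W hWa x
      rw [← sub_eq_zero, ← Finset.sum_sub_distrib, ← this]
      apply Finset.sum_congr rfl
      intro i _
      rw [e1, e1]
      have e5 : ∀ a b c d : ℤ, a + b - (c + d) - (a - c) = b - d := by intros; ring
      rw [e5, ← Finset.sum_sub_distrib]
    rw [e2] at b1
    have e3 : ∑ i, (Z i x - Z i (x - ee j0 (mu i))) = k * ∑ i : Fin 4, (Z i x / k - Z i (x - ee j0 (mu i)) / k) := by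
      rw [Finset.mul_sum]
      apply Finset.sum_congr rfl
      intro i _
      conv_lhs => rw [b2 i, b3 i i]
      ring
    rw [e3] at b1
    simp only [Hs] at b1
    linarith
  refine Cob.congr (Cob.add (Cob.sum Finset.univ fun i _ => Cob.gen ((hZJ i).map (fun a : ℤ => a / k) (by simp)) (ee j0 (mu i)))
    (Cob.sum Finset.univ fun j _ => Cob.gen (hh' j) (v j))) hfinal

end

end Pool.Agent.H92R3.Canc
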