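import Pool.Agent.H92R3.CxF

set_option autoImplicit false
set_option linter.unusedVariables false

namespace Pool.Agent.H92R3.Canc

open MeasureTheory Set Filter Topology

noncomputable section

variable {n : ℕ}

/-- equidecomposability of nonnegative functions -/
def Eqd (u v : E n → ℤ) : Prop := ∃ (ι : Type) (_ : Fintype ι) (f : ι → E n → ℤ) (g : ι → E n ≃ᵢ E n),
  (∀ i, J (f i)) ∧ (∀ i x, 0 ≤ f i x) ∧ (∀ᵐ x, u x = ∑ i, f i x) ∧ ∀ᵐ x, v x = ∑ i, f i ((g i).symm x)

theorem Eqd.congr {u v u' v' : E n → ℤ} (h : Eqd u v) (hu : ∀ᵐ x, u' x = u x) (hv : ∀ᵐ x, v' x = v x) :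
    Eqd u' v' := by
  obtain ⟨ι, _, f, g, h1, h2, h3, h4⟩ := h
  refine ⟨ι, inferInstance, f, g, h1, h2, ?_, ?_⟩
  · filter_upwards [h3, hu] with x a b
    rw [b, a]
  · filter_upwards [h4, hv] with x a b
    rw [b, a]

theorem Eqd.symm {u v : E n → ℤ} (h : Eqd u v) : Eqd v u := by
  obtain ⟨ι, _, f, g, h1, h2, h3, h4⟩ := h
  refine ⟨ι, inferInstance, fun i x => f i ((g i).symm x), fun i => (g i).symm, fun i => (h1 i).iso _,
    fun i x => h2 i _, h4, ?_⟩
  filter_upwards [h3] with x a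
  rw [a]
  simp

theorem Eqd.zero : Eqd (0 : E n → ℤ) 0 :=
  ⟨Empty, inferInstance, fun i => i.elim, fun i => i.elim, fun i => i.elim, fun i => i.elim, by simp, by simp⟩

theorem Eqd.add {u v u' v' : E n → ℤ} (h : Eqd u v) (h' : Eqd u' v') :
    Eqd (fun x => u x + u' x) (fun x => v x + v' x) := by
  obtain ⟨ι, _, f, g, h1, h2, h3, h4⟩ := h
  obtain ⟨κ, _, f', g', h1', h2', h3', h4'⟩ := h'
  refine ⟨ι ⊕ κ, inferInstance, Sum.elim f f', Sum.elim g g', ?_, ?_, ?_, ?_⟩
  · rintro (i | i)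
    · exact h1 i
    · exact h1' i
  · rintro (i | i)
    · exact h2 i
    · exact h2' i
  · filter_upwards [h3, h3'] with x a b
    rw [Fintype.sum_sum_type, a, b]
    rfl
  · filter_upwards [h4, h4'] with x a b
    rw [Fintype.sum_sum_type, a, b]
    rfl

theorem Eqd.sum {ι : Type*} (s : Finset ι) {u v : ι → E n → ℤ} (h : ∀ i ∈ s, Eqd (u i) (v i)) :
    Eqd (fun x => ∑ i ∈ s, u i x) (fun x => ∑ i ∈ s, v i x) := by
  classical
  induction s using Finset.induction_on with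
  | empty =>
    simp only [Finset.sum_empty]
    exact Eqd.zero
  | insert a s ha ih =>
    simp only [Finset.sum_insert ha]
    exact (h a (Finset.mem_insert_self _ _)).add (ih fun i hi => h i (Finset.mem_insert_of_mem hi))

theorem Eqd.iso {u : E n → ℤ} (hu : J u) (h0 : ∀ x, 0 ≤ u x) (g : E n ≃ᵢ E n) :
    Eqd u (fun x => u (g.symm x)) :=
  ⟨Unit, inferInstance, fun _ => u, fun _ => g, fun _ => hu, fun _ => h0, by simp, by simp⟩

theorem Eqd.refl {u : E n → ℤ} (hu : J u) (h0 : ∀ x, 0 ≤ u x) : Eqd u u :=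
  Eqd.iso hu h0 (IsometryEquiv.refl _)

theorem Eqd.J_left {u v : E n → ℤ} (h : Eqd u v) : J u := by
  obtain ⟨ι, _, f, g, h1, h2, h3, h4⟩ := h
  refine (J.sum Finset.univ fun i _ => h1 i).congr ?_
  filter_upwards [h3] with x a
  rw [a, Finset.sum_apply]

theorem Eqd.J_right {u v : E n → ℤ} (h : Eqd u v) : J v := h.symm.J_left

/-- matrices with prescribed margins -/
theorem exists_matrix {ι κ : Type} [Fintype ι] [Fintype κ] (N : ℕ) : ∀ (r : ι → ℕ) (q : κ → ℕ),
    ∑ i, r i = N → ∑ j, q j = N → ∃ M : ι → κ → ℕ, (∀ i, ∑ j, M i j = r i) ∧ ∀ j, ∑ i, M i j = q j := by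
  classical
  induction N with
  | zero =>
    intro r q hr hq
    refine ⟨0, fun i => ?_, fun j => ?_⟩
    · have := (Finset.sum_eq_zero_iff.1 hr) i (Finset.mem_univ i)
      simp [this]
    · have := (Finset.sum_eq_zero_iff.1 hq) j (Finset.mem_univ j)
      simp [this]
  | succ N ih =>
    intro r q hr hq
    obtain ⟨i0, -, hi0⟩ := Finset.exists_ne_zero_of_sum_ne_zero (by rw [hr]; omega : ∑ i, r i ≠ 0)
    obtain ⟨j0, -, hj0⟩ := Finset.exists_ne_zero_of_sum_ne_zero (by rw [hq]; omega : ∑ j, q j ≠ 0)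
    have e1 : ∀ i, r i = (r i - if i = i0 then 1 else 0) + if i = i0 then 1 else 0 := by
      intro i
      by_cases h : i = i0
      · subst h; simp; omega
      · simp [h]
    have e2 : ∀ j, q j = (q j - if j = j0 then 1 else 0) + if j = j0 then 1 else 0 := by
      intro j
      by_cases h : j = j0
      · subst h; simp; omega
      · simp [h]
    have s1 : ∑ i, (r i - if i = i0 then 1 else 0) = N := by
      have : ∑ i, r i = ∑ i, (r i - if i = i0 then 1 else 0) + 1 := by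
        conv_lhs => rw [Finset.sum_congr rfl fun i _ => e1 i]
        rw [Finset.sum_add_distrib]
        simp
      omega
    have s2 : ∑ j, (q j - if j = j0 then 1 else 0) = N := by
      have : ∑ j, q j = ∑ j, (q j - if j = j0 then 1 else 0) + 1 := by
        conv_lhs => rw [Finset.sum_congr rfl fun i _ => e2 i]
        rw [Finset.sum_add_distrib]
        simp
      omega
    obtain ⟨M, hM1, hM2⟩ := ih _ _ s1 s2
    refine ⟨fun i j => M i j + if i = i0 ∧ j = j0 then 1 else 0, fun i => ?_, fun j => ?_⟩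
    · rw [Finset.sum_add_distrib, hM1]
      conv_rhs => rw [e1 i]
      congr 1
      by_cases h : i = i0 <;> simp [h]
    · rw [Finset.sum_add_distrib, hM2]
      conv_rhs => rw [e2 j]
      congr 1
      by_cases h : j = j0 <;> simp [h]

theorem exists_matrixZ (ι κ : Type) [Fintype ι] [Fintype κ] :
    ∃ M : (ι → ℤ) → (κ → ℤ) → ι → κ → ℤ, M 0 0 = 0 ∧ (∀ r q i j, 0 ≤ M r q i j) ∧
      ∀ r q, (∀ i, 0 ≤ r i) → (∀ j, 0 ≤ q j) → ∑ i, r i = ∑ j, q j →
        (∀ i, ∑ j, M r q i j = r i) ∧ ∀ j, ∑ i, M r q i j = q j := by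
  classical
  have key : ∀ (r : ι → ℤ) (q : κ → ℤ), ∃ M : ι → κ → ℤ, (∀ i j, 0 ≤ M i j) ∧ ((r = 0 ∧ q = 0) → M = 0) ∧
      ((∀ i, 0 ≤ r i) → (∀ j, 0 ≤ q j) → ∑ i, r i = ∑ j, q j →
        (∀ i, ∑ j, M i j = r i) ∧ ∀ j, ∑ i, M i j = q j) := by
    intro r q
    by_cases h0 : r = 0 ∧ q = 0
    · refine ⟨0, fun _ _ => le_rfl, fun _ => rfl, fun _ _ _ => ?_⟩
      simp [h0.1, h0.2]
    by_cases h : (∀ i, 0 ≤ r i) ∧ (∀ j, 0 ≤ q j) ∧ ∑ i, r i = ∑ j, q j
    · obtain ⟨h1, h2, h3⟩ := h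
      have e1 : ∀ i, ((r i).toNat : ℤ) = r i := fun i => Int.toNat_of_nonneg (h1 i)
      have e2 : ∀ j, ((q j).toNat : ℤ) = q j := fun i => Int.toNat_of_nonneg (h2 i)
      obtain ⟨M, hM1, hM2⟩ := exists_matrix (∑ i, (r i).toNat) (fun i => (r i).toNat) (fun j => (q j).toNat) rfl (by
        have : ((∑ j, (q j).toNat : ℕ) : ℤ) = ((∑ i, (r i).toNat : ℕ) : ℤ) := by
          push_cast
          simp only [e1, e2, h3]
        exact_mod_cast this)
      refine ⟨fun i j => M i j, fun i j => by positivity, fun h => absurd h h0, fun _ _ _ => ⟨fun i => ?_, fun j => ?_⟩⟩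
      · have := hM1 i
        rw [← e1 i, ← this]
        push_cast
        rfl
      · have := hM2 j
        rw [← e2 j, ← this]
        push_cast
        rfl
    · exact ⟨0, fun _ _ => le_rfl, fun _ => rfl, fun a b c => absurd ⟨a, b, c⟩ h⟩
  choose M h1 h2 h3 using key
  exact ⟨M, h2 0 0 ⟨rfl, rfl⟩, h1, h3⟩

theorem Eqd.trans {u v w : E n → ℤ} (h : Eqd u v) (h' : Eqd v w) : Eqd u w := by
  obtain ⟨ι, _, f, g, h1, h2, h3, h4⟩ := h
  obtain ⟨κ, _, q, k, h1', h2', h3', h4'⟩ := h'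
  obtain ⟨M, hM0, hMn, hM⟩ := exists_matrixZ ι κ
  let r : ι → E n → ℤ := fun i x => f i ((g i).symm x)
  have hr : ∀ i, J (r i) := fun i => (h1 i).iso _
  let s : ι → κ → E n → ℤ := fun i j x => M (fun i => r i x) (fun j => q j x) i j
  have hs : ∀ i j, J (s i j) := fun i j =>
    (J.pi hr).map₂ (J.pi h1') (fun a b => M a b i j) (by rw [hM0]; rfl)
  have hrq : ∀ᵐ x, (∀ i, ∑ j, s i j x = r i x) ∧ ∀ j, ∑ i, s i j x = q j x := by
    filter_upwards [h4, h3'] with x a b
    exact hM _ _ (fun i => h2 i _) (fun j => h2' j _) (by rw [← b, a])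
  refine ⟨ι × κ, inferInstance, fun p x => s p.1 p.2 (g p.1 x), fun p => (g p.1).trans (k p.2),
    fun p => (hs _ _).iso _, fun p x => hMn _ _ _ _, ?_, ?_⟩
  · have : ∀ᵐ x, ∀ i, ((∀ i', ∑ j, s i' j (g i x) = r i' (g i x)) ∧ ∀ j, ∑ i', s i' j (g i x) = q j (g i x)) :=
      eventually_countable_forall.2 fun i => ae_iso (g i) hrq
    filter_upwards [h3, this] with x a b
    rw [a, Fintype.sum_prod_type]
    apply Finset.sum_congr rfl
    intro i _
    rw [(b i).1 i]
    simp [r]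
  · have : ∀ᵐ x, ∀ j, ((∀ i', ∑ j', s i' j' ((k j).symm x) = r i' ((k j).symm x)) ∧
        ∀ j', ∑ i', s i' j' ((k j).symm x) = q j' ((k j).symm x)) :=
      eventually_countable_forall.2 fun j => ae_iso (k j).symm hrq
    filter_upwards [h4', this] with x a b
    rw [a, Fintype.sum_prod_type_right]
    apply Finset.sum_congr rfl
    intro j _
    rw [← (b j).2 j]
    apply Finset.sum_congr rfl
    intro i _
    simp

end

end Pool.Agent.H92R3.Canc
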