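import Pool.Agent.H92R3.CxJ

set_option autoImplicit false
set_option linter.unusedVariables false

namespace Pool.Agent.H92R3.Canc

open MeasureTheory Set Filter Topology

noncomputable section

variable {n : ℕ}

def vc (w : Fin n → ℤ) : E n := WithLp.toLp 2 (fun i => (w i : ℝ))

theorem vc_apply (w : Fin n → ℤ) (i : Fin n) : vc w i = w i := rfl

theorem vc_add (w w' : Fin n → ℤ) : vc (w + w') = vc w + vc w' := by
  ext i
  simp [vc_apply]

theorem vc_neg (w : Fin n → ℤ) : vc (-w) = - vc w := by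
  ext i
  simp [vc_apply]

/-- the half-open cube -/
def Q (s : ℝ) : Set (E n) := {x | ∀ i, 0 ≤ x i ∧ x i < s}

theorem mem_Q {s : ℝ} {x : E n} : x ∈ Q s ↔ ∀ i, 0 ≤ x i ∧ x i < s := Iff.rfl

def cell (s : ℝ) (x : E n) : Fin n → ℤ := fun i => ⌊x i / s⌋

theorem mem_Q_iff {s : ℝ} (hs : 0 < s) (x : E n) (w : Fin n → ℤ) : x - s • vc w ∈ Q s ↔ w = cell s x := by
  rw [mem_Q]
  have h : ∀ i, (0 ≤ (x - s • vc w) i ∧ (x - s • vc w) i < s) ↔ w i = cell s x i := by
    intro i
    have e : (x - s • vc w) i = x i - s * w i := by simp [vc_apply]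
    rw [e, cell, eq_comm, Int.floor_eq_iff, le_div_iff₀ hs, div_lt_iff₀ hs]
    constructor
    · rintro ⟨h1, h2⟩
      constructor <;> nlinarith
    · rintro ⟨h1, h2⟩
      constructor <;> nlinarith
  constructor
  · intro h1
    funext i
    exact (h i).1 (h1 i)
  · intro h1 i
    exact (h i).2 (by rw [h1])

theorem convex_Q (s : ℝ) : Convex ℝ (Q s : Set (E n)) := by
  have : (Q s : Set (E n)) = ⋂ i, {x : E n | 0 ≤ x i} ∩ {x : E n | x i < s} := by
    ext x
    simp [mem_Q]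
  rw [this]
  refine convex_iInter fun i => ?_
  have hl : IsLinearMap ℝ fun x : E n => x i := ⟨fun _ _ => rfl, fun _ _ => rfl⟩
  exact (convex_halfSpace_ge hl 0).inter (convex_halfSpace_lt hl s)

theorem frontier_Q (s : ℝ) : volume (frontier (Q s : Set (E n))) = 0 := (convex_Q s).addHaar_frontier volume

theorem volume_Q {s : ℝ} (hs : 0 < s) : volume (Q s : Set (E n)) = ENNReal.ofReal s ^ n := by
  have h1 : (Q s : Set (E n)) = (WithLp.ofLp : E n → (Fin n → ℝ)) ⁻¹' (Set.pi univ fun _ => Ico 0 s) := by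
    ext x
    simp [mem_Q]
  rw [h1, (PiLp.volume_preserving_ofLp (Fin n)).measure_preimage
    (MeasurableSet.univ_pi fun _ => measurableSet_Ico).nullMeasurableSet, Real.volume_pi_Ico]
  simp

/-- folding over the lattice `s ℤⁿ` -/
def Fold (s : ℝ) (f : E n → ℤ) (x : E n) : ℤ := ∑ᶠ w : Fin n → ℤ, f (x + s • vc w)

theorem Fold_per (s : ℝ) (f : E n → ℤ) (x : E n) (w : Fin n → ℤ) : Fold s f (x + s • vc w) = Fold s f x := by
  have h := finsum_comp_equiv (Equiv.addLeft w) (f := fun w' : Fin n → ℤ => f (x + s • vc w'))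
  unfold Fold
  rw [← h]
  congr 1
  funext w'
  simp only [Equiv.coe_addLeft, vc_add, smul_add, add_assoc]

theorem Fold_per' {s : ℝ} (f : E n → ℤ) (x : E n) (w : Fin n → ℤ) : Fold s f (x - s • vc w) = Fold s f x := by
  have := Fold_per s f (x - s • vc w) w
  rw [sub_add_cancel] at this
  exact this.symm

/-- finite box -/
def box (n : ℕ) (C : ℕ) : Finset (Fin n → ℤ) := Fintype.piFinset fun _ => Finset.Icc (-C : ℤ) C

theorem mem_box {C : ℕ} {w : Fin n → ℤ} : w ∈ box n C ↔ ∀ i, |w i| ≤ C := by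
  simp [box, abs_le]

theorem mem_box_of {s R : ℝ} (hs : 0 < s) {C : ℕ} {x : E n} {w : Fin n → ℤ} {D : ℝ} (hx : ‖x‖ ≤ D)
    (h : ‖x + s • vc w‖ ≤ R) (hC : (R + D) / s ≤ C) : w ∈ box n C := by
  rw [mem_box]
  intro i
  have h1 : |(x + s • vc w) i| ≤ R := by
    rw [← Real.norm_eq_abs]
    exact (PiLp.norm_apply_le _ i).trans h
  have h2 : |x i| ≤ D := by
    rw [← Real.norm_eq_abs]
    exact (PiLp.norm_apply_le _ i).trans hx
  have e : (x + s • vc w) i = x i + s * w i := by simp [vc_apply]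
  rw [e] at h1
  have h3 : |s * (w i : ℝ)| ≤ R + D := by
    calc |s * (w i : ℝ)| = |(x i + s * w i) - x i| := by ring_nf
      _ ≤ |x i + s * w i| + |x i| := abs_sub _ _
      _ ≤ _ := by linarith
  rw [abs_mul, abs_of_pos hs] at h3
  have h4 : |(w i : ℝ)| ≤ C := by
    refine le_trans ?_ hC
    rw [le_div_iff₀ hs]
    linarith
  exact_mod_cast h4

/-- bounded support -/
def BS (f : E n → ℤ) : Prop := ∃ R : ℝ, ∀ x, f x ≠ 0 → ‖x‖ ≤ R

theorem Fold_supp {s : ℝ} (hs : 0 < s) {f : E n → ℤ} (hf : BS f) (x : E n) :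
    (Function.support fun w : Fin n → ℤ => f (x + s • vc w)).Finite := by
  obtain ⟨R, hR⟩ := hf
  obtain ⟨C, hC⟩ := exists_nat_ge ((R + ‖x‖) / s)
  refine (box n C).finite_toSet.subset fun w hw => ?_
  exact mem_box_of hs le_rfl (hR _ hw) hC

theorem Fold_eq_sum {s : ℝ} (hs : 0 < s) {f : E n → ℤ} {R : ℝ} (hR : ∀ x, f x ≠ 0 → ‖x‖ ≤ R) {x : E n} {D : ℝ}
    (hx : ‖x‖ ≤ D) {C : ℕ} (hC : (R + D) / s ≤ C) : Fold s f x = ∑ w ∈ box n C, f (x + s • vc w) := by
  apply finsum_eq_sum_of_support_subset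
  intro w hw
  exact mem_box_of hs hx (hR _ hw) hC

theorem norm_le_of_mem_Q {s : ℝ} {x : E n} (hx : x ∈ Q s) : ‖x‖ ≤ n * s := by
  rcases Nat.eq_zero_or_pos n with h0 | h0
  · subst h0
    have : x = 0 := Subsingleton.elim _ _
    rw [this]; simp
  have hs : 0 ≤ s := ((hx ⟨0, h0⟩).1.trans_lt (hx ⟨0, h0⟩).2).le
  have h1 : ‖x‖ ≤ ∑ i, ‖x i‖ := by
    have e : x = ∑ i, EuclideanSpace.single i (x i) := by
      ext j
      rw [WithLp.ofLp_sum]
      simp [Finset.sum_apply]
    conv_lhs => rw [e]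
    refine (norm_sum_le _ _).trans (Finset.sum_le_sum fun i _ => ?_)
    simp
  refine h1.trans ((Finset.sum_le_sum fun i _ => ?_).trans (by simp : ∑ i : Fin n, s ≤ n * s))
  rw [Real.norm_eq_abs, abs_of_nonneg (hx i).1]
  exact (hx i).2.le

open Classical in
/-- restriction to the cube -/
def res (s : ℝ) (f : E n → ℤ) (x : E n) : ℤ := if x ∈ Q s then f x else 0

theorem res_pos {s : ℝ} {f : E n → ℤ} {x : E n} (h : x ∈ Q s) : res s f x = f x := by
  simp [res, h]

theorem res_neg {s : ℝ} {f : E n → ℤ} {x : E n} (h : x ∉ Q s) : res s f x = 0 := by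
  simp [res, h]

theorem J_one_Q (s : ℝ) : J (res s (fun _ : E n => 1)) := by
  classical
  refine JD.toJ ⟨⟨n * s, fun x hx => ?_⟩, ?_, ?_⟩
  · by_cases h : x ∈ Q s
    · exact norm_le_of_mem_Q h
    · exact absurd (res_neg h) hx
  · refine (Set.toFinite ({0, 1} : Set ℤ)).subset ?_
    rintro _ ⟨x, rfl⟩
    by_cases h : x ∈ Q s
    · rw [res_pos h]; simp
    · rw [res_neg h]; simp
  · exact (ND.set (frontier_Q s)).map fun p => if p then (1 : ℤ) else 0

/-- the data of the cell decomposition -/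
theorem decomp {s : ℝ} (hs : 0 < s) {u : E n → ℤ} (hu : BS u) : ∃ C : ℕ,
    (∀ x, u x = ∑ w ∈ box n C, res s (fun y => u (y + s • vc w)) (x - s • vc w)) ∧
    ∀ x ∈ Q s, Fold s u x = ∑ w ∈ box n C, u (x + s • vc w) := by
  obtain ⟨R, hR⟩ := hu
  obtain ⟨C, hC⟩ := exists_nat_ge ((R + n * s) / s)
  refine ⟨C, fun x => ?_, fun x hx => Fold_eq_sum hs hR (norm_le_of_mem_Q hx) hC⟩
  by_cases hux : u x = 0
  · rw [hux]
    symm
    apply Finset.sum_eq_zero
    intro w _
    by_cases h : x - s • vc w ∈ Q s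
    · rw [res_pos h, sub_add_cancel, hux]
    · rw [res_neg h]
  · have hc : cell s x ∈ box n C := by
      have h1 : x - s • vc (cell s x) ∈ Q s := (mem_Q_iff hs x _).2 rfl
      refine mem_box_of hs (norm_le_of_mem_Q h1) (w := cell s x) ?_ hC
      rw [sub_add_cancel]
      exact hR x hux
    rw [Finset.sum_eq_single_of_mem _ hc]
    · rw [res_pos ((mem_Q_iff hs x _).2 rfl), sub_add_cancel]
    · intro w _ hw
      rw [res_neg fun h => hw ((mem_Q_iff hs x w).1 h)]

theorem J_res {s : ℝ} {f : E n → ℤ} (hf : J f) : J (res s f) := by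
  classical
  have := hf.cut (frontier_Q (n := n) s)
  refine this.congr (Eventually.of_forall fun x => ?_)
  unfold res
  congr

theorem J_res_Fold {s : ℝ} (hs : 0 < s) {f : E n → ℤ} (hf : J f) (hb : BS f) (φ : ℤ → ℤ) :
    J (res s (fun x => φ (Fold s f x))) := by
  obtain ⟨C, -, hC⟩ := decomp hs hb
  have h1 : J (∑ w ∈ box n C, fun x => f (x + s • vc w)) := J.sum _ fun w _ => hf.tr' _
  have h2 := h1.map₂ (J_one_Q (n := n) s) (fun a b => if b = 1 then φ a else 0) (by simp)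
  refine h2.congr (Eventually.of_forall fun x => ?_)
  by_cases h : x ∈ Q s
  · simp only [res_pos h, if_true, Finset.sum_apply]
    rw [hC x h]
  · simp only [res_neg h]
    simp

end

end Pool.Agent.H92R3.Canc
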