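import Pool.Agent.H92R3.CxK
import Pool.Agent.H92R3.CxI

set_option autoImplicit false
set_option linter.unusedVariables false

namespace Pool.Agent.H92R3.Canc

open MeasureTheory Set Filter Topology

noncomputable section

variable {n : ℕ}

theorem fold_eqd {s : ℝ} (hs : 0 < s) {u : E n → ℤ} (hu : J u) (hb : BS u) (h0 : ∀ x, 0 ≤ u x) :
    Eqd u (res s (Fold s u)) := by
  obtain ⟨C, h1, h2⟩ := decomp hs hb
  have key : ∀ w ∈ box n C, Eqd (fun x => res s (fun y => u (y + s • vc w)) (x - s • vc w))
      (fun x => res s (fun y => u (y + s • vc w)) x) := by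
    intro w _
    have hJ : J (res s (fun y => u (y + s • vc w))) := J_res (hu.tr' _)
    have hn : ∀ x, 0 ≤ res s (fun y => u (y + s • vc w)) x := by
      intro x
      by_cases h : x ∈ Q s
      · rw [res_pos h]; exact h0 _
      · rw [res_neg h]
    have := Eqd.iso hJ hn (IsometryEquiv.addRight (s • vc w))
    refine this.symm.congr (Eventually.of_forall fun x => ?_) (Eventually.of_forall fun x => rfl)
    simp [IsometryEquiv.addRight_symm]
    rfl
  have := Eqd.sum (box n C) key
  refine this.congr (Eventually.of_forall h1) (Eventually.of_forall fun x => ?_)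
  by_cases h : x ∈ Q s
  · rw [res_pos h, h2 x h]
    apply Finset.sum_congr rfl
    intro w _
    rw [res_pos h]
  · rw [res_neg h]
    symm
    apply Finset.sum_eq_zero
    intro w _
    rw [res_neg h]

theorem fold_cob {s : ℝ} (hs : 0 < s) {u : E n → ℤ} (hu : J u) (hb : BS u) :
    Cob (fun x => u x - res s (Fold s u) x) := by
  obtain ⟨C, h1, h2⟩ := decomp hs hb
  have key : ∀ w ∈ box n C, Cob (fun x => res s (fun y => u (y + s • vc w)) (x - s • vc w)
      - res s (fun y => u (y + s • vc w)) x) := by
    intro w _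
    have hJ : J (res s (fun y => u (y + s • vc w))) := J_res (hu.tr' _)
    refine (Cob.gen hJ (s • vc w)).neg.congr (Eventually.of_forall fun x => ?_)
    ring
  refine (Cob.sum (box n C) key).congr (Eventually.of_forall fun x => ?_)
  rw [Finset.sum_sub_distrib, ← h1 x]
  congr 1
  by_cases h : x ∈ Q s
  · rw [res_pos h, h2 x h]
    apply Finset.sum_congr rfl
    intro w _
    rw [res_pos h]
  · rw [res_neg h]
    symm
    apply Finset.sum_eq_zero
    intro w _
    rw [res_neg h]

theorem BS_res (s : ℝ) (f : E n → ℤ) : BS (res s f) := by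
  refine ⟨n * s, fun x hx => ?_⟩
  by_cases h : x ∈ Q s
  · exact norm_le_of_mem_Q h
  · exact absurd (res_neg h) hx

theorem Fold_res {s : ℝ} (hs : 0 < s) {G : E n → ℤ} (hG : ∀ x w, G (x + s • vc w) = G x) (x : E n) :
    Fold s (res s G) x = G x := by
  unfold Fold
  rw [finsum_eq_single _ (- cell s x)]
  · rw [vc_neg, smul_neg, ← sub_eq_add_neg, res_pos ((mem_Q_iff hs x _).2 rfl)]
    have := hG (x - s • vc (cell s x)) (cell s x)
    rw [sub_add_cancel] at this
    exact this.symm
  · intro w hw
    apply res_neg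
    intro h
    apply hw
    have h2 : x - s • vc (-w) ∈ Q s := by
      rw [vc_neg, smul_neg, sub_neg_eq_add]
      exact h
    rw [← (mem_Q_iff hs x (-w)).1 h2, neg_neg]

theorem BS.tr {f : E n → ℤ} (hf : BS f) (v : E n) : BS (fun x => f (x - v)) := by
  obtain ⟨R, hR⟩ := hf
  refine ⟨R + ‖v‖, fun x hx => ?_⟩
  have := hR _ hx
  calc ‖x‖ = ‖(x - v) + v‖ := by rw [sub_add_cancel]
    _ ≤ ‖x - v‖ + ‖v‖ := norm_add_le _ _
    _ ≤ _ := by linarith

/-- pieces of periodic functions can be shifted -/
theorem shift_eqd {s : ℝ} (hs : 0 < s) {G : E n → ℤ} (hG : ∀ x w, G (x + s • vc w) = G x) (h0 : ∀ x, 0 ≤ G x)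
    (hJ : J (res s G)) (v : E n) : Eqd (res s G) (res s (fun x => G (x - v))) := by
  have hn : ∀ x, 0 ≤ res s G x := by
    intro x
    by_cases h : x ∈ Q s
    · rw [res_pos h]; exact h0 _
    · rw [res_neg h]
  have h1 : Eqd (res s G) (fun x => res s G (x - v)) := by
    have := Eqd.iso hJ hn (IsometryEquiv.addRight v)
    refine this.congr (Eventually.of_forall fun x => rfl) (Eventually.of_forall fun x => ?_)
    simp [IsometryEquiv.addRight_symm]
    rfl
  have h2 := fold_eqd hs (hJ.tr v) ((BS_res s G).tr v) (fun x => hn _)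
  refine (h1.trans h2).congr (Eventually.of_forall fun x => rfl) (Eventually.of_forall fun x => ?_)
  have h3 : Fold s (fun x => res s G (x - v)) x = G (x - v) := by
    rw [← Fold_res hs hG (x - v)]
    unfold Fold
    congr 1
    funext w
    have e : x + s • vc w - v = x - v + s • vc w := by abel
    simp only [e]
  by_cases h : x ∈ Q s
  · rw [res_pos h, res_pos h, h3]
  · rw [res_neg h, res_neg h]

theorem Fold_cob {s : ℝ} (hs : 0 < s) {ι : Type} [Fintype ι] {D : E n → ℤ} {h : ι → E n → ℤ} {v : ι → E n}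
    (hb : ∀ i, BS (h i)) (hae : ∀ᵐ x, D x = ∑ i, (h i x - h i (x - v i))) :
    ∀ᵐ x, Fold s D x = ∑ i, (Fold s (h i) x - Fold s (h i) (x - v i)) := by
  have h1 : ∀ᵐ x : E n, ∀ w : Fin n → ℤ, D (x + s • vc w) = ∑ i, (h i (x + s • vc w) - h i (x + s • vc w - v i)) :=
    eventually_countable_forall.2 fun w => ae_iso (IsometryEquiv.addRight (s • vc w)) hae
  filter_upwards [h1] with x hx
  unfold Fold
  simp only [hx]
  have e : ∀ w i, x + s • vc w - v i = x - v i + s • vc w := by
    intro w i
    abel
  simp only [e]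
  have f1 : ∀ i, (Function.support fun w : Fin n → ℤ => h i (x + s • vc w)).Finite := fun i => Fold_supp hs (hb i) x
  have f2 : ∀ i, (Function.support fun w : Fin n → ℤ => h i (x - v i + s • vc w)).Finite := fun i =>
    Fold_supp hs (hb i) (x - v i)
  rw [finsum_sum_comm]
  · apply Finset.sum_congr rfl
    intro i _
    rw [finsum_sub_distrib (f1 i) (f2 i)]
  · intro i _
    refine ((f1 i).union (f2 i)).subset ?_
    intro w hw
    by_contra hc
    rw [mem_union, not_or, Function.notMem_support, Function.notMem_support] at hc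
    apply hw
    simp [hc.1, hc.2]

end

end Pool.Agent.H92R3.Canc
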