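import Pool.Agent.H92R3.CxK

set_option autoImplicit false
set_option linter.unusedVariables false

namespace Pool.Agent.H92R3.Canc

open MeasureTheory Set Filter Topology

noncomputable section

variable {n : ℕ}

/-- translated cell -/
def CC (s : ℝ) (p : E n) : Set (E n) := {z | z - p ∈ Q s}

theorem CC_eq (s : ℝ) (p : E n) : CC s p = (IsometryEquiv.subRight p) ⁻¹' Q s := rfl

theorem measurableSet_Q (s : ℝ) : MeasurableSet (Q s : Set (E n)) := by
  have : (Q s : Set (E n)) = (WithLp.ofLp : E n → (Fin n → ℝ)) ⁻¹' (Set.pi univ fun _ => Ico 0 s) := by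
    ext x
    simp [mem_Q]
  rw [this]
  exact (PiLp.volume_preserving_ofLp (Fin n)).measurable (MeasurableSet.univ_pi fun _ => measurableSet_Ico)

theorem measurableSet_CC (s : ℝ) (p : E n) : MeasurableSet (CC s p) := by
  rw [CC_eq]
  exact (mp_iso _).measurable (measurableSet_Q s)

theorem volume_CC {s : ℝ} (hs : 0 < s) (p : E n) : volume (CC s p) = ENNReal.ofReal (s ^ n) := by
  rw [CC_eq, (mp_iso _).measure_preimage (measurableSet_Q s).nullMeasurableSet, volume_Q hs,
    ENNReal.ofReal_pow hs.le]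

theorem dist_Q {s : ℝ} {x y : E n} (hx : x ∈ Q s) (hy : y ∈ Q s) : ‖x - y‖ ≤ n * s := by
  have h1 : ‖x - y‖ ≤ ∑ i, ‖(x - y) i‖ := by
    have e : x - y = ∑ i, EuclideanSpace.single i ((x - y) i) := by
      ext j
      rw [WithLp.ofLp_sum]
      simp [Finset.sum_apply]
    conv_lhs => rw [e]
    refine (norm_sum_le _ _).trans (Finset.sum_le_sum fun i _ => ?_)
    simp
  refine h1.trans ((Finset.sum_le_sum fun i _ => ?_).trans (by simp : ∑ i : Fin n, s ≤ n * s))
  rw [Real.norm_eq_abs, abs_le]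
  have a := hx i
  have b := hy i
  have e : (x - y) i = x i - y i := rfl
  rw [e]
  constructor <;> linarith

theorem lower {u : E n → ℤ} (hb : BS u) (h0 : ∀ x, 0 ≤ u x) (c : E n) {r : ℝ} (hr : 0 < r)
    (h1 : ∀ x ∈ Metric.ball c r, 1 ≤ u x) :
    ∃ c0 > 0, ∃ s0 > 0, ∀ s, 0 < s → s < s0 → ∀ x, c0 ≤ (Fold s u x : ℝ) * s ^ n := by
  have hpos : 0 < volume (Metric.ball c (r / 2)) := Metric.measure_ball_pos _ _ (by positivity)
  have hfin : volume (Metric.ball c (r / 2)) ≠ ⊤ := measure_ball_lt_top.ne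
  refine ⟨(volume (Metric.ball c (r / 2))).toReal, ENNReal.toReal_pos hpos.ne' hfin, r / (2 * (n + 1)),
    by positivity, fun s hs hs0 x => ?_⟩
  have hns : n * s ≤ r / 2 := by
    rw [lt_div_iff₀ (by positivity)] at hs0
    nlinarith
  have hS := Fold_supp hs hb x
  set S := hS.toFinset with hSdef
  have hcov : Metric.ball c (r / 2) ⊆ ⋃ w ∈ S, CC s (x + s • vc w) := by
    intro z hz
    have hq : z - x - s • vc (cell s (z - x)) ∈ Q s := (mem_Q_iff hs _ _).2 rfl
    simp only [mem_iUnion]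
    refine ⟨cell s (z - x), ?_, ?_⟩
    · rw [hSdef, Set.Finite.mem_toFinset, Function.mem_support]
      have h2 : x + s • vc (cell s (z - x)) ∈ Metric.ball c r := by
        rw [Metric.mem_ball, dist_eq_norm] at hz ⊢
        have h3 := norm_le_of_mem_Q hq
        have h4 : x + s • vc (cell s (z - x)) - c = (z - c) - (z - x - s • vc (cell s (z - x))) := by abel
        rw [h4]
        exact (norm_sub_le _ _).trans_lt (by linarith)
      have := h1 _ h2
      omega
    · change z - (x + s • vc (cell s (z - x))) ∈ Q s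
      rw [← sub_sub]
      exact hq
  have h5 : volume (Metric.ball c (r / 2)) ≤ ENNReal.ofReal (S.card * s ^ n) := by
    refine (measure_mono hcov).trans ((measure_biUnion_finset_le _ _).trans ?_)
    simp only [volume_CC hs]
    rw [Finset.sum_const, nsmul_eq_mul, ENNReal.ofReal_mul (by positivity), ENNReal.ofReal_natCast]
  have h6 : (volume (Metric.ball c (r / 2))).toReal ≤ S.card * s ^ n :=
    ENNReal.toReal_le_of_le_ofReal (by positivity) h5
  refine h6.trans (mul_le_mul_of_nonneg_right ?_ (by positivity))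
  have h7 : Fold s u x = ∑ w ∈ S, u (x + s • vc w) :=
    finsum_eq_sum_of_support_subset _ (by rw [hSdef]; simp)
  rw [h7]
  have h8 : (S.card : ℤ) ≤ ∑ w ∈ S, u (x + s • vc w) := by
    have : ∑ w ∈ S, (1 : ℤ) ≤ ∑ w ∈ S, u (x + s • vc w) := by
      refine Finset.sum_le_sum fun w hw => ?_
      rw [hSdef, Set.Finite.mem_toFinset, Function.mem_support] at hw
      have := h0 (x + s • vc w)
      omega
    simpa using this
  exact_mod_cast h8

theorem const_on {h : E n → ℤ} {S : Set (E n)} (hS : Convex ℝ S) (hd : Disjoint S (disc h)) {x y : E n}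
    (hx : x ∈ S) (hy : y ∈ S) : h x = h y := by
  refine hS.isPreconnected.constant (f := h) ?_ hx hy
  intro z hz
  have h1 : z ∉ disc h := fun h2 => Set.disjoint_left.1 hd hz h2
  have h2 := not_disc.1 h1
  have : ContinuousAt h z := tendsto_const_nhds.congr' (h2.mono fun y hy => hy.symm)
  exact this.continuousWithinAt

theorem upper {h : E n → ℤ} (hh : JD h) {ε : ℝ} (hε : 0 < ε) :
    ∃ s0 > 0, ∀ s, 0 < s → s < s0 → ∀ x y, |(Fold s h x : ℝ) - Fold s h y| * s ^ n ≤ ε := by
  obtain ⟨⟨R, hR⟩, hfin, hnd⟩ := id hh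
  have hb : BS h := ⟨R, hR⟩
  -- bound
  obtain ⟨M, hM0, hM⟩ : ∃ M : ℝ, 0 ≤ M ∧ ∀ x, |(h x : ℝ)| ≤ M := by
    obtain ⟨M, hM⟩ := (hfin.image fun a : ℤ => |(a : ℝ)|).bddAbove
    refine ⟨M, (abs_nonneg _).trans (hM ⟨h 0, ⟨0, rfl⟩, rfl⟩), fun x => hM ⟨h x, ⟨x, rfl⟩, rfl⟩⟩
  have hK : IsCompact (disc h) := by
    refine Metric.isCompact_of_isClosed_isBounded (isClosed_disc h) ?_
    refine (Metric.isBounded_closedBall (x := (0 : E n)) (r := R)).subset fun x hx => ?_
    rw [mem_closedBall_zero_iff]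
    by_contra hc
    push Not at hc
    apply hx
    have : {y : E n | R < ‖y‖} ∈ 𝓝 x := (isOpen_lt continuous_const continuous_norm).mem_nhds hc
    have hz : ∀ y : E n, R < ‖y‖ → h y = 0 := by
      intro y hy
      by_contra h2
      exact absurd (hR y h2) (not_le.2 hy)
    filter_upwards [this] with y hy
    rw [hz y hy, hz x hc]
  have ht := tendsto_measure_cthickening_of_isCompact (μ := volume) hK
  rw [show volume (disc h) = 0 from hnd] at ht
  have hε' : (0 : ENNReal) < ENNReal.ofReal (ε / (2 * M + 1)) := by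
    rw [ENNReal.ofReal_pos]
    positivity
  have hev := (tendsto_order.1 ht).2 _ hε'
  obtain ⟨δ0, hδ0, hδ⟩ := Metric.eventually_nhds_iff.1 hev
  refine ⟨δ0 / (n + 1), by positivity, fun s hs hs0 => ?_⟩
  have hnsδ : n * s < δ0 := by
    rw [lt_div_iff₀ (by positivity)] at hs0
    nlinarith
  have hvol := hδ (y := n * s) (by
    rw [Real.dist_eq, sub_zero, abs_of_nonneg (by positivity)]
    exact hnsδ)
  have main : ∀ x ∈ Q s, ∀ y ∈ Q s, |(Fold s h x : ℝ) - Fold s h y| * s ^ n ≤ ε := by
    intro x hx y hy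
    have fx := Fold_supp hs hb x
    have fy := Fold_supp hs hb y
    have hTfin : {w : Fin n → ℤ | h (x + s • vc w) ≠ h (y + s • vc w)}.Finite := by
      refine (fx.union fy).subset fun w hw => ?_
      by_contra hc
      rw [mem_union, not_or, Function.notMem_support, Function.notMem_support] at hc
      exact hw (by rw [hc.1, hc.2])
    set T := hTfin.toFinset with hT
    have hT' : ∀ w, w ∈ T ↔ h (x + s • vc w) ≠ h (y + s • vc w) := by
      intro w
      rw [hT, Set.Finite.mem_toFinset]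
      rfl
    have e1 : Fold s h x - Fold s h y = ∑ w ∈ T, (h (x + s • vc w) - h (y + s • vc w)) := by
      unfold Fold
      rw [← finsum_sub_distrib fx fy]
      apply finsum_eq_sum_of_support_subset
      intro w hw
      rw [Finset.mem_coe, hT']
      intro h2
      apply hw
      simp [h2]
    have e2 : |(Fold s h x : ℝ) - Fold s h y| ≤ T.card * (2 * M) := by
      have : (Fold s h x : ℝ) - Fold s h y = ∑ w ∈ T, ((h (x + s • vc w) : ℝ) - h (y + s • vc w)) := by
        exact_mod_cast e1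
      rw [this]
      refine (Finset.abs_sum_le_sum_abs _ _).trans ?_
      rw [← nsmul_eq_mul, ← Finset.sum_const]
      refine Finset.sum_le_sum fun w _ => ?_
      have a := hM (x + s • vc w)
      have b := hM (y + s • vc w)
      refine (abs_sub _ _).trans ?_
      linarith
    have e3 : ∀ w ∈ T, CC s (s • vc w) ⊆ Metric.cthickening (n * s) (disc h) := by
      intro w hw
      have hx' : x + s • vc w ∈ CC s (s • vc w) := by
        change x + s • vc w - s • vc w ∈ Q s
        rwa [add_sub_cancel_right]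
      have hy' : y + s • vc w ∈ CC s (s • vc w) := by
        change y + s • vc w - s • vc w ∈ Q s
        rwa [add_sub_cancel_right]
      have hconv : Convex ℝ (CC s (s • vc w) : Set (E n)) := by
        have : (CC s (s • vc w) : Set (E n)) = (fun z => z + (- (s • vc w))) ⁻¹' Q s := by
          ext z
          simp [CC, sub_eq_add_neg]
        rw [this]
        exact (convex_Q s).translate_preimage_left _
      have hnd : ¬ Disjoint (CC s (s • vc w)) (disc h) := fun hd =>
        (hT' w).1 hw (const_on hconv hd hx' hy')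
      rw [Set.not_disjoint_iff] at hnd
      obtain ⟨p, hp1, hp2⟩ := hnd
      intro z hz
      refine Metric.mem_cthickening_of_dist_le z p _ _ hp2 ?_
      have := dist_Q hz hp1
      rw [dist_eq_norm]
      simpa using this
    have e4 : ENNReal.ofReal (T.card * s ^ n) ≤ ENNReal.ofReal (ε / (2 * M + 1)) := by
      have h1 : volume (⋃ w ∈ T, CC s (s • vc w)) = ∑ w ∈ T, volume (CC s (s • vc w) : Set (E n)) := by
        apply measure_biUnion_finset
        · intro w _ w' _ hww
          refine Set.disjoint_left.2 fun z h1 h2 => hww ?_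
          rw [(mem_Q_iff hs z w).1 h1, (mem_Q_iff hs z w').1 h2]
        · intro w _
          exact measurableSet_CC _ _
      have h2 : volume (⋃ w ∈ T, CC s (s • vc w)) ≤ volume (Metric.cthickening (n * s) (disc h)) :=
        measure_mono (iUnion₂_subset e3)
      rw [h1] at h2
      simp only [volume_CC hs] at h2
      rw [Finset.sum_const, nsmul_eq_mul, ← ENNReal.ofReal_natCast, ← ENNReal.ofReal_mul (by positivity)] at h2
      exact h2.trans hvol.le
    have e5 : T.card * s ^ n ≤ ε / (2 * M + 1) :=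
      (ENNReal.ofReal_le_ofReal_iff (by positivity)).1 e4
    have e6 : (T.card * s ^ n) * (2 * M) ≤ ε := by
      rw [le_div_iff₀ (by positivity)] at e5
      have : 0 ≤ T.card * s ^ n := by positivity
      nlinarith
    calc |(Fold s h x : ℝ) - Fold s h y| * s ^ n ≤ (T.card * (2 * M)) * s ^ n :=
          mul_le_mul_of_nonneg_right e2 (by positivity)
      _ = (T.card * s ^ n) * (2 * M) := by ring
      _ ≤ ε := e6
  intro x y
  have a := main _ ((mem_Q_iff hs x _).2 rfl) _ ((mem_Q_iff hs y _).2 rfl)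
  rwa [Fold_per', Fold_per'] at a

theorem key_est {ι : Type} [Fintype ι] {u : E n → ℤ} (hb : BS u) (h0 : ∀ x, 0 ≤ u x) (c : E n) {r : ℝ}
    (hr : 0 < r) (h1 : ∀ x ∈ Metric.ball c r, 1 ≤ u x) (h : ι → E n → ℤ) (hh : ∀ i, JD (h i)) :
    ∃ s : ℝ, 0 < s ∧ ∃ κ : ι → ℤ, ∃ b : ℤ, 0 ≤ b ∧ (∀ i x, |Fold s (h i) x - κ i| ≤ b) ∧
      ∀ x, 2 * (Fintype.card ι) * b ≤ Fold s u x := by
  obtain ⟨c0, hc0, s0, hs0, hlow⟩ := lower hb h0 c hr h1
  set N : ℝ := (Fintype.card ι : ℝ) with hN
  have hN0 : 0 ≤ N := by positivity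
  set ε : ℝ := c0 / (2 * N + 1) with hε
  have hε0 : 0 < ε := by positivity
  choose s1 hs1 hup using fun i => upper (hh i) hε0
  obtain ⟨s, hs, hss0, hss1⟩ : ∃ s : ℝ, 0 < s ∧ s < s0 ∧ ∀ i, s < s1 i := by
    have e1 : ∀ᶠ s in 𝓝[>] (0 : ℝ), s < s0 := nhdsWithin_le_nhds (eventually_lt_nhds hs0)
    have e2 : ∀ᶠ s in 𝓝[>] (0 : ℝ), ∀ i, s < s1 i :=
      eventually_all.2 fun i => nhdsWithin_le_nhds (eventually_lt_nhds (hs1 i))
    have e3 : ∀ᶠ s in 𝓝[>] (0 : ℝ), 0 < s := self_mem_nhdsWithin
    obtain ⟨s, a, b, c⟩ := (e1.and (e2.and e3)).exists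
    exact ⟨s, c, a, b⟩
  have hsn : 0 < s ^ n := by positivity
  refine ⟨s, hs, fun i => Fold s (h i) 0, ⌊ε / s ^ n⌋, Int.floor_nonneg.2 (by positivity), fun i x => ?_,
    fun x => ?_⟩
  · rw [Int.le_floor]
    have := hup i s hs (hss1 i) x 0
    push_cast
    rw [le_div_iff₀ hsn]
    exact this
  · have h2 := hlow s hs hss0 x
    have h3 : (⌊ε / s ^ n⌋ : ℝ) ≤ ε / s ^ n := Int.floor_le _
    have h4 : (2 * N * ⌊ε / s ^ n⌋ : ℝ) ≤ Fold s u x := by
      have h5 : 2 * N * ε ≤ c0 := by
        rw [hε, mul_div_assoc', div_le_iff₀ (by positivity)]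
        nlinarith
      calc (2 * N * ⌊ε / s ^ n⌋ : ℝ) ≤ 2 * N * (ε / s ^ n) := mul_le_mul_of_nonneg_left h3 (by positivity)
        _ = 2 * N * ε / s ^ n := by ring
        _ ≤ c0 / s ^ n := div_le_div_of_nonneg_right h5 hsn.le
        _ ≤ Fold s u x := by
          rw [div_le_iff₀ hsn]
          exact h2
    rw [hN] at h4
    exact_mod_cast h4

end

end Pool.Agent.H92R3.Canc
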