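import Pool.Agent.H92R3.CxL
import Pool.Agent.H92R3.CxM

set_option autoImplicit false
set_option linter.unusedVariables false

namespace Pool.Agent.H92R3.Canc

open MeasureTheory Set Filter Topology

noncomputable section

variable {n : ℕ}

theorem rep_pos {u : E n → ℤ} (hu : J u) (h0 : ∀ᵐ x, 0 ≤ u x) :
    ∃ u' : E n → ℤ, J u' ∧ BS u' ∧ (∀ x, 0 ≤ u' x) ∧ ∀ᵐ x, u x = u' x := by
  obtain ⟨f, hf, hae⟩ := hu
  have hf2 := hf.map (fun a : ℤ => max a 0) (by simp)
  refine ⟨fun x => max (f x) 0, hf2.toJ, hf2.1, fun x => le_max_right _ _, ?_⟩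
  filter_upwards [hae, h0] with x a b
  rw [← a, max_eq_left b]

theorem rep_pos' {u : E n → ℤ} (hu : J u) (h0 : ∀ᵐ x, 0 ≤ u x) {c : E n} {r : ℝ}
    (h1 : ∀ᵐ x, x ∈ Metric.ball c r → 1 ≤ u x) :
    ∃ u' : E n → ℤ, J u' ∧ BS u' ∧ (∀ x, 0 ≤ u' x) ∧ (∀ x ∈ Metric.ball c r, 1 ≤ u' x) ∧ ∀ᵐ x, u x = u' x := by
  classical
  obtain ⟨f, hf, ⟨R, hR⟩, hf0, hae⟩ := rep_pos hu h0
  have hae2 : ∀ᵐ x, u x = (fun x => if x ∈ Metric.ball c r then max (f x) 1 else f x) x := by
    filter_upwards [hae, h1] with x a b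
    by_cases h : x ∈ Metric.ball c r
    · simp only [h, if_true]
      rw [← a, max_eq_left (b h)]
    · simp only [h, if_false]
      exact a
  refine ⟨fun x => if x ∈ Metric.ball c r then max (f x) 1 else f x, ?_, ?_, fun x => ?_, fun x hx => ?_, hae2⟩
  · exact hu.congr (hae2.mono fun x hx => hx.symm)
  · refine ⟨max R (‖c‖ + r), fun x hx => ?_⟩
    by_cases h : x ∈ Metric.ball c r
    · rw [Metric.mem_ball, dist_eq_norm] at h
      refine le_trans ?_ (le_max_right _ _)
      calc ‖x‖ = ‖c + (x - c)‖ := by rw [add_sub_cancel]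
        _ ≤ ‖c‖ + ‖x - c‖ := norm_add_le _ _
        _ ≤ _ := by linarith
    · simp only [h, if_false] at hx
      exact (hR x hx).trans (le_max_left _ _)
  · by_cases h : x ∈ Metric.ball c r
    · simp only [h, if_true]
      exact (hf0 x).trans (le_max_left _ _)
    · simp only [h, if_false]
      exact hf0 x
  · simp only [hx, if_true]
    exact le_max_right _ _

theorem Cob.rep {f : E n → ℤ} (h : Cob f) : ∃ (ι : Type) (_ : Fintype ι) (h : ι → E n → ℤ) (v : ι → E n),
    (∀ i, JD (h i)) ∧ ∀ᵐ x, f x = ∑ i, (h i x - h i (x - v i)) := by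
  obtain ⟨ι, _, h, v, h1, h2⟩ := h
  choose h' hJ hae using h1
  refine ⟨ι, inferInstance, h', v, hJ, ?_⟩
  have a1 : ∀ᵐ x, ∀ i, h i x = h' i x := eventually_countable_forall.2 hae
  have a2 : ∀ᵐ x, ∀ i, h i (x - v i) = h' i (x - v i) := eventually_countable_forall.2 fun i => ae_tr _ (hae i)
  filter_upwards [h2, a1, a2] with x a b c
  rw [a]
  apply Finset.sum_congr rfl
  intro i _
  rw [b, c]

theorem Fold_sub {s : ℝ} (hs : 0 < s) {f g : E n → ℤ} (hf : BS f) (hg : BS g) (x : E n) :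
    Fold s (fun x => f x - g x) x = Fold s f x - Fold s g x := by
  unfold Fold
  rw [← finsum_sub_distrib (Fold_supp hs hf x) (Fold_supp hs hg x)]

theorem Fold_mul (s : ℝ) (k : ℤ) (f : E n → ℤ) (x : E n) (h : (Function.support fun w : Fin n → ℤ => f (x + s • vc w)).Finite) :
    Fold s (fun x => k * f x) x = k * Fold s f x := by
  unfold Fold
  exact (mul_finsum _ _).symm

theorem T3 {u v : E n → ℤ} (hu : J u) (hv : J v) (hu0 : ∀ᵐ x, 0 ≤ u x) (hv0 : ∀ᵐ x, 0 ≤ v x) {c : E n} {r : ℝ}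
    (hr : 0 < r) (h1 : ∀ᵐ x, x ∈ Metric.ball c r → 1 ≤ u x) (hcob : Cob (fun x => u x - v x)) : Eqd u v := by
  obtain ⟨u', hu', hbu, hu'0, hu'1, huae⟩ := rep_pos' hu hu0 h1
  obtain ⟨v', hv', hbv, hv'0, hvae⟩ := rep_pos hv hv0
  have hcob' : Cob (fun x => u' x - v' x) := hcob.congr (by
    filter_upwards [huae, hvae] with x a b
    rw [a, b])
  obtain ⟨ι, _, h, w, hh, hae⟩ := hcob'.rep
  obtain ⟨s, hs, κ, b, hb, hosc, hlow⟩ := key_est hbu hu'0 c hr hu'1 h hh
  have hfold := Fold_cob hs (fun i => (hh i).1) hae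
  let Gp : ι → E n → ℤ := fun i x => max (Fold s (h i) x - κ i) 0
  let Gm : ι → E n → ℤ := fun i x => max (-(Fold s (h i) x - κ i)) 0
  have hGp_per : ∀ i x w, Gp i (x + s • vc w) = Gp i x := fun i x w => by simp only [Gp, Fold_per]
  have hGm_per : ∀ i x w, Gm i (x + s • vc w) = Gm i x := fun i x w => by simp only [Gm, Fold_per]
  have hGp0 : ∀ i x, 0 ≤ Gp i x := fun i x => le_max_right _ _
  have hGm0 : ∀ i x, 0 ≤ Gm i x := fun i x => le_max_right _ _
  have hGpb : ∀ i x, Gp i x ≤ b := fun i x => max_le ((le_abs_self _).trans (hosc i x)) hb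
  have hGmb : ∀ i x, Gm i x ≤ b := fun i x => max_le ((neg_le_abs _).trans (hosc i x)) hb
  have hGpJ : ∀ i, J (res s (Gp i)) := fun i => J_res_Fold hs (hh i).toJ (hh i).1 (fun a => max (a - κ i) 0)
  have hGmJ : ∀ i, J (res s (Gm i)) := fun i => J_res_Fold hs (hh i).toJ (hh i).1 (fun a => max (-(a - κ i)) 0)
  have e1 : ∀ i, Eqd (res s (Gp i)) (res s (fun x => Gp i (x - w i))) := fun i =>
    shift_eqd hs (hGp_per i) (hGp0 i) (hGpJ i) (w i)
  have e2 : ∀ i, Eqd (res s (fun x => Gm i (x - w i))) (res s (Gm i)) := fun i =>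
    (shift_eqd hs (hGm_per i) (hGm0 i) (hGmJ i) (w i)).symm
  have e3 : Eqd (fun x => ∑ i, (res s (Gp i) x + res s (fun x => Gm i (x - w i)) x))
      (fun x => ∑ i, (res s (fun x => Gp i (x - w i)) x + res s (Gm i) x)) :=
    Eqd.sum Finset.univ fun i _ => (e1 i).add (e2 i)
  let W : E n → ℤ := fun x => Fold s u' x - ∑ i, (Gp i x + Gm i (x - w i))
  have hW0 : ∀ x, 0 ≤ W x := by
    intro x
    have h2 : ∑ i, (Gp i x + Gm i (x - w i)) ≤ ∑ i : ι, (b + b) :=
      Finset.sum_le_sum fun i _ => add_le_add (hGpb i x) (hGmb i _)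
    rw [Finset.sum_const, Finset.card_univ, nsmul_eq_mul] at h2
    have := hlow x
    simp only [W]
    linarith
  have hUJ : J (res s (Fold s u')) := (fold_eqd hs hu' hbu hu'0).J_right
  have hWJ : J (res s W) := by
    refine (hUJ.sub e3.J_left).congr (Eventually.of_forall fun x => ?_)
    simp only [Pi.sub_apply]
    by_cases h : x ∈ Q s
    · simp only [res_pos h]
      rfl
    · simp only [res_neg h]
      simp
  have hWn : ∀ x, 0 ≤ res s W x := by
    intro x
    by_cases h : x ∈ Q s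
    · rw [res_pos h]; exact hW0 _
    · rw [res_neg h]
  have e4 := (Eqd.refl hWJ hWn).add e3
  have e5 : Eqd (res s (Fold s u')) (res s (Fold s v')) := by
    refine e4.congr (Eventually.of_forall fun x => ?_) ?_
    · by_cases h : x ∈ Q s
      · simp only [res_pos h, W]
        ring
      · simp only [res_neg h]
        simp
    · filter_upwards [hfold] with x hx
      rw [Fold_sub hs hbu hbv] at hx
      by_cases h' : x ∈ Q s
      · simp only [res_pos h', W]
        have h2 : ∑ i, (Fold s (h i) x - Fold s (h i) (x - w i)) = ∑ i, (Gp i x + Gm i (x - w i))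
            - ∑ i, (Gp i (x - w i) + Gm i x) := by
          rw [← Finset.sum_sub_distrib]
          apply Finset.sum_congr rfl
          intro i _
          have a1 : ∀ a : ℤ, a = max a 0 - max (-a) 0 := by
            intro a
            rcases le_total 0 a with h | h
            · rw [max_eq_left h, max_eq_right (by linarith)]; ring
            · rw [max_eq_right h, max_eq_left (by linarith)]; ring
          have b1 := a1 (Fold s (h i) x - κ i)
          have b2 := a1 (Fold s (h i) (x - w i) - κ i)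
          simp only [Gp, Gm]
          linarith
        rw [h2] at hx
        linarith
      · simp only [res_neg h']
        simp
  refine (((fold_eqd hs hu' hbu hu'0).trans e5).trans (fold_eqd hs hv' hbv hv'0).symm).congr huae hvae

theorem T4 {P w : E n → ℤ} (hP : J P) (hw : J w) (hP0 : ∀ᵐ x, 0 ≤ P x) {c : E n} {r : ℝ}
    (hr : 0 < r) (h1 : ∀ᵐ x, x ∈ Metric.ball c r → 1 ≤ P x) (k : ℕ) (hk : 0 < k)
    (hcob : Cob (fun x => P x - k * w x)) :
    ∃ w' : E n → ℤ, J w' ∧ (∀ x, 0 ≤ w' x) ∧ Cob (fun x => w x - w' x) := by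
  obtain ⟨P', hP', hbP, hP'0, hP'1, hPae⟩ := rep_pos' hP hP0 h1
  obtain ⟨w1, hw1, hwae⟩ := id hw
  have hbw : BS w1 := hw1.1
  have hbkw : BS (fun x => (k : ℤ) * w1 x) := by
    obtain ⟨R, hR⟩ := hbw
    exact ⟨R, fun x hx => hR x fun h => hx (by simp [h])⟩
  have hcob' : Cob (fun x => P' x - k * w1 x) := hcob.congr (by
    filter_upwards [hPae, hwae] with x a b
    rw [a, b])
  obtain ⟨ι, _, h, v, hh, hae⟩ := hcob'.rep
  obtain ⟨s, hs, κ, b, hb, hosc, hlow⟩ := key_est hbP hP'0 c hr hP'1 h hh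
  have hfold := Fold_cob hs (fun i => (hh i).1) hae
  have hpos : ∀ᵐ x, 0 ≤ Fold s w1 x := by
    filter_upwards [hfold] with x hx
    rw [Fold_sub hs hbP hbkw, Fold_mul s k w1 x (Fold_supp hs hbw x)] at hx
    have h2 : ∑ i, (Fold s (h i) x - Fold s (h i) (x - v i)) ≤ ∑ i : ι, (b + b) := by
      refine Finset.sum_le_sum fun i _ => ?_
      have a := abs_le.1 (hosc i x)
      have b := abs_le.1 (hosc i (x - v i))
      linarith
    rw [Finset.sum_const, Finset.card_univ, nsmul_eq_mul] at h2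
    have h3 := hlow x
    have h4 : 0 ≤ (k : ℤ) * Fold s w1 x := by linarith
    have hk' : (0 : ℤ) < k := by exact_mod_cast hk
    exact nonneg_of_mul_nonneg_right h4 hk'
  refine ⟨res s (fun x => max (Fold s w1 x) 0), J_res_Fold hs hw1.toJ hbw (fun a => max a 0), fun x => ?_, ?_⟩
  · by_cases h : x ∈ Q s
    · rw [res_pos h]; exact le_max_right _ _
    · rw [res_neg h]
  · refine (fold_cob hs hw1.toJ hbw).congr ?_
    filter_upwards [hwae, hpos] with x a b
    rw [a]
    by_cases h : x ∈ Q s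
    · rw [res_pos h, res_pos h, max_eq_left b]
    · rw [res_neg h, res_neg h]

end

end Pool.Agent.H92R3.Canc
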