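import Pool.Agent.H92R3.CxN

set_option autoImplicit false
set_option linter.unusedVariables false

namespace Pool.Agent.H92R3.Canc

open MeasureTheory Set Filter Topology

noncomputable section

variable {n : ℕ}

/-- a nonnegative J-function is null or `≥ 1` on a ball -/
theorem null_or_ball {f : E n → ℤ} (hf : J f) (h0 : ∀ x, 0 ≤ f x) :
    (∀ᵐ x, f x = 0) ∨ ∃ c : E n, ∃ r : ℝ, 0 < r ∧ ∀ᵐ x, x ∈ Metric.ball c r → 1 ≤ f x := by
  obtain ⟨f', ⟨-, -, hnd⟩, hae⟩ := hf
  by_cases h : ∀ x, x ∉ disc f' → f' x = 0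
  · left
    filter_upwards [hae, hnd.ae] with x a b
    rw [a, h x (not_disc.2 b)]
  · right
    push Not at h
    obtain ⟨c, hc, hne⟩ := h
    obtain ⟨r, hr, hball⟩ := Metric.eventually_nhds_iff_ball.1 (not_disc.1 hc)
    refine ⟨c, r, hr, ?_⟩
    -- value at c is positive
    have hpos : 1 ≤ f' c := by
      have h1 : 0 < volume (Metric.ball c r) := Metric.measure_ball_pos _ _ hr
      by_contra hlt
      have h2 : volume (Metric.ball c r) = 0 := by
        refine measure_mono_null (fun x hx => ?_) (show volume {x | ¬ f x = f' x} = 0 from hae)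
        intro h3
        have h4 := hball x hx
        have h5 := h0 x
        rw [h3, h4] at h5
        omega
      exact h1.ne' h2
    filter_upwards [hae] with x a hx
    rw [a, hball x hx]
    exact hpos

/-- **Cancellation for functions.** -/
theorem cancel_fun (j0 : Fin n) {u v : E n → ℤ} (hu : J u) (hv : J v) (hu0 : ∀ x, 0 ≤ u x) (hv0 : ∀ x, 0 ≤ v x)
    (k : ℕ) (hk : 0 < k) (h : Eqd (fun x => k * u x) (fun x => k * v x)) : Eqd u v := by
  have : NeZero k := ⟨hk.ne'⟩
  have hkZ : (0 : ℤ) < k := by exact_mod_cast hk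
  obtain ⟨ι, _, f, g, hfJ, hf0, hfu, hfv⟩ := h
  -- degenerate cases
  have deg : (∀ᵐ x, u x = 0) ∨ (∀ᵐ x, v x = 0) → Eqd u v := by
    intro hd
    have hall : ∀ᵐ x, ∀ i, f i x = 0 := by
      rcases hd with hd | hd
      · filter_upwards [hd, hfu] with x a b i
        rw [a, mul_zero] at b
        exact (Finset.sum_eq_zero_iff_of_nonneg fun i _ => hf0 i x).1 b.symm i (Finset.mem_univ i)
      · have h1 : ∀ᵐ x, ∀ i, f i ((g i).symm x) = 0 := by
          filter_upwards [hd, hfv] with x a b i
          rw [a, mul_zero] at b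
          exact (Finset.sum_eq_zero_iff_of_nonneg fun i _ => hf0 i ((g i).symm x)).1 b.symm i (Finset.mem_univ i)
        have h2 : ∀ᵐ x, ∀ i, f i ((g i).symm (g i x)) = 0 := by
          have h3 : ∀ᵐ x, ∀ i, ∀ i', f i' ((g i').symm (g i x)) = 0 :=
            eventually_countable_forall.2 fun i => ae_iso (g i) h1
          filter_upwards [h3] with x a i
          exact a i i
        simpa using h2
    have hu' : ∀ᵐ x, u x = (0 : E n → ℤ) x := by
      filter_upwards [hall, hfu] with x a b
      simp only [a, Finset.sum_const_zero] at b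
      have := (mul_eq_zero.1 b).resolve_left hkZ.ne'
      rw [this]; rfl
    have hv' : ∀ᵐ x, v x = (0 : E n → ℤ) x := by
      have h3 : ∀ᵐ x, ∀ i, ∀ i', f i' ((g i).symm x) = 0 :=
        eventually_countable_forall.2 fun i => ae_iso (g i).symm hall
      filter_upwards [h3, hfv] with x a b
      simp only [a, Finset.sum_const_zero] at b
      have := (mul_eq_zero.1 b).resolve_left hkZ.ne'
      rw [this]; rfl
    exact Eqd.zero.congr hu' hv'
  rcases null_or_ball hu hu0 with h1 | ⟨c, r, hr, hball⟩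
  · exact deg (Or.inl h1)
  rcases null_or_ball hv hv0 with h2 | ⟨c', r', hr', hball'⟩
  · exact deg (Or.inr h2)
  -- divide the pieces
  have hw : ∀ i, ∃ w : E n → ℤ, J w ∧ (∀ x, 0 ≤ w x) ∧ Cob (fun x => f i x - k * w x) := by
    intro i
    rcases null_or_ball (hfJ i) (hf0 i) with h3 | ⟨d, ρ, hρ, hb⟩
    · refine ⟨0, J.zero, fun x => le_rfl, Cob.zero.congr ?_⟩
      filter_upwards [h3] with x hx
      rw [hx]
      simp
    · obtain ⟨Θ, w, hΘ, hw, hae⟩ := T1 j0 k (f i) (hfJ i)
      have hc : Cob (fun x => f i x - k * w x) := by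
        refine (Cob.sum Finset.univ fun i _ => Cob.gen (hΘ i) (ee j0 (mu i))).congr ?_
        filter_upwards [hae] with x a
        rw [a]
        ring
      obtain ⟨w', hw', hw'0, hc'⟩ := T4 (hfJ i) hw (Eventually.of_forall (hf0 i)) hρ hb k hk hc
      refine ⟨w', hw', hw'0, ?_⟩
      have hkc : Cob (fun x => (k : ℤ) * (w x - w' x)) := by
        have := Cob.sum (Finset.range k) (f := fun _ x => w x - w' x) fun _ _ => hc'
        refine this.congr (Eventually.of_forall fun x => ?_)
        rw [Finset.sum_const, Finset.card_range, nsmul_eq_mul]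
      refine (hc.add hkc).congr (Eventually.of_forall fun x => ?_)
      ring
  choose w hwJ hw0 hwc using hw
  have hWuJ : J (fun x => ∑ i, w i x) := by
    refine (J.sum Finset.univ fun i _ => hwJ i).congr (Eventually.of_forall fun x => ?_)
    rw [Finset.sum_apply]
  have hWvJ : J (fun x => ∑ i, w i ((g i).symm x)) := by
    refine (J.sum Finset.univ fun i _ => (hwJ i).iso (g i).symm).congr (Eventually.of_forall fun x => ?_)
    rw [Finset.sum_apply]
  have c1 : Cob (fun x => k * (u x - ∑ i, w i x)) := by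
    refine (Cob.sum Finset.univ fun i _ => hwc i).congr ?_
    filter_upwards [hfu] with x a
    rw [mul_sub, a, Finset.sum_sub_distrib, Finset.mul_sum]
  have c2 : Cob (fun x => k * (v x - ∑ i, w i ((g i).symm x))) := by
    refine (Cob.sum Finset.univ fun i _ => (hwc i).iso (g i).symm).congr ?_
    filter_upwards [hfv] with x a
    rw [mul_sub, a, Finset.sum_sub_distrib, Finset.mul_sum]
  have d1 := T2 j0 k _ (hu.sub hWuJ) c1
  have d2 := T2 j0 k _ (hv.sub hWvJ) c2
  have g1 : Eqd u (fun x => ∑ i, w i x) := T3 hu hWuJ (Eventually.of_forall hu0)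
    (Eventually.of_forall fun x => Finset.sum_nonneg fun i _ => hw0 i x) hr hball d1
  have g2 : Eqd v (fun x => ∑ i, w i ((g i).symm x)) := T3 hv hWvJ (Eventually.of_forall hv0)
    (Eventually.of_forall fun x => Finset.sum_nonneg fun i _ => hw0 i _) hr' hball' d2
  have g3 : Eqd (fun x => ∑ i, w i x) (fun x => ∑ i, w i ((g i).symm x)) :=
    Eqd.sum Finset.univ fun i _ => Eqd.iso (hwJ i) (hw0 i) (g i)
  exact (g1.trans g3).trans g2.symm

end

end Pool.Agent.H92R3.Canc
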