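import Mathlib
set_option autoImplicit false

namespace Pool.Agent.H92R3

open Module

theorem exists_eigenbasis {K V : Type*} [Field K] [IsAlgClosed K] [CharZero K] [AddCommGroup V]
    [Module K V] [FiniteDimensional K V] (f : Module.End K V) (M : ℕ) (hM : M ≠ 0) (hf : f ^ M = 1)
    (n : ℕ) (hn : finrank K V = n) :
    ∃ (b : Basis (Fin n) K V) (ζ : Fin n → K), (∀ i, f (b i) = ζ i • b i) ∧ ∀ i, ζ i ^ M = 1 := by
  classical
  have hss : f.IsSemisimple := by
    apply Module.End.isSemisimple_of_squarefree_aeval_eq_zero (p := Polynomial.X ^ M - 1)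
    · have h1 : (Polynomial.X ^ M - 1 : Polynomial K).Separable := by
        have := Polynomial.separable_X_pow_sub_C (F := K) (n := M) (1 : K) (by exact_mod_cast hM)
          one_ne_zero
        simpa using this
      exact h1.squarefree
    · simp [hf]
  have htop := hss.iSup_eigenspace_eq_top
  have hind := Module.End.eigenspaces_iSupIndep f
  have hint : DirectSum.IsInternal (fun μ : K => f.eigenspace μ) :=
    DirectSum.isInternal_submodule_of_iSupIndep_of_iSup_eq_top hind htop
  let b0 := hint.collectedBasis (fun μ => Module.Free.chooseBasis K (f.eigenspace μ))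
  let e := b0.indexEquiv (Module.finBasisOfFinrankEq K V hn)
  refine ⟨b0.reindex e, fun i => (e.symm i).1, ?_, ?_⟩
  · intro i
    rw [Basis.reindex_apply]
    have := hint.collectedBasis_mem (fun μ => Module.Free.chooseBasis K (f.eigenspace μ)) (e.symm i)
    exact Module.End.mem_eigenspace_iff.1 this
  · intro i
    have h1 := hint.collectedBasis_mem (fun μ => Module.Free.chooseBasis K (f.eigenspace μ)) (e.symm i)
    have h2 : f (b0 (e.symm i)) = (e.symm i).1 • b0 (e.symm i) := Module.End.mem_eigenspace_iff.1 h1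
    have h3 : ∀ N : ℕ, (f ^ N) (b0 (e.symm i)) = (e.symm i).1 ^ N • b0 (e.symm i) := by
      intro N
      induction N with
      | zero => simp
      | succ N ih =>
        rw [pow_succ', Module.End.mul_apply, ih, map_smul, h2, smul_smul, pow_succ]
    have h4 := h3 M
    rw [hf, Module.End.one_apply] at h4
    have h5 : b0 (e.symm i) ≠ 0 := b0.ne_zero _
    have h6 : ((e.symm i).1 ^ M - 1) • b0 (e.symm i) = 0 := by
      rw [sub_smul, one_smul, ← h4, sub_self]
    rcases smul_eq_zero.1 h6 with h | h
    · exact sub_eq_zero.1 h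
    · exact absurd h h5

/-- left eigenvectors of a matrix of finite order -/
theorem exists_left_eigen (n : ℕ) (A : Matrix (Fin n) (Fin n) ℂ) (M : ℕ) (hM : M ≠ 0)
    (hA : A ^ M = 1) :
    ∃ (P Q : Matrix (Fin n) (Fin n) ℂ) (ζ : Fin n → ℂ), P * Q = 1 ∧ Q * P = 1 ∧
      (∀ i k, ∑ j, P i j * A j k = ζ i * P i k) ∧ ∀ i, ζ i ^ M = 1 := by
  classical
  let f : Module.End ℂ (Fin n → ℂ) := Matrix.toLin' A.transpose
  have hf : f ^ M = 1 := by
    change (Matrix.toLin' A.transpose) ^ M = 1
    rw [← Matrix.toLin'_pow, ← Matrix.transpose_pow, hA, Matrix.transpose_one, Matrix.toLin'_one]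
    rfl
  obtain ⟨b, ζ, h1, h2⟩ := exists_eigenbasis f M hM hf n (by simp)
  let P : Matrix (Fin n) (Fin n) ℂ := Matrix.of fun i j => b i j
  let B := (Pi.basisFun ℂ (Fin n)).toMatrix b
  have hB : B = P.transpose := by
    ext i j
    simp [B, P, Basis.toMatrix_apply]
  let C := b.toMatrix (Pi.basisFun ℂ (Fin n))
  have e1 : B * C = 1 := by
    have := Basis.toMatrix_mul_toMatrix (Pi.basisFun ℂ (Fin n)) b (Pi.basisFun ℂ (Fin n))
    rw [Basis.toMatrix_self] at this
    exact this
  have e2 : C * B = 1 := by
    have := Basis.toMatrix_mul_toMatrix b (Pi.basisFun ℂ (Fin n)) b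
    rw [Basis.toMatrix_self] at this
    exact this
  refine ⟨P, C.transpose, ζ, ?_, ?_, ?_, h2⟩
  · have := congrArg Matrix.transpose e2
    rw [Matrix.transpose_mul, hB, Matrix.transpose_transpose, Matrix.transpose_one] at this
    exact this
  · have := congrArg Matrix.transpose e1
    rw [Matrix.transpose_mul, hB, Matrix.transpose_transpose, Matrix.transpose_one] at this
    exact this
  · intro i k
    have h3 := congrFun (h1 i) k
    have h4 : f (b i) k = ∑ j, A j k * b i j := by
      simp [f, Matrix.toLin'_apply, Matrix.mulVec, dotProduct, Matrix.transpose_apply]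
    rw [h4] at h3
    simp only [Pi.smul_apply, smul_eq_mul] at h3
    have hP : ∀ i j, P i j = b i j := fun _ _ => rfl
    rw [hP i k, ← h3]
    apply Finset.sum_congr rfl
    intro j _
    rw [hP i j]
    ring

end Pool.Agent.H92R3
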