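import Mathlib
set_option autoImplicit false

namespace Pool.Agent.H92R3

open Module

section Trace

variable {k : Type*} [Field k] {A B C : Type*} [AddCommGroup A] [AddCommGroup B] [AddCommGroup C]
  [Module k A] [Module k B] [Module k C] [Module.Finite k A] [Module.Finite k B] [Module.Finite k C]

theorem trace_exact (i : A →ₗ[k] B) (q : B →ₗ[k] C) (hi : Function.Injective i)
    (hq : Function.Surjective q) (hex : LinearMap.range i = LinearMap.ker q)
    (fA : A →ₗ[k] A) (fB : B →ₗ[k] B) (fC : C →ₗ[k] C)
    (h1 : fB ∘ₗ i = i ∘ₗ fA) (h2 : q ∘ₗ fB = fC ∘ₗ q) :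
    LinearMap.trace k B fB = LinearMap.trace k A fA + LinearMap.trace k C fC := by
  obtain ⟨s, hs⟩ := LinearMap.exists_rightInverse_of_surjective q (LinearMap.range_eq_top.2 hq)
  obtain ⟨p, hp⟩ := LinearMap.exists_leftInverse_of_injective i (LinearMap.ker_eq_bot.2 hi)
  -- modify p so that p ∘ s = 0
  let p' : B →ₗ[k] A := p - p ∘ₗ s ∘ₗ q
  have hqi : q ∘ₗ i = 0 := by
    ext a
    have : i a ∈ LinearMap.ker q := hex ▸ LinearMap.mem_range_self i a
    simpa using this
  have hp' : p' ∘ₗ i = LinearMap.id := by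
    ext a
    have h3 : q (i a) = 0 := by simpa using LinearMap.congr_fun hqi a
    have h4 : p (i a) = a := by simpa using LinearMap.congr_fun hp a
    simp [p', h3, h4]
  have hsum : i ∘ₗ p' + s ∘ₗ q = LinearMap.id := by
    ext b
    have hb : b - s (q b) ∈ LinearMap.ker q := by
      have h3 : q (s (q b)) = q b := by simpa using LinearMap.congr_fun hs (q b)
      simp [h3]
    rw [← hex] at hb
    obtain ⟨a, ha⟩ := hb
    have h4 : p (i a) = a := by simpa using LinearMap.congr_fun hp a
    have h5 : p b - p (s (q b)) = a := by rw [← h4, ha, map_sub]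
    simp only [p', LinearMap.add_apply, LinearMap.comp_apply, LinearMap.sub_apply, LinearMap.id_apply]
    rw [h5, ha]
    abel
  calc LinearMap.trace k B fB = LinearMap.trace k B (fB ∘ₗ (i ∘ₗ p' + s ∘ₗ q)) := by
        rw [hsum, LinearMap.comp_id]
    _ = LinearMap.trace k B (fB ∘ₗ i ∘ₗ p') + LinearMap.trace k B (fB ∘ₗ s ∘ₗ q) := by
        rw [LinearMap.comp_add, map_add]
    _ = LinearMap.trace k A fA + LinearMap.trace k C fC := by
        congr 1
        · rw [← LinearMap.comp_assoc, h1, LinearMap.trace_comp_comm', ← LinearMap.comp_assoc, hp',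
            LinearMap.id_comp]
        · rw [← LinearMap.comp_assoc, LinearMap.trace_comp_comm', ← LinearMap.comp_assoc, h2,
            LinearMap.comp_assoc, hs, LinearMap.comp_id]

end Trace

end Pool.Agent.H92R3
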