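import Mathlib
import Pool.Agent.H92R3.Tr
set_option autoImplicit false

namespace Pool.Agent.H92R3

open Module

section Exchange

variable {k : Type*} [Field k] {R : Type*} [CommRing R] [Algebra k R]

/-- induced endomorphism of a quotient -/
noncomputable def qmap (σ : R →ₐ[k] R) (J : Ideal R) (h : J ≤ J.comap σ) : (R ⧸ J) →ₐ[k] (R ⧸ J) :=
  Ideal.quotientMapₐ J σ h

open Classical in
/-- trace of the induced endomorphism -/
noncomputable def qtr (σ : R →ₐ[k] R) (J : Ideal R) : k :=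
  if h : J ≤ J.comap σ then LinearMap.trace k (R ⧸ J) (qmap σ J h).toLinearMap else 0

theorem qtr_eq (σ : R →ₐ[k] R) (J : Ideal R) (h : J ≤ J.comap σ) :
    qtr σ J = LinearMap.trace k (R ⧸ J) (qmap σ J h).toLinearMap := by
  unfold qtr; rw [dif_pos h]

theorem qmap_mk (σ : R →ₐ[k] R) (J : Ideal R) (h : J ≤ J.comap σ) (r : R) :
    qmap σ J h (Ideal.Quotient.mk J r) = Ideal.Quotient.mk J (σ r) := rfl

theorem stable_sup_span (σ : R →ₐ[k] R) (K : Ideal R) (hK : K ≤ K.comap σ) (b : R) (β : k)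
    (hb : σ b = algebraMap k R β * b) : K ⊔ Ideal.span {b} ≤ (K ⊔ Ideal.span {b}).comap σ := by
  rw [sup_le_iff]
  refine ⟨hK.trans (Ideal.comap_mono le_sup_left), ?_⟩
  rw [Ideal.span_singleton_le_iff_mem, Ideal.mem_comap]
  change σ b ∈ _
  rw [hb]
  exact Ideal.mul_mem_left _ _ (Ideal.mem_sup_right (Ideal.mem_span_singleton_self b))

/-- multiplication by `b` from `R/(K + (c))` to `R/(K+(bc))`. -/
noncomputable def mulMap (K : Ideal R) (b c : R) :
    (R ⧸ (K ⊔ Ideal.span {c})) →ₗ[k] (R ⧸ (K ⊔ Ideal.span {b * c})) :=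
  ((Submodule.mapQ (K ⊔ Ideal.span {c}) (K ⊔ Ideal.span {b * c}) (LinearMap.mulLeft R b) (by
    intro r hr
    rw [Submodule.mem_comap, LinearMap.mulLeft_apply]
    obtain ⟨x, hx, y, hy, rfl⟩ := Submodule.mem_sup.1 hr
    rw [mul_add]
    refine Ideal.add_mem _ (Ideal.mem_sup_left (Ideal.mul_mem_left _ _ hx)) (Ideal.mem_sup_right ?_)
    obtain ⟨z, rfl⟩ := Ideal.mem_span_singleton'.1 hy
    rw [Ideal.mem_span_singleton']
    exact ⟨z, by ring⟩)).restrictScalars k)

theorem mulMap_mk (K : Ideal R) (b c r : R) :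
    mulMap (k := k) K b c (Ideal.Quotient.mk _ r) = Ideal.Quotient.mk _ (b * r) := rfl

/-- the projection `R/(K+(bc)) → R/(K+(b))`. -/
noncomputable def prMap (K : Ideal R) (b c : R) :
    (R ⧸ (K ⊔ Ideal.span {b * c})) →ₐ[k] (R ⧸ (K ⊔ Ideal.span {b})) :=
  Ideal.Quotient.factorₐ k (by
    rw [sup_le_iff]
    refine ⟨le_sup_left, ?_⟩
    rw [Ideal.span_singleton_le_iff_mem]
    exact Ideal.mem_sup_right (Ideal.mul_mem_right _ _ (Ideal.mem_span_singleton_self b)))

theorem prMap_mk (K : Ideal R) (b c r : R) :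
    prMap (k := k) K b c (Ideal.Quotient.mk _ r) = Ideal.Quotient.mk _ r := rfl

theorem mulMap_inj (K : Ideal R) (b c : R) (hb : ∀ r, b * r ∈ K → r ∈ K) :
    Function.Injective (mulMap (k := k) K b c) := by
  rw [← LinearMap.ker_eq_bot, LinearMap.ker_eq_bot']
  intro m hm
  obtain ⟨r, rfl⟩ := Ideal.Quotient.mk_surjective m
  rw [mulMap_mk, Ideal.Quotient.eq_zero_iff_mem] at hm
  rw [Ideal.Quotient.eq_zero_iff_mem]
  obtain ⟨x, hx, y, hy, hxy⟩ := Submodule.mem_sup.1 hm
  obtain ⟨z, rfl⟩ := Ideal.mem_span_singleton'.1 hy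
  have h1 : b * (r - c * z) ∈ K := by
    have : b * (r - c * z) = x := by rw [mul_sub, ← hxy]; ring
    rw [this]; exact hx
  have h2 := hb _ h1
  have : r = (r - c * z) + c * z := by ring
  rw [this]
  exact Ideal.add_mem _ (Ideal.mem_sup_left h2)
    (Ideal.mem_sup_right (Ideal.mul_mem_right _ _ (Ideal.mem_span_singleton_self c)))

theorem range_ker (K : Ideal R) (b c : R) :
    LinearMap.range (mulMap (k := k) K b c) = LinearMap.ker (prMap (k := k) K b c).toLinearMap := by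
  ext m
  obtain ⟨r, rfl⟩ := Ideal.Quotient.mk_surjective m
  rw [LinearMap.mem_range, LinearMap.mem_ker, AlgHom.toLinearMap_apply, prMap_mk,
    Ideal.Quotient.eq_zero_iff_mem]
  constructor
  · rintro ⟨a, ha⟩
    obtain ⟨s, rfl⟩ := Ideal.Quotient.mk_surjective a
    rw [mulMap_mk, Ideal.Quotient.eq] at ha
    have h1 : K ⊔ Ideal.span {b * c} ≤ K ⊔ Ideal.span {b} := by
      rw [sup_le_iff]
      refine ⟨le_sup_left, ?_⟩
      rw [Ideal.span_singleton_le_iff_mem]
      exact Ideal.mem_sup_right (Ideal.mul_mem_right _ _ (Ideal.mem_span_singleton_self b))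
    have h2 := h1 ha
    have h3 : b * s ∈ K ⊔ Ideal.span {b} :=
      Ideal.mem_sup_right (Ideal.mul_mem_right _ _ (Ideal.mem_span_singleton_self b))
    have := Ideal.sub_mem _ h3 h2
    rwa [sub_sub_cancel] at this
  · intro hr
    obtain ⟨x, hx, y, hy, hxy⟩ := Submodule.mem_sup.1 hr
    obtain ⟨z, rfl⟩ := Ideal.mem_span_singleton'.1 hy
    refine ⟨Ideal.Quotient.mk _ z, ?_⟩
    rw [mulMap_mk, Ideal.Quotient.eq, ← hxy]
    have : b * z - (x + z * b) = -x := by ring
    rw [this]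
    exact Ideal.neg_mem_iff _ |>.2 (Ideal.mem_sup_left hx)

theorem finite_mul (K : Ideal R) (b c : R)
    [Module.Finite k (R ⧸ (K ⊔ Ideal.span {b}))] [Module.Finite k (R ⧸ (K ⊔ Ideal.span {c}))] :
    Module.Finite k (R ⧸ (K ⊔ Ideal.span {b * c})) := by
  have h1 := range_ker (k := k) K b c
  have : Module.Finite k (LinearMap.range (mulMap (k := k) K b c)) := inferInstance
  rw [h1] at this
  have h2 : Module.Finite k (LinearMap.range (prMap (k := k) K b c).toLinearMap) := inferInstance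
  have e := LinearMap.quotKerEquivRange (prMap (k := k) K b c).toLinearMap
  have h3 : Module.Finite k ((R ⧸ (K ⊔ Ideal.span {b * c})) ⧸
      LinearMap.ker (prMap (k := k) K b c).toLinearMap) := Module.Finite.equiv e.symm
  exact Module.Finite.of_submodule_quotient (LinearMap.ker (prMap (k := k) K b c).toLinearMap)

theorem qtr_mul (σ : R →ₐ[k] R) (K : Ideal R) (hK : K ≤ K.comap σ) (b c : R) (β γ : k)
    (hb : σ b = algebraMap k R β * b) (hc : σ c = algebraMap k R γ * c)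
    (hbr : ∀ r, b * r ∈ K → r ∈ K)
    [Module.Finite k (R ⧸ (K ⊔ Ideal.span {b}))] [Module.Finite k (R ⧸ (K ⊔ Ideal.span {c}))] :
    qtr σ (K ⊔ Ideal.span {b * c}) = β * qtr σ (K ⊔ Ideal.span {c}) + qtr σ (K ⊔ Ideal.span {b}) := by
  have hbc : σ (b * c) = algebraMap k R (β * γ) * (b * c) := by
    rw [map_mul, hb, hc, map_mul]; ring
  have Sb := stable_sup_span σ K hK b β hb
  have Sc := stable_sup_span σ K hK c γ hc
  have Sbc := stable_sup_span σ K hK (b * c) (β * γ) hbc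
  haveI := finite_mul (k := k) K b c
  rw [qtr_eq σ _ Sb, qtr_eq σ _ Sc, qtr_eq σ _ Sbc]
  rw [trace_exact (mulMap (k := k) K b c) (prMap (k := k) K b c).toLinearMap (mulMap_inj K b c hbr)
    (by
      intro m
      obtain ⟨r, rfl⟩ := Ideal.Quotient.mk_surjective m
      exact ⟨Ideal.Quotient.mk _ r, rfl⟩) (range_ker K b c)
    (β • (qmap σ _ Sc).toLinearMap) (qmap σ _ Sbc).toLinearMap (qmap σ _ Sb).toLinearMap]
  · rw [map_smul, smul_eq_mul]
  · apply LinearMap.ext
    intro m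
    obtain ⟨r, rfl⟩ := Ideal.Quotient.mk_surjective m
    simp only [LinearMap.comp_apply, LinearMap.smul_apply, AlgHom.toLinearMap_apply, mulMap_mk,
      qmap_mk, map_smul]
    rw [map_mul, hb, Algebra.smul_def, IsScalarTower.algebraMap_apply k R (R ⧸ _),
      Ideal.Quotient.algebraMap_eq, ← map_mul]
    congr 1
    ring
  · apply LinearMap.ext
    intro m
    obtain ⟨r, rfl⟩ := Ideal.Quotient.mk_surjective m
    simp only [LinearMap.comp_apply, AlgHom.toLinearMap_apply, qmap_mk, prMap_mk]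

/-- **Exchange lemma.** -/
theorem qtr_exchange (σ : R →ₐ[k] R) (K : Ideal R) (hK : K ≤ K.comap σ) (b c : R) (β : k)
    (hβ : β ≠ 1)
    (hb : σ b = algebraMap k R β * b) (hc : σ c = algebraMap k R β * c)
    (hbr : ∀ r, b * r ∈ K → r ∈ K) (hcr : ∀ r, c * r ∈ K → r ∈ K)
    (h1 : Module.Finite k (R ⧸ (K ⊔ Ideal.span {b})))
    (h2 : Module.Finite k (R ⧸ (K ⊔ Ideal.span {c}))) :
    qtr σ (K ⊔ Ideal.span {b}) = qtr σ (K ⊔ Ideal.span {c}) := by
  have e1 := qtr_mul σ K hK b c β β hb hc hbr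
  have e2 := qtr_mul σ K hK c b β β hc hb hcr
  rw [mul_comm c b, e1] at e2
  have h3 : (1 - β) * (qtr σ (K ⊔ Ideal.span {b}) - qtr σ (K ⊔ Ideal.span {c})) = 0 := by
    linear_combination e2
  rcases mul_eq_zero.1 h3 with h | h
  · exact absurd (sub_eq_zero.1 h).symm hβ
  · exact sub_eq_zero.1 h

end Exchange

end Pool.Agent.H92R3
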