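import Mathlib
import Pool.Agent.H92R3.Ex
import Pool.Agent.H92R3.Ch
set_option autoImplicit false

namespace Pool.Agent.H92R3

open Module IsLocalRing RingTheory.Sequence

section Main

variable {k : Type*} [Field k] [Infinite k] {R : Type*} [CommRing R] [IsNoetherianRing R]
  [IsLocalRing R] [Algebra k R] {n : ℕ}

/-- mixed family -/
noncomputable def U (y F : Fin n → R) (L : ℕ) (c : Fin n → k) (S : Finset (Fin n)) (i : Fin n) : R :=
  if i ∈ S then F i + algebraMap k R (c i) * y i ^ L else y i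

omit [IsNoetherianRing R] [Infinite k] in
theorem U_mem (y F : Fin n → R) (L : ℕ) (hL : L ≠ 0) (hy : ∀ i, y i ∈ maximalIdeal R)
    (hF : ∀ i, F i ∈ maximalIdeal R) (c : Fin n → k) (S : Finset (Fin n)) (i : Fin n) :
    U y F L c S i ∈ maximalIdeal R := by
  unfold U
  split_ifs
  · exact Ideal.add_mem _ (hF i) (Ideal.mul_mem_left _ _ (Ideal.pow_mem_of_mem _ (hy i) L
      (Nat.pos_of_ne_zero hL)))
  · exact hy i

omit [IsNoetherianRing R] [Infinite k] [IsLocalRing R] in
theorem U_insert (y F : Fin n → R) (L : ℕ) (c : Fin n → k) (S : Finset (Fin n)) (i : Fin n)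
    (hi : i ∉ S) (c0 : k) :
    U y F L (Function.update c i c0) (insert i S) =
      Function.update (U y F L c S) i (F i + algebraMap k R c0 * y i ^ L) := by
  funext j
  by_cases hj : j = i
  · subst hj
    simp [U]
  · rw [Function.update_of_ne hj]
    unfold U
    rw [Function.update_of_ne hj]
    simp [hj]

omit [IsNoetherianRing R] [Infinite k] [IsLocalRing R] in
theorem U_eigen (σ : R →ₐ[k] R) (y F : Fin n → R) (ζ : Fin n → k)
    (hy : ∀ i, σ (y i) = algebraMap k R (ζ i) * y i) (hF : ∀ i, σ (F i) = algebraMap k R (ζ i) * F i)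
    (L : ℕ) (hL : ∀ i, ζ i ^ L = ζ i) (c : Fin n → k) (S : Finset (Fin n)) (i : Fin n) :
    σ (U y F L c S i) = algebraMap k R (ζ i) * U y F L c S i := by
  unfold U
  split_ifs
  · rw [map_add, map_mul, map_pow, hy, hF, AlgHom.commutes, mul_pow, ← map_pow, hL]
    ring
  · exact hy i

/-- one step: extend the set of replaced indices. -/
theorem step (y F : Fin n → R) (L : ℕ) (hL : L ≠ 0) (hy : ∀ i, y i ∈ maximalIdeal R)
    (hF : ∀ i, F i ∈ maximalIdeal R) (c : Fin n → k) (S : Finset (Fin n)) (i : Fin n) (hi : i ∉ S)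
    (hg : Good (U y F L c S)) (hp : Prim (Ideal.span (Set.range (U y F L c S)))) :
    ∃ c0 : k, Good (U y F L (Function.update c i c0) (insert i S)) ∧
      Prim (Ideal.span (Set.range (U y F L (Function.update c i c0) (insert i S)))) ∧
      (∀ r, (F i + algebraMap k R c0 * y i ^ L) * r ∈ oth (U y F L c S) i →
        r ∈ oth (U y F L c S) i) := by
  have hUi : U y F L c S i = y i := by simp [U, hi]
  have hmem := U_mem y F L hL hy hF c S
  have hreg := good_reg _ hmem i hg
  rw [hUi] at hreg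
  obtain ⟨c0, hc0⟩ := exists_perturb (k := k) (oth (U y F L c S) i) (y i) (F i) L hreg
  have hv : F i + algebraMap k R c0 * y i ^ L ∈ maximalIdeal R :=
    Ideal.add_mem _ (hF i) (Ideal.mul_mem_left _ _ (Ideal.pow_mem_of_mem _ (hy i) L
      (Nat.pos_of_ne_zero hL)))
  refine ⟨c0, ?_, ?_, hc0⟩
  · rw [U_insert y F L c S i hi c0]
    exact good_update _ hmem i _ hv hg hc0
  · rw [U_insert y F L c S i hi c0, ← oth_sup _ i, oth_update, Function.update_self]
    rw [← oth_sup _ i, hUi] at hp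
    refine prim_exchange _ ?_ (y i) _ (hy i) hv hreg hc0 hp
    unfold oth
    rw [Ideal.span_le]
    rintro _ ⟨j, -, rfl⟩
    exact hmem j

theorem stage1 (y F : Fin n → R) (L : ℕ) (hL : L ≠ 0) (hy : ∀ i, y i ∈ maximalIdeal R)
    (hF : ∀ i, F i ∈ maximalIdeal R) (hg : Good y) (hp : Prim (Ideal.span (Set.range y)))
    (S : Finset (Fin n)) :
    ∃ c : Fin n → k, Good (U y F L c S) ∧ Prim (Ideal.span (Set.range (U y F L c S))) := by
  classical
  induction S using Finset.induction_on with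
  | empty =>
    refine ⟨0, ?_⟩
    have : U y F L (0 : Fin n → k) ∅ = y := by funext i; simp [U]
    rw [this]
    exact ⟨hg, hp⟩
  | insert i S hi ih =>
    obtain ⟨c, h1, h2⟩ := ih
    obtain ⟨c0, h3, h4, -⟩ := step y F L hL hy hF c S i hi h1 h2
    exact ⟨_, h3, h4⟩

theorem stage2 (σ : R →ₐ[k] R) (hfin : ∀ J : Ideal R, Prim J → Module.Finite k (R ⧸ J))
    (y F : Fin n → R) (ζ : Fin n → k)
    (hye : ∀ i, σ (y i) = algebraMap k R (ζ i) * y i)
    (hFe : ∀ i, σ (F i) = algebraMap k R (ζ i) * F i) (L : ℕ) (hLe : ∀ i, ζ i ^ L = ζ i)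
    (hL : L ≠ 0) (hy : ∀ i, y i ∈ maximalIdeal R)
    (hF : ∀ i, F i ∈ maximalIdeal R) (S : Finset (Fin n)) (c1 : Fin n → k)
    (hg : Good (U y F L c1 S)) (hp : Prim (Ideal.span (Set.range (U y F L c1 S))))
    (T : Finset (Fin n)) (hST : Disjoint S T) (hT : ∀ i ∈ T, ζ i ≠ 1) :
    ∃ c : Fin n → k, Good (U y F L c (S ∪ T)) ∧ Prim (Ideal.span (Set.range (U y F L c (S ∪ T)))) ∧
      qtr σ (Ideal.span (Set.range (U y F L c (S ∪ T)))) =
        qtr σ (Ideal.span (Set.range (U y F L c1 S))) := by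
  classical
  induction T using Finset.induction_on with
  | empty =>
    refine ⟨c1, ?_⟩
    rw [Finset.union_empty]
    exact ⟨hg, hp, rfl⟩
  | insert i T hi ih =>
    obtain ⟨c, h1, h2, h3⟩ := ih (hST.mono_right (Finset.subset_insert _ _))
      (fun j hj => hT j (Finset.mem_insert_of_mem hj))
    have hi' : i ∉ S ∪ T := by
      rw [Finset.mem_union, not_or]
      exact ⟨fun h => (Finset.disjoint_left.1 hST h) (Finset.mem_insert_self _ _), hi⟩
    obtain ⟨c0, h4, h5, h6⟩ := step y F L hL hy hF c (S ∪ T) i hi' h1 h2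
    have e : S ∪ insert i T = insert i (S ∪ T) := by
      rw [Finset.union_insert]
    refine ⟨Function.update c i c0, by rw [e]; exact h4, by rw [e]; exact h5, ?_⟩
    rw [← h3, e]
    have hUi : U y F L c (S ∪ T) i = y i := by simp [U, hi']
    have hmem := U_mem y F L hL hy hF c (S ∪ T)
    have hreg := good_reg _ hmem i h1
    rw [hUi] at hreg
    have f1 := hfin _ h5
    have f2 := hfin _ h2
    rw [U_insert y F L c (S ∪ T) i hi' c0, ← oth_sup _ i, oth_update, Function.update_self] at f1 ⊢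
    rw [← oth_sup (U y F L c (S ∪ T)) i, hUi] at f2 ⊢
    have hK : oth (U y F L c (S ∪ T)) i ≤ (oth (U y F L c (S ∪ T)) i).comap σ := by
      conv_lhs => unfold oth
      rw [Ideal.span_le]
      rintro _ ⟨j, hj, rfl⟩
      rw [SetLike.mem_coe, Ideal.mem_comap, U_eigen σ y F ζ hye hFe L hLe c (S ∪ T) j]
      exact Ideal.mul_mem_left _ _ (Ideal.subset_span ⟨j, hj, rfl⟩)
    refine qtr_exchange σ _ hK _ _ (ζ i) (hT i (Finset.mem_insert_self _ _)) ?_ (hye i) h6 hreg f1 f2
    rw [map_add, map_mul, map_pow, hye, hFe, AlgHom.commutes, mul_pow, ← map_pow, hLe]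
    ring

omit [Infinite k] in
/-- small perturbations do not change the ideal -/
theorem span_perturb (v w : Fin n → R)
    (h : ∀ i, w i - v i ∈ maximalIdeal R • Ideal.span (Set.range v)) :
    Ideal.span (Set.range w) = Ideal.span (Set.range v) := by
  apply le_antisymm
  · rw [Ideal.span_le]
    rintro _ ⟨i, rfl⟩
    have h1 : w i - v i ∈ Ideal.span (Set.range v) := Submodule.smul_le_right (h i)
    have h2 : v i ∈ Ideal.span (Set.range v) := Ideal.subset_span ⟨i, rfl⟩
    have := Ideal.add_mem _ h1 h2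
    rwa [sub_add_cancel] at this
  · apply Submodule.le_of_le_smul_of_le_jacobson_bot (I := maximalIdeal R)
      (IsNoetherian.noetherian _) (IsLocalRing.maximalIdeal_le_jacobson _)
    rw [Ideal.span_le]
    rintro _ ⟨i, rfl⟩
    have h2 : w i ∈ Ideal.span (Set.range w) := Ideal.subset_span ⟨i, rfl⟩
    have : v i = w i - (w i - v i) := by ring
    rw [this]
    exact Submodule.sub_mem _ (Submodule.mem_sup_left h2) (Submodule.mem_sup_right (h i))

theorem main (σ : R →ₐ[k] R) (hfin : ∀ J : Ideal R, Prim J → Module.Finite k (R ⧸ J))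
    (y F : Fin n → R) (ζ : Fin n → k)
    (hye : ∀ i, σ (y i) = algebraMap k R (ζ i) * y i)
    (hFe : ∀ i, σ (F i) = algebraMap k R (ζ i) * F i) (M : ℕ) (hM : M ≠ 0) (hζ : ∀ i, ζ i ^ M = 1)
    (hy : ∀ i, y i ∈ maximalIdeal R)
    (hF : ∀ i, F i ∈ maximalIdeal R) (hg : Good y) (hpy : Prim (Ideal.span (Set.range y)))
    (hpF : Prim (Ideal.span (Set.range F)))
    (hFy : ∀ i, ζ i ≠ 1 → F i ∈ Ideal.span (y '' {j | ζ j ≠ 1})) (z : Fin n → R)
    (hz1 : ∀ i, ζ i = 1 → z i = F i) (hz2 : ∀ i, ζ i ≠ 1 → z i = y i) :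
    Prim (Ideal.span (Set.range z)) ∧
    qtr σ (Ideal.span (Set.range F)) = qtr σ (Ideal.span (Set.range z)) := by
  classical
  obtain ⟨N, hN⟩ := hpF
  have hFz : Ideal.span (Set.range F) ≤ Ideal.span (Set.range z) := by
    rw [Ideal.span_le]
    rintro _ ⟨i, rfl⟩
    by_cases hi : ζ i = 1
    · rw [← hz1 i hi]
      exact Ideal.subset_span ⟨i, rfl⟩
    · have h1 : Ideal.span (y '' {j | ζ j ≠ 1}) ≤ Ideal.span (Set.range z) := by
        apply Ideal.span_mono
        rintro _ ⟨j, hj, rfl⟩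
        exact ⟨j, hz2 j hj⟩
      exact h1 (hFy i hi)
  refine ⟨⟨N, hN.trans hFz⟩, ?_⟩
  set L : ℕ := 1 + M * (N + 1) with hLdef
  have hL0 : L ≠ 0 := by omega
  have hLe : ∀ i, ζ i ^ L = ζ i := by
    intro i
    rw [hLdef, pow_add, pow_one, pow_mul, hζ, one_pow, mul_one]
  have hLN : N + 1 ≤ L := by
    have : 1 * (N + 1) ≤ M * (N + 1) := Nat.mul_le_mul_right _ (Nat.pos_of_ne_zero hM)
    omega
  have hyL : ∀ i, y i ^ L ∈ maximalIdeal R • Ideal.span (Set.range F) := by
    intro i
    have h1 : y i ^ L ∈ maximalIdeal R ^ L := Ideal.pow_mem_pow (hy i) L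
    have h2 : maximalIdeal R ^ L ≤ maximalIdeal R ^ (N + 1) := Ideal.pow_le_pow_right hLN
    have h3 : maximalIdeal R ^ (N + 1) ≤ maximalIdeal R • Ideal.span (Set.range F) := by
      rw [pow_succ', smul_eq_mul]
      exact Ideal.mul_mono_right hN
    exact h3 (h2 h1)
  have hyL' : ∀ i, y i ^ L ∈ maximalIdeal R • Ideal.span (Set.range z) := fun i =>
    (Submodule.smul_mono le_rfl hFz) (hyL i)
  set S : Finset (Fin n) := Finset.univ.filter (fun i => ζ i = 1) with hS
  set T : Finset (Fin n) := Finset.univ.filter (fun i => ζ i ≠ 1) with hT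
  obtain ⟨c1, h1, h2⟩ := stage1 (k := k) y F L hL0 hy hF hg hpy S
  obtain ⟨c, h3, h4, h5⟩ := stage2 σ hfin y F ζ hye hFe L hLe hL0 hy hF S c1 h1 h2 T
    (Finset.disjoint_filter_filter_not _ _ _) (fun i hi => by
      rw [hT, Finset.mem_filter] at hi; exact hi.2)
  have e1 : Ideal.span (Set.range (U y F L c (S ∪ T))) = Ideal.span (Set.range F) := by
    apply span_perturb
    intro i
    have : i ∈ S ∪ T := by
      rw [Finset.mem_union, hS, hT, Finset.mem_filter, Finset.mem_filter]
      by_cases h : ζ i = 1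
      · exact Or.inl ⟨Finset.mem_univ _, h⟩
      · exact Or.inr ⟨Finset.mem_univ _, h⟩
    unfold U
    rw [if_pos this, add_sub_cancel_left]
    exact Ideal.mul_mem_left _ _ (hyL i)
  have e2 : Ideal.span (Set.range (U y F L c1 S)) = Ideal.span (Set.range z) := by
    apply span_perturb
    intro i
    unfold U
    by_cases h : ζ i = 1
    · have : i ∈ S := by rw [hS, Finset.mem_filter]; exact ⟨Finset.mem_univ _, h⟩
      rw [if_pos this, hz1 i h, add_sub_cancel_left]
      exact Ideal.mul_mem_left _ _ (hyL' i)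
    · have : i ∉ S := by rw [hS, Finset.mem_filter]; exact fun h' => h h'.2
      rw [if_neg this, hz2 i h, sub_self]
      exact Submodule.zero_mem _
  rw [e1, e2] at h5
  exact h5

end Main

end Pool.Agent.H92R3
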