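import Mathlib
import Pool.Agent.H92R3.Mn
import Pool.Agent.H92R3.Dg
set_option autoImplicit false

namespace Pool.Agent.H92R3

open Module IsLocalRing RingTheory.Sequence

section PS

variable {n : ℕ}

/-- the power series ring -/
abbrev PR (n : ℕ) := MvPowerSeries (Fin n) ℂ

theorem mem_span_X_of (S : Finset (Fin n)) : ∀ (f : PR n),
    (∀ m : Fin n →₀ ℕ, (∀ s ∈ S, m s = 0) → MvPowerSeries.coeff m f = 0) →
    f ∈ Ideal.span ((MvPowerSeries.X : Fin n → PR n) '' (S : Set (Fin n))) := by
  classical
  induction S using Finset.induction_on with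
  | empty =>
    intro f hf
    have : f = 0 := by
      ext m
      rw [hf m (by simp)]
      simp
    rw [this]
    exact Submodule.zero_mem _
  | insert s S hs ih =>
    intro f hf
    let f' : PR n := fun m => if m s = 0 then MvPowerSeries.coeff m f else 0
    have hf' : ∀ m, MvPowerSeries.coeff m f' = if m s = 0 then MvPowerSeries.coeff m f else 0 :=
      fun m => rfl
    have h1 : f' ∈ Ideal.span ((MvPowerSeries.X : Fin n → PR n) '' (S : Set (Fin n))) := by
      apply ih
      intro m hm
      rw [hf']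
      split_ifs with h
      · apply hf
        intro t ht
        rcases Finset.mem_insert.1 ht with rfl | ht
        · exact h
        · exact hm t ht
      · rfl
    have h2 : (MvPowerSeries.X s : PR n) ∣ f - f' := by
      rw [MvPowerSeries.X_dvd_iff]
      intro m hm
      rw [map_sub, hf', if_pos hm, sub_self]
    obtain ⟨g, hg⟩ := h2
    have h3 : f = f' + MvPowerSeries.X s * g := by rw [← hg]; ring
    rw [h3]
    apply Ideal.add_mem
    · apply Ideal.span_mono _ h1
      apply Set.image_mono
      simp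
    · apply Ideal.mul_mem_right
      apply Ideal.subset_span
      exact ⟨s, by simp, rfl⟩

theorem coeff_of_mem_span_X (S : Set (Fin n)) (f : PR n)
    (hf : f ∈ Ideal.span ((MvPowerSeries.X : Fin n → PR n) '' S)) : ∀ (m : Fin n →₀ ℕ)
    (_ : ∀ s ∈ S, m s = 0), MvPowerSeries.coeff m f = 0 := by
  induction hf using Submodule.span_induction with
  | mem x hx =>
    intro m hm
    obtain ⟨s, hs, rfl⟩ := hx
    exact (MvPowerSeries.X_dvd_iff.1 (dvd_refl (MvPowerSeries.X s : PR n))) m (hm s hs)
  | zero => intro m _; simp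
  | add x y _ _ h1 h2 => intro m hm; rw [map_add, h1 m hm, h2 m hm, add_zero]
  | smul a x hx hx2 =>
    intro m hm
    classical
    rw [smul_eq_mul, MvPowerSeries.coeff_mul]
    apply Finset.sum_eq_zero
    rintro ⟨p, q⟩ hpq
    rw [Finset.HasAntidiagonal.mem_antidiagonal] at hpq
    have hq : MvPowerSeries.coeff q x = 0 := by
      apply hx2
      intro s hs
      have h1 := hm s hs
      rw [← hpq] at h1
      simp only [Finsupp.add_apply] at h1
      omega
    rw [hq, mul_zero]

theorem X_reg (S : Finset (Fin n)) (i : Fin n) (hi : i ∉ S) (r : PR n)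
    (hr : MvPowerSeries.X i * r ∈ Ideal.span ((MvPowerSeries.X : Fin n → PR n) '' (S : Set (Fin n)))) :
    r ∈ Ideal.span ((MvPowerSeries.X : Fin n → PR n) '' (S : Set (Fin n))) := by
  apply mem_span_X_of
  intro m hm
  have h1 := coeff_of_mem_span_X _ _ hr (Finsupp.single i 1 + m) (by
    intro s hs
    have hs' : s ∈ S := hs
    have : i ≠ s := fun h => hi (h ▸ hs')
    simp [hm s hs', Finsupp.single_eq_of_ne this.symm])
  rwa [MvPowerSeries.X_def, MvPowerSeries.coeff_add_monomial_mul, one_mul] at h1

theorem good_X_list (l : List (Fin n)) (hl : l.Nodup) :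
    IsWeaklyRegular (PR n) (l.map (MvPowerSeries.X : Fin n → PR n)) := by
  induction l using List.reverseRecOn with
  | nil => exact IsWeaklyRegular.nil _ _
  | append_singleton l a ih =>
    rw [List.map_append, List.map_singleton, append_iff]
    rw [List.nodup_append] at hl
    refine ⟨ih hl.1, ?_⟩
    have e : Ideal.ofList (l.map (MvPowerSeries.X : Fin n → PR n)) =
        Ideal.span ((MvPowerSeries.X : Fin n → PR n) '' (l.toFinset : Set (Fin n))) := by
      unfold Ideal.ofList
      congr 1
      ext x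
      simp
    rw [e]
    intro r hr
    refine X_reg _ a ?_ r hr
    rw [List.mem_toFinset]
    intro ha
    exact hl.2.2 a ha a (List.mem_singleton_self a) rfl

theorem good_X : Good (MvPowerSeries.X : Fin n → PR n) := good_X_list _ (List.nodup_finRange n)

theorem mem_max_iff (f : PR n) : f ∈ maximalIdeal (PR n) ↔ MvPowerSeries.constantCoeff f = 0 := by
  rw [IsLocalRing.mem_maximalIdeal, mem_nonunits_iff, MvPowerSeries.isUnit_iff_constantCoeff,
    isUnit_iff_ne_zero, not_not]

theorem max_eq : maximalIdeal (PR n) = Ideal.span (Set.range (MvPowerSeries.X : Fin n → PR n)) := by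
  apply le_antisymm
  · intro f hf
    rw [mem_max_iff] at hf
    have := mem_span_X_of Finset.univ f (by
      intro m hm
      have : m = 0 := by
        ext s
        exact hm s (Finset.mem_univ s)
      rw [this]
      exact hf)
    simpa using this
  · rw [Ideal.span_le]
    rintro _ ⟨i, rfl⟩
    rw [SetLike.mem_coe, mem_max_iff]
    simp

/-- the polynomials, as a subspace of the power series -/
noncomputable def polys (n : ℕ) : Submodule ℂ (PR n) :=
  LinearMap.range (MvPolynomial.coeToMvPowerSeries.algHom (σ := Fin n) (R := ℂ) ℂ).toLinearMap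

theorem decomp (N : ℕ) : ∃ W : Submodule ℂ (PR n), W.FG ∧ W ≤ polys n ∧
    ∀ f : PR n, ∃ w ∈ W, f - w ∈ maximalIdeal (PR n) ^ N := by
  induction N with
  | zero => exact ⟨⊥, Submodule.fg_bot, bot_le, fun f => ⟨0, Submodule.zero_mem _, by simp⟩⟩
  | succ N ih =>
    obtain ⟨W, h1, h2, h3⟩ := ih
    refine ⟨Submodule.span ℂ {1} ⊔ ⨆ i : Fin n,
      W.map (LinearMap.mulLeft ℂ (MvPowerSeries.X i : PR n)), ?_, ?_, ?_⟩
    · apply Submodule.FG.sup (Submodule.fg_span_singleton _)
      exact Submodule.fg_iSup _ (fun i => h1.map _)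
    · apply sup_le
      · rw [Submodule.span_singleton_le_iff_mem]
        exact ⟨1, by simp⟩
      · apply iSup_le
        intro i
        rintro _ ⟨w, hw, rfl⟩
        obtain ⟨p, rfl⟩ := h2 hw
        exact ⟨MvPolynomial.X i * p, by simp⟩
    · intro f
      have h4 : f - MvPowerSeries.C (MvPowerSeries.constantCoeff f) ∈ maximalIdeal (PR n) := by
        rw [mem_max_iff]; simp
      rw [max_eq, Ideal.mem_span_range_iff_exists_fun] at h4
      obtain ⟨g, hg⟩ := h4
      choose w hw hw2 using fun i => h3 (g i)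
      refine ⟨MvPowerSeries.C (MvPowerSeries.constantCoeff f) + ∑ i, MvPowerSeries.X i * w i, ?_, ?_⟩
      · apply Submodule.add_mem
        · apply Submodule.mem_sup_left
          rw [Submodule.mem_span_singleton]
          refine ⟨MvPowerSeries.constantCoeff f, ?_⟩
          rw [MvPowerSeries.smul_eq_C_mul, mul_one]
        · apply Submodule.mem_sup_right
          apply Submodule.sum_mem
          intro i _
          exact Submodule.mem_iSup_of_mem i ⟨w i, hw i, rfl⟩
      · have e : f - (MvPowerSeries.C (MvPowerSeries.constantCoeff f) +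
            ∑ i, MvPowerSeries.X i * w i) = ∑ i, MvPowerSeries.X i * (g i - w i) := by
          rw [← sub_sub, ← hg, ← Finset.sum_sub_distrib]
          apply Finset.sum_congr rfl
          intro i _
          ring
        rw [e]
        apply Ideal.sum_mem
        intro i _
        rw [pow_succ']
        apply Ideal.mul_mem_mul _ (hw2 i)
        rw [mem_max_iff]; simp

theorem finite_of_prim (J : Ideal (PR n)) (hJ : Prim J) : Module.Finite ℂ (PR n ⧸ J) := by
  obtain ⟨N, hN⟩ := hJ
  obtain ⟨W, h1, -, h3⟩ := decomp (n := n) N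
  have : Module.Finite ℂ W := Module.Finite.iff_fg.2 h1
  apply Module.Finite.of_surjective
    (((Ideal.Quotient.mkₐ ℂ J).toLinearMap).comp W.subtype)
  intro q
  obtain ⟨f, rfl⟩ := Ideal.Quotient.mk_surjective q
  obtain ⟨w, hw, hw2⟩ := h3 f
  refine ⟨⟨w, hw⟩, ?_⟩
  simp only [LinearMap.comp_apply, Submodule.subtype_apply, AlgHom.toLinearMap_apply,
    Ideal.Quotient.mkₐ_eq_mk]
  rw [eq_comm, Ideal.Quotient.eq]
  exact hN hw2

theorem hom_ext {Q : Type*} [CommRing Q] [Algebra ℂ Q] (φ ψ : PR n →ₐ[ℂ] Q) (N : ℕ)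
    (h1 : ∀ r ∈ maximalIdeal (PR n) ^ N, φ r = 0) (h2 : ∀ r ∈ maximalIdeal (PR n) ^ N, ψ r = 0)
    (h : ∀ i, φ (MvPowerSeries.X i) = ψ (MvPowerSeries.X i)) : φ = ψ := by
  obtain ⟨W, -, hW, h3⟩ := decomp (n := n) N
  apply AlgHom.ext
  intro f
  obtain ⟨w, hw, hw2⟩ := h3 f
  obtain ⟨p, rfl⟩ := hW hw
  have e1 : φ f = φ ((MvPolynomial.coeToMvPowerSeries.algHom (σ := Fin n) (R := ℂ) ℂ) p) := by
    have := h1 _ hw2
    rw [map_sub, sub_eq_zero] at this
    exact this
  have e2 : ψ f = ψ ((MvPolynomial.coeToMvPowerSeries.algHom (σ := Fin n) (R := ℂ) ℂ) p) := by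
    have := h2 _ hw2
    rw [map_sub, sub_eq_zero] at this
    exact this
  rw [e1, e2]
  have e3 : φ.comp (MvPolynomial.coeToMvPowerSeries.algHom (σ := Fin n) (R := ℂ) ℂ) =
      ψ.comp (MvPolynomial.coeToMvPowerSeries.algHom (σ := Fin n) (R := ℂ) ℂ) := by
    apply MvPolynomial.algHom_ext
    intro i
    simpa using h i
  exact DFunLike.congr_fun e3 p

/-- linear forms -/
noncomputable def lin (A : Matrix (Fin n) (Fin n) ℂ) (i : Fin n) : PR n :=
  ∑ j, A i j • MvPowerSeries.X j

theorem lin_const (A : Matrix (Fin n) (Fin n) ℂ) (i : Fin n) :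
    MvPowerSeries.constantCoeff (lin A i) = 0 := by
  unfold lin
  rw [map_sum]
  apply Finset.sum_eq_zero
  intro j _
  rw [MvPowerSeries.smul_eq_C_mul, map_mul, MvPowerSeries.constantCoeff_X, mul_zero]

theorem lin_hasSubst (A : Matrix (Fin n) (Fin n) ℂ) : MvPowerSeries.HasSubst (lin A) :=
  MvPowerSeries.hasSubst_of_constantCoeff_zero (lin_const A)

/-- linear substitution -/
noncomputable def sub (A : Matrix (Fin n) (Fin n) ℂ) : PR n →ₐ[ℂ] PR n :=
  MvPowerSeries.substAlgHom (lin_hasSubst A)

theorem sub_X (A : Matrix (Fin n) (Fin n) ℂ) (i : Fin n) : sub A (MvPowerSeries.X i) = lin A i :=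
  MvPowerSeries.substAlgHom_X _ _

theorem sub_lin (A B : Matrix (Fin n) (Fin n) ℂ) (i : Fin n) : sub A (lin B i) = lin (B * A) i := by
  unfold lin
  rw [map_sum]
  simp_rw [map_smul, sub_X]
  unfold lin
  simp_rw [Finset.smul_sum, smul_smul]
  rw [Finset.sum_comm]
  apply Finset.sum_congr rfl
  intro j _
  rw [← Finset.sum_smul, Matrix.mul_apply]

theorem lin_one (i : Fin n) : lin (1 : Matrix (Fin n) (Fin n) ℂ) i = MvPowerSeries.X i := by
  unfold lin
  rw [Finset.sum_eq_single i]
  · simp
  · intro j _ hj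
    rw [Matrix.one_apply_ne hj.symm, zero_smul]
  · simp

theorem sub_comp (A B : Matrix (Fin n) (Fin n) ℂ) (h : B * A = 1) (f : PR n) :
    sub A (sub B f) = f := by
  have e : (fun s => (MvPowerSeries.substAlgHom (R := ℂ) (lin_hasSubst A)) (lin B s)) =
      (MvPowerSeries.X : Fin n → PR n) := by
    funext s
    have h1 := sub_lin A B s
    rw [h, lin_one] at h1
    exact h1
  have h2 := MvPowerSeries.substAlgHom_comp_substAlgHom_apply (R := ℂ) (lin_hasSubst B)
    (lin_hasSubst A) f
  rw [MvPowerSeries.substAlgHom_apply (R := ℂ) ((lin_hasSubst B).comp (lin_hasSubst A)), e,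
    MvPowerSeries.subst_self] at h2
  exact h2

/-- linear change of coordinates -/
noncomputable def coord (A B : Matrix (Fin n) (Fin n) ℂ) (h1 : A * B = 1) (h2 : B * A = 1) :
    PR n ≃+ PR n where
  toFun := sub A
  invFun := sub B
  left_inv f := sub_comp B A h1 f
  right_inv f := sub_comp A B h2 f
  map_add' := map_add _

theorem good_lin (A B : Matrix (Fin n) (Fin n) ℂ) (h1 : A * B = 1) (h2 : B * A = 1) :
    Good (lin A) := by
  have h := good_X (n := n)
  unfold Good at h ⊢
  refine (AddEquiv.isWeaklyRegular_congr (e := coord A B h1 h2) (as := (List.finRange n).map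
    (MvPowerSeries.X : Fin n → PR n)) (bs := (List.finRange n).map (lin A)) ?_).1 h
  rw [List.forall₂_map_left_iff, List.forall₂_map_right_iff, List.forall₂_same]
  intro i _ x
  change sub A (MvPowerSeries.X i * x) = lin A i * sub A x
  rw [map_mul, sub_X]

end PS

end Pool.Agent.H92R3
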