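import Mathlib
import Pool.Agent.H92R3.Ps
set_option autoImplicit false

namespace Pool.Agent.H92R3

open Module IsLocalRing RingTheory.Sequence

section Fin

variable {n : ℕ}

theorem sub_coe (A : Matrix (Fin n) (Fin n) ℂ) (p : MvPolynomial (Fin n) ℂ) :
    sub A (p : PR n) = ((MvPolynomial.aeval (fun j : Fin n => ∑ k : Fin n, A j k •
      (MvPolynomial.X k : MvPolynomial (Fin n) ℂ)) p : MvPolynomial (Fin n) ℂ) : PR n) := by
  have e : (sub A).comp (MvPolynomial.coeToMvPowerSeries.algHom (σ := Fin n) (R := ℂ) ℂ) =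
      (MvPolynomial.coeToMvPowerSeries.algHom (σ := Fin n) (R := ℂ) ℂ).comp
        (MvPolynomial.aeval (fun j : Fin n => ∑ k : Fin n, A j k •
          (MvPolynomial.X k : MvPolynomial (Fin n) ℂ))) := by
    apply MvPolynomial.algHom_ext
    intro i
    simp only [AlgHom.comp_apply, MvPolynomial.aeval_X, map_sum, map_smul]
    have h1 : ∀ j, (MvPolynomial.coeToMvPowerSeries.algHom (σ := Fin n) (R := ℂ) ℂ)
      (MvPolynomial.X j) = (MvPowerSeries.X j : PR n) := by
      intro j
      simp
    rw [h1, sub_X]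
    unfold lin
    apply Finset.sum_congr rfl
    intro j _
    rw [h1]
  have h := DFunLike.congr_fun e p
  simp only [AlgHom.comp_apply, MvPolynomial.coeToMvPowerSeries.algHom_apply] at h
  simpa using h

theorem span_matrix {R : Type*} [CommRing R] [Algebra ℂ R] (P Q : Matrix (Fin n) (Fin n) ℂ)
    (hQP : Q * P = 1) (u : Fin n → R) :
    Ideal.span (Set.range (fun i => ∑ j, P i j • u j)) = Ideal.span (Set.range u) := by
  have key : ∀ (P : Matrix (Fin n) (Fin n) ℂ) (u : Fin n → R),
      Ideal.span (Set.range (fun i => ∑ j, P i j • u j)) ≤ Ideal.span (Set.range u) := by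
    intro P u
    rw [Ideal.span_le]
    rintro _ ⟨i, rfl⟩
    apply Ideal.sum_mem
    intro j _
    exact Submodule.smul_of_tower_mem _ _ (Ideal.subset_span ⟨j, rfl⟩)
  apply le_antisymm (key P u)
  refine le_trans ?_ (key Q (fun i => ∑ j, P i j • u j))
  rw [Ideal.span_le]
  rintro _ ⟨i, rfl⟩
  apply Ideal.subset_span
  refine ⟨i, ?_⟩
  simp_rw [Finset.smul_sum, smul_smul]
  rw [Finset.sum_comm]
  simp_rw [← Finset.sum_smul, ← Matrix.mul_apply, hQP]
  rw [Finset.sum_eq_single i]
  · simp
  · intro j _ hj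
    rw [Matrix.one_apply_ne hj.symm, zero_smul]
  · simp

theorem final (A : Matrix (Fin n) (Fin n) ℂ) (M : ℕ) (hM : M ≠ 0) (hA : A ^ M = 1)
    (f : Fin n → MvPolynomial (Fin n) ℂ)
    (hf : ∀ i : Fin n, MvPolynomial.aeval
          (fun j : Fin n => ∑ k : Fin n, A j k • (MvPolynomial.X k : MvPolynomial (Fin n) ℂ))
          (f i) = ∑ j : Fin n, A i j • f j)
    (hc : ∀ i : Fin n, MvPolynomial.constantCoeff (f i) = 0)
    (I : Ideal (PR n)) (hI : I = Ideal.span (Set.range (fun i : Fin n => (f i : PR n))))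
    (hfin : Module.Finite ℂ (PR n ⧸ I)) (T : (PR n ⧸ I) →ₐ[ℂ] (PR n ⧸ I))
    (hT : ∀ i : Fin n, T (Ideal.Quotient.mk _ (MvPowerSeries.X i)) =
      Ideal.Quotient.mk _ (∑ j : Fin n, A i j • (MvPowerSeries.X j : PR n))) :
    LinearMap.trace ℂ _ T.toLinearMap = ((Module.finrank ℂ
      (PR n ⧸ Ideal.span (Set.range (fun i : Fin n => (f i : PR n)) ∪
        Set.range (fun i : Fin n => ∑ j : Fin n, (A - 1) i j • (MvPowerSeries.X j : PR n))))) : ℂ) := by
  classical
  obtain ⟨P, Q, ζ, hPQ, hQP, hPA, hζ⟩ := exists_left_eigen n A M hM hA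
  set σ := sub A with hσ
  set y : Fin n → PR n := lin P with hy
  set F : Fin n → PR n := fun i => ∑ j, P i j • (f j : PR n) with hF
  have hPA' : P * A = Matrix.of fun i k => ζ i * P i k := by
    ext i k
    rw [Matrix.mul_apply, hPA]
    rfl
  have hye : ∀ i, σ (y i) = algebraMap ℂ (PR n) (ζ i) * y i := by
    intro i
    rw [hσ, hy, sub_lin, hPA']
    unfold lin
    rw [Finset.mul_sum]
    apply Finset.sum_congr rfl
    intro j _
    rw [Matrix.of_apply, ← Algebra.smul_def, smul_smul]
  have hσf : ∀ i, σ (f i : PR n) = ∑ j, A i j • (f j : PR n) := by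
    intro i
    rw [hσ, sub_coe, hf]
    have := map_sum (MvPolynomial.coeToMvPowerSeries.algHom (σ := Fin n) (R := ℂ) ℂ)
      (fun j => A i j • f j) Finset.univ
    simp only [map_smul, MvPolynomial.coeToMvPowerSeries.algHom_apply] at this
    simpa using this
  have hFe : ∀ i, σ (F i) = algebraMap ℂ (PR n) (ζ i) * F i := by
    intro i
    rw [hF]
    simp only [map_sum, map_smul, hσf]
    simp_rw [Finset.smul_sum, smul_smul]
    rw [Finset.sum_comm, Finset.mul_sum]
    apply Finset.sum_congr rfl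
    intro j _
    rw [← Finset.sum_smul, hPA, ← Algebra.smul_def, smul_smul]
  have hfm : ∀ i, (f i : PR n) ∈ maximalIdeal (PR n) := by
    intro i
    rw [mem_max_iff]
    have := hc i
    rw [MvPolynomial.constantCoeff_eq] at this
    rw [← MvPowerSeries.coeff_zero_eq_constantCoeff_apply, MvPolynomial.coeff_coe, this]
  have hIm : I ≤ maximalIdeal (PR n) := by
    rw [hI, Ideal.span_le]
    rintro _ ⟨i, rfl⟩
    exact hfm i
  have hPI : Prim I := prim_of_finite (k := ℂ) I hIm
  have hFI : Ideal.span (Set.range F) = I := by rw [hI]; exact span_matrix P Q hQP _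
  have hym : Ideal.span (Set.range y) = maximalIdeal (PR n) := by
    rw [max_eq]
    exact span_matrix P Q hQP _
  have hyi : ∀ i, y i ∈ maximalIdeal (PR n) := fun i => by
    rw [← hym]; exact Ideal.subset_span ⟨i, rfl⟩
  have hFi : ∀ i, F i ∈ maximalIdeal (PR n) := fun i => by
    apply hIm
    rw [← hFI]; exact Ideal.subset_span ⟨i, rfl⟩
  -- the ideal of the fixed space
  set J : Ideal (PR n) := Ideal.span (y '' {j | ζ j ≠ 1}) with hJ
  have hXJ : ∀ i, σ (MvPowerSeries.X i) - MvPowerSeries.X i ∈ J := by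
    intro i
    have h1 : (MvPowerSeries.X i : PR n) = ∑ j, Q i j • y j := by
      have h2 := lin_one (n := n) i
      rw [← hQP] at h2
      rw [← h2]
      rw [hy]
      unfold lin
      simp_rw [Finset.smul_sum, smul_smul]
      rw [Finset.sum_comm]
      apply Finset.sum_congr rfl
      intro j _
      rw [← Finset.sum_smul, Matrix.mul_apply]
    rw [h1, map_sum, ← Finset.sum_sub_distrib]
    apply Ideal.sum_mem
    intro j _
    rw [map_smul, ← smul_sub, hye]
    apply Submodule.smul_of_tower_mem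
    have e : algebraMap ℂ (PR n) (ζ j) * y j - y j = algebraMap ℂ (PR n) (ζ j - 1) * y j := by
      rw [map_sub, map_one]; ring
    rw [e]
    by_cases hj : ζ j = 1
    · rw [hj]; simp
    · exact Ideal.mul_mem_left _ _ (Ideal.subset_span ⟨j, hj, rfl⟩)
  have hpJ : ∀ p : MvPolynomial (Fin n) ℂ, σ (p : PR n) - (p : PR n) ∈ J := by
    intro p
    induction p using MvPolynomial.induction_on with
    | C a =>
      rw [MvPolynomial.coe_C]
      have : (MvPowerSeries.C a : PR n) = algebraMap ℂ (PR n) a := by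
        rw [MvPowerSeries.c_eq_algebraMap]
      rw [this, AlgHom.commutes, sub_self]
      exact Submodule.zero_mem _
    | add p q h1 h2 =>
      rw [MvPolynomial.coe_add, map_add]
      have : σ (p : PR n) + σ (q : PR n) - ((p : PR n) + (q : PR n)) =
        (σ (p : PR n) - (p : PR n)) + (σ (q : PR n) - (q : PR n)) := by ring
      rw [this]
      exact Ideal.add_mem _ h1 h2
    | mul_X p i h1 =>
      rw [MvPolynomial.coe_mul, MvPolynomial.coe_X, map_mul]
      have : σ (p : PR n) * σ (MvPowerSeries.X i) - (p : PR n) * MvPowerSeries.X i =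
        σ (p : PR n) * (σ (MvPowerSeries.X i) - MvPowerSeries.X i) +
          (σ (p : PR n) - (p : PR n)) * MvPowerSeries.X i := by ring
      rw [this]
      exact Ideal.add_mem _ (Ideal.mul_mem_left _ _ (hXJ i)) (Ideal.mul_mem_right _ _ h1)
  have hFJ : ∀ i, σ (F i) - F i ∈ J := by
    intro i
    rw [hF]
    simp only [map_sum, map_smul]
    rw [← Finset.sum_sub_distrib]
    apply Ideal.sum_mem
    intro j _
    rw [← smul_sub]
    exact Submodule.smul_of_tower_mem _ _ (hpJ (f j))
  have unit_mem : ∀ (K : Ideal (PR n)) (z : ℂ) (x : PR n), z ≠ 1 →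
      algebraMap ℂ (PR n) z * x - x ∈ K → x ∈ K := by
    intro K z x hz hx
    have e : x = (z - 1)⁻¹ • (algebraMap ℂ (PR n) z * x - x) := by
      rw [← Algebra.smul_def]
      have : z • x - x = (z - 1) • x := by rw [sub_smul, one_smul]
      rw [this, smul_smul, inv_mul_cancel₀ (sub_ne_zero.2 hz), one_smul]
    rw [e]
    exact Submodule.smul_of_tower_mem _ _ hx
  have hFy : ∀ i, ζ i ≠ 1 → F i ∈ J := by
    intro i hi
    have h1 := hFJ i
    rw [hFe] at h1
    exact unit_mem J (ζ i) (F i) hi h1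
  let z : Fin n → PR n := fun i => if ζ i = 1 then F i else y i
  have hz1 : ∀ i, ζ i = 1 → z i = F i := fun i hi => if_pos hi
  have hz2 : ∀ i, ζ i ≠ 1 → z i = y i := fun i hi => if_neg hi
  obtain ⟨hpz, htr⟩ := main σ (fun J hJ => finite_of_prim J hJ) y F ζ hye hFe M hM hζ hyi hFi
    (good_lin P Q hPQ hQP) ⟨1, by rw [hym, pow_one]⟩ (by rw [hFI]; exact hPI) hFy z hz1 hz2
  rw [hFI] at htr
  -- the left hand side
  have hIσ : I ≤ I.comap σ := by
    conv_lhs => rw [hI]
    rw [Ideal.span_le]
    rintro _ ⟨i, rfl⟩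
    rw [SetLike.mem_coe, Ideal.mem_comap]
    change σ (f i : PR n) ∈ I
    rw [hσf]
    apply Ideal.sum_mem
    intro j _
    apply Submodule.smul_of_tower_mem
    rw [hI]
    exact Ideal.subset_span ⟨j, rfl⟩
  have hTq : T = qmap σ I hIσ := by
    obtain ⟨N, hN⟩ := hPI
    have e : T.comp (Ideal.Quotient.mkₐ ℂ I) = (qmap σ I hIσ).comp (Ideal.Quotient.mkₐ ℂ I) := by
      apply hom_ext _ _ N
      · intro r hr
        have : Ideal.Quotient.mkₐ ℂ I r = 0 := Ideal.Quotient.eq_zero_iff_mem.2 (hN hr)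
        rw [AlgHom.comp_apply, this, map_zero]
      · intro r hr
        have : Ideal.Quotient.mkₐ ℂ I r = 0 := Ideal.Quotient.eq_zero_iff_mem.2 (hN hr)
        rw [AlgHom.comp_apply, this, map_zero]
      · intro i
        rw [AlgHom.comp_apply, AlgHom.comp_apply, Ideal.Quotient.mkₐ_eq_mk, hT, qmap_mk, hσ, sub_X]
        rfl
    apply AlgHom.ext
    intro q
    obtain ⟨r, rfl⟩ := Ideal.Quotient.mk_surjective q
    exact DFunLike.congr_fun e r
  rw [hTq, ← qtr_eq, htr]
  -- the right hand side
  have hzJ : J ≤ Ideal.span (Set.range z) := by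
    apply Ideal.span_mono
    rintro _ ⟨j, hj, rfl⟩
    exact ⟨j, hz2 j hj⟩
  have hσX : ∀ i, ∑ j : Fin n, (A - 1) i j • (MvPowerSeries.X j : PR n) =
      σ (MvPowerSeries.X i) - MvPowerSeries.X i := by
    intro i
    rw [hσ, sub_X]
    have h1 := lin_one (n := n) i
    rw [← h1]
    unfold lin
    rw [← Finset.sum_sub_distrib]
    apply Finset.sum_congr rfl
    intro j _
    rw [← sub_smul, Matrix.sub_apply]
  have hI2 : Ideal.span (Set.range (fun i : Fin n => (f i : PR n)) ∪
        Set.range (fun i : Fin n => ∑ j : Fin n, (A - 1) i j • (MvPowerSeries.X j : PR n))) =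
      Ideal.span (Set.range z) := by
    apply le_antisymm
    · rw [Ideal.span_le]
      rintro x (hx | hx)
      · have h1 : x ∈ Ideal.span (Set.range F) := by
          rw [hFI, hI]; exact Ideal.subset_span hx
        have h2 : Ideal.span (Set.range F) ≤ Ideal.span (Set.range z) := by
          rw [Ideal.span_le]
          rintro _ ⟨i, rfl⟩
          by_cases hi : ζ i = 1
          · rw [← hz1 i hi]; exact Ideal.subset_span ⟨i, rfl⟩
          · exact hzJ (hFy i hi)
        exact h2 h1
      · obtain ⟨i, rfl⟩ := hx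
        simp only
        rw [hσX]
        exact hzJ (hXJ i)
    · rw [Ideal.span_le]
      rintro _ ⟨i, rfl⟩
      by_cases hi : ζ i = 1
      · rw [hz1 i hi]
        have h1 : F i ∈ I := by rw [← hFI]; exact Ideal.subset_span ⟨i, rfl⟩
        rw [hI] at h1
        exact Ideal.span_mono Set.subset_union_left h1
      · rw [hz2 i hi]
        apply unit_mem _ (ζ i) _ hi
        rw [← hye]
        have e : σ (y i) - y i = ∑ j, P i j • (σ (MvPowerSeries.X j) - MvPowerSeries.X j) := by
          rw [hy]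
          unfold lin
          rw [map_sum, ← Finset.sum_sub_distrib]
          apply Finset.sum_congr rfl
          intro j _
          rw [map_smul, smul_sub]
        rw [e]
        apply Ideal.sum_mem
        intro j _
        apply Submodule.smul_of_tower_mem
        rw [← hσX]
        exact Ideal.subset_span (Or.inr ⟨j, rfl⟩)
  rw [hI2]
  have hzσ : Ideal.span (Set.range z) ≤ (Ideal.span (Set.range z)).comap σ := by
    conv_lhs => rw [Ideal.span]
    rw [Submodule.span_le]
    rintro _ ⟨i, rfl⟩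
    rw [SetLike.mem_coe, Ideal.mem_comap]
    change σ (z i) ∈ _
    have : σ (z i) = algebraMap ℂ (PR n) (ζ i) * z i := by
      by_cases hi : ζ i = 1
      · rw [hz1 i hi]; exact hFe i
      · rw [hz2 i hi]; exact hye i
    rw [this]
    exact Ideal.mul_mem_left _ _ (Ideal.subset_span ⟨i, rfl⟩)
  rw [qtr_eq σ _ hzσ]
  have hid : (qmap σ _ hzσ) = AlgHom.id ℂ _ := by
    obtain ⟨N, hN⟩ := hpz
    have e : (qmap σ _ hzσ).comp (Ideal.Quotient.mkₐ ℂ (Ideal.span (Set.range z))) =
        Ideal.Quotient.mkₐ ℂ (Ideal.span (Set.range z)) := by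
      apply hom_ext _ _ N
      · intro r hr
        have : Ideal.Quotient.mkₐ ℂ (Ideal.span (Set.range z)) r = 0 :=
          Ideal.Quotient.eq_zero_iff_mem.2 (hN hr)
        rw [AlgHom.comp_apply, this, map_zero]
      · intro r hr
        exact Ideal.Quotient.eq_zero_iff_mem.2 (hN hr)
      · intro i
        rw [AlgHom.comp_apply, Ideal.Quotient.mkₐ_eq_mk, qmap_mk, Ideal.Quotient.eq]
        exact hzJ (hXJ i)
    apply AlgHom.ext
    intro q
    obtain ⟨r, rfl⟩ := Ideal.Quotient.mk_surjective q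
    exact DFunLike.congr_fun e r
  have : Module.Finite ℂ (PR n ⧸ Ideal.span (Set.range z)) := finite_of_prim _ hpz
  rw [hid]
  exact LinearMap.trace_id ℂ _

end Fin

end Pool.Agent.H92R3
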